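import Pool.Agent.Helper10.K3.SysDefs

/-!
# Module C : the involution near the four nodes
-/

namespace KumWA

open Classical

variable {p : ℕ} [hp : Fact p.Prime]

theorem yc_add_T_ne {d : ℚ_[p]} (hd : d ≠ 0) {P : E d} (hy : yc P ≠ 0) :
    P + T hd ≠ 0 ∧ xc P ≠ 0 ∧ xc (P + T hd) = 2 * d ^ 2 / xc P ∧
      yc (P + T hd) = - (2 * d ^ 2) * yc P / xc P ^ 2 ∧ yc (P + T hd) ≠ 0 := by
  have hP0 : P ≠ 0 := by rintro rfl; exact hy yc_zero
  have hPT : P ≠ T hd := by rintro rfl; exact hy (yc_T hd)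
  obtain ⟨h1, h2, h3, h4⟩ := add_T hd hP0 hPT
  refine ⟨h1, h2, h3, h4, ?_⟩
  rw [h4]
  exact div_ne_zero (mul_ne_zero (neg_ne_zero.2 (mul_ne_zero two_ne_zero (pow_ne_zero _ hd))) hy)
    (pow_ne_zero _ h2)

/-- opposite x-coordinates -/
theorem sig_opp {d : ℚ_[p]} (hd : nd d) {Q R : E d} (hQ : yc Q ≠ 0) (hR : yc R ≠ 0)
    (hx : xc R = - xc Q) :
    SigL ⟨d, hd, Q, R⟩ ⟨d, hd, Q + T (nd_ne hd), R + T (nd_ne hd)⟩ := by
  have hd0 := nd_ne hd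
  obtain ⟨a1, a2, a3, a4, a5⟩ := yc_add_T_ne hd0 hQ
  obtain ⟨b1, b2, b3, b4, b5⟩ := yc_add_T_ne hd0 hR
  have hux : (mkPt hd0 Q R hQ hR).x = xc Q / d := rfl
  have huy : (mkPt hd0 Q R hQ hR).y = -(xc Q / d) := by
    change xc R / d = _
    rw [hx, neg_div]
  have huz : (mkPt hd0 Q R hQ hR).z = yc Q * yc R / d ^ 3 := rfl
  have hx0 : xc Q / d ≠ 0 := div_ne_zero a2 hd0
  have hD : Dn (xc Q / d) (-(xc Q / d)) = -4 * (xc Q / d) ^ 2 := by unfold Dn; ring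
  have hq : qn (xc Q / d) (-(xc Q / d)) = 16 * (xc Q / d) ^ 2 := by unfold qn; ring
  have hok : IOK (mkPt hd0 Q R hQ hR) := by
    refine ⟨?_, ?_, ?_⟩
    · rw [hux, huy, hD]
      exact mul_ne_zero (by norm_num) (pow_ne_zero _ hx0)
    · rw [hux, huy]
      have : xc Q / d + -(xc Q / d) + 4 = 4 := by ring
      rw [this]
      norm_num
    · rw [hux, huy, hq]
      exact mul_ne_zero (by norm_num) (pow_ne_zero _ hx0)
  refine ⟨mkPt hd0 Q R hQ hR, hok, rep_mkPt hd0 hQ hR, hd0, a1, b1, ?_, ?_, ?_⟩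
  · rw [iota_x, hux, huy, a3, rho, hD]
    field_simp
    ring
  · rw [iota_y, hux, huy, b3, rho, hD, hx]
    field_simp
    ring
  · rw [iota_z, hux, huy, huz, a4, b4, kap, hD, hq, hx]
    field_simp
    ring

theorem gg_mul (x : ℚ_[p]) (hx : x ≠ 0) : gg x * gg (-x) = x ^ 4 - 12 * x ^ 2 + 4 := by
  unfold gg; ring

/-- a point and its translate by `T` -/
theorem sig_trans (h8 : p % 8 = 5) {d : ℚ_[p]} (hd : nd d) {P P' : E d} (hP : yc P ≠ 0)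
    (hP' : yc P' ≠ 0) (hx : xc P' = - xc P) :
    SigL ⟨d, hd, P, P + T (nd_ne hd)⟩ ⟨d, hd, P', P' + T (nd_ne hd)⟩ := by
  have hd0 := nd_ne hd
  obtain ⟨a1, a2, a3, a4, a5⟩ := yc_add_T_ne hd0 hP
  obtain ⟨b1, b2, b3, b4, b5⟩ := yc_add_T_ne hd0 hP'
  set x := xc P / d with hxd
  have hx0 : x ≠ 0 := div_ne_zero a2 hd0
  have hxP : xc P = x * d := by rw [hxd]; field_simp
  have hg : gg x ≠ 0 := (kHyp_padic h8).gg_ne x
  have hg' : gg (-x) ≠ 0 := (kHyp_padic h8).gg_ne (-x)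
  have hux : (mkPt hd0 P (P + T hd0) hP a5).x = x := rfl
  have huy : (mkPt hd0 P (P + T hd0) hP a5).y = 2 / x := by
    change xc (P + T hd0) / d = _
    rw [a3, hxP]
    field_simp
  have hyP : yc P ^ 2 = d ^ 3 * ff x := yc_sq_ff hd0 P
  have hyP' : yc P' ^ 2 = d ^ 3 * ff (-x) := by
    rw [yc_sq_ff hd0 P', hx, neg_div]
  have huz : (mkPt hd0 P (P + T hd0) hP a5).z = -2 * gg x / x := by
    change yc P * yc (P + T hd0) / d ^ 3 = _
    rw [a4, hxP]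
    have : yc P * (-(2 * d ^ 2) * yc P / (x * d) ^ 2) / d ^ 3 =
        -(2 * d ^ 2) * (yc P ^ 2) / (x * d) ^ 2 / d ^ 3 := by ring
    rw [this, hyP, ff_eq]
    field_simp
  have hs : x + 2 / x + 4 = gg x / x := by
    unfold gg; field_simp; ring
  have hD : Dn x (2 / x) = 2 * (gg x / x) := by
    rw [← hs]; unfold Dn; field_simp; ring
  have hq : qn x (2 / x) = 2 * (gg x * gg (-x)) / x ^ 2 := by
    rw [gg_mul x hx0]; unfold qn; field_simp; ring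
  have hok : IOK (mkPt hd0 P (P + T hd0) hP a5) := by
    refine ⟨?_, ?_, ?_⟩
    · rw [hux, huy, hD]
      exact mul_ne_zero two_ne_zero (div_ne_zero hg hx0)
    · rw [hux, huy, hs]
      exact div_ne_zero hg hx0
    · rw [hux, huy, hq]
      exact div_ne_zero (mul_ne_zero two_ne_zero (mul_ne_zero hg hg')) (pow_ne_zero _ hx0)
  have hP'0 : P' ≠ 0 := by rintro rfl; exact hP' yc_zero
  refine ⟨mkPt hd0 P (P + T hd0) hP a5, hok, rep_mkPt hd0 hP a5, hd0, hP'0, b1, ?_, ?_, ?_⟩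
  · rw [iota_x, hux, huy, rho, hs, hD, hx, hxP]
    field_simp
  · rw [iota_y, hux, huy, rho, hs, hD, b3, hx, hxP]
    field_simp
  · rw [iota_z, hux, huy, huz, kap, hs, hD, hq]
    change _ = yc P' * yc (P' + T hd0)
    rw [b4, hx, hxP]
    have : yc P' * (-(2 * d ^ 2) * yc P' / (-(x * d)) ^ 2) =
        -(2 * d ^ 2) * (yc P' ^ 2) / (-(x * d)) ^ 2 := by ring
    rw [this, hyP', ff_eq]
    field_simp
    ring

/-- a point with the opposite x-coordinate -/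
theorem exists_opp (h8 : p % 8 = 5) {d : ℚ_[p]} (hd : nd d) {c : ℕ} {η : E d} (hη : lev c η) :
    ∃ η' : E d, lev c η' ∧ yc η' ≠ 0 ∧ xc η' = - xc η := by
  have hd0 := nd_ne hd
  obtain ⟨h0, hy, hx⟩ := lev_norm hd hη
  have hpp := one_lt_p (p := p)
  have hx1 : 1 ≤ ‖xc η‖ := by
    rw [hx]
    exact one_le_pow₀ hpp.le
  have hdx : ‖d‖ < ‖xc η‖ := (nd_lt hd).trans_le hx1
  have hxne : xc η ≠ 0 := xc_ne_of_yc hy
  have h2 : p ≠ 2 := by rintro rfl; norm_num at h8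
  have hny := norm_yc_sq hdx
  have hsq : IsSquare ((-xc η) ^ 3 + 4 * d * (-xc η) ^ 2 + 2 * d ^ 2 * (-xc η)) := by
    apply isSquare_of_close h2 (y := -1 * yc η ^ 2)
    · have e : (-xc η) ^ 3 + 4 * d * (-xc η) ^ 2 + 2 * d ^ 2 * (-xc η) - -1 * yc η ^ 2 =
          8 * (d * xc η ^ 2) := by
        rw [curve_eq]; ring
      rw [e, neg_one_mul, norm_neg, norm_pow, hny]
      refine (norm_nat_mul_le 8 _).trans_lt ?_
      rw [norm_mul, norm_pow]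
      have : ‖xc η‖ ^ 3 = ‖xc η‖ * ‖xc η‖ ^ 2 := by ring
      rw [this]
      apply mul_lt_mul_of_pos_right hdx
      positivity
    · exact (padic_neg_one_sq h8).mul (IsSquare.sq _)
  obtain ⟨Y, hY⟩ := hsq
  have hY2 : Y ^ 2 = (-xc η) ^ 3 + 4 * d * (-xc η) ^ 2 + 2 * d ^ 2 * (-xc η) := by
    rw [hY]; ring
  have hη' : xc (mkP hd0 (-xc η) Y hY2) = - xc η := xc_mkP _ _ _ _
  have hnx : ‖xc (mkP hd0 (-xc η) Y hY2)‖ = ‖xc η‖ := by rw [hη', norm_neg]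
  have hny' := norm_yc_sq (P := mkP hd0 (-xc η) Y hY2) (by rw [hnx]; exact hdx)
  rw [hnx, ← hny] at hny'
  have hny'' : ‖yc (mkP hd0 (-xc η) Y hY2)‖ = ‖yc η‖ := by
    exact (pow_left_inj₀ (norm_nonneg _) (norm_nonneg _) two_ne_zero).mp hny'
  refine ⟨mkP hd0 (-xc η) Y hY2, ⟨?_, ?_⟩, ?_, hη'⟩
  · right
    rw [hnx, hx]
  · rw [← hη.2, tt, tt, norm_div, norm_div, hnx, hny'']
  · intro h
    rw [h, norm_zero] at hny''
    exact hy (norm_eq_zero.mp hny''.symm)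

theorem sig_node (h8 : p % 8 = 5) {d : ℚ_[p]} (hd : nd d) (c : ℕ) (A B : E d)
    (hA : A = 0 ∨ A = T (nd_ne hd)) (hB : B = 0 ∨ B = T (nd_ne hd)) :
    ∃ (l₀ : Loc p) (η₁ η₂ : E d), NN l₀ ∧ lev c η₁ ∧ lev c η₂ ∧
      SigL l₀ ⟨d, hd, A + η₁, B + η₂⟩ := by
  have hd0 := nd_ne hd
  obtain ⟨η, hη⟩ := exists_lev h8 hd c
  obtain ⟨η', hη', hy', hx'⟩ := exists_opp h8 hd hη
  obtain ⟨h0, hy, hx⟩ := lev_norm hd hη
  obtain ⟨a1, a2, a3, a4, a5⟩ := yc_add_T_ne hd0 hy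
  obtain ⟨b1, b2, b3, b4, b5⟩ := yc_add_T_ne hd0 hy'
  have hf : fil 0 η := fil_mono (Nat.zero_le c) hη.1
  have hf' : fil 0 η' := fil_mono (Nat.zero_le c) hη'.1
  have hTT : ∀ P : E d, P + T (nd_ne hd) + T (nd_ne hd) = P := by
    intro P
    rw [add_assoc, T_add_T, add_zero]
  have hnk : ∀ P : E d, fil 0 P → nk hd P := fun P h => Or.inl h
  have hnkT : ∀ P : E d, fil 0 P → nk hd (P + T (nd_ne hd)) := fun P h => Or.inr (by
    rw [hTT]; exact h)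
  rcases hA with rfl | rfl <;> rcases hB with rfl | rfl
  · refine ⟨⟨d, hd, η + T hd0, η' + T hd0⟩, η, η', ⟨hnkT _ hf, hnkT _ hf'⟩, hη, hη', ?_⟩
    have h := sig_opp hd a5 b5 (by rw [b3, a3, hx', div_neg])
    rw [hTT, hTT] at h
    rw [zero_add, zero_add]
    exact h
  · refine ⟨⟨d, hd, η', η' + T hd0⟩, η, η, ⟨hnk _ hf', hnkT _ hf'⟩, hη, hη, ?_⟩
    have h := sig_trans h8 hd hy' hy (by rw [hx', neg_neg])
    rw [zero_add, add_comm (T (nd_ne hd)) η]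
    exact h
  · refine ⟨⟨d, hd, η' + T hd0, η'⟩, η, η, ⟨hnkT _ hf', hnk _ hf'⟩, hη, hη, ?_⟩
    have h := sig_trans h8 hd b5 a5 (by rw [b3, a3, hx', div_neg, neg_neg])
    rw [hTT, hTT] at h
    rw [zero_add, add_comm (T (nd_ne hd)) η]
    exact h
  · refine ⟨⟨d, hd, η, η'⟩, η, η', ⟨hnk _ hf, hnk _ hf'⟩, hη, hη', ?_⟩
    have h := sig_opp hd hy hy' hx'
    rw [add_comm (T (nd_ne hd)) η, add_comm (T (nd_ne hd)) η']
    exact h

end KumWA
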