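import Mathlib

/-!
An explicit subset `FF` of the integer lattice which is 2-power periodic on every line
but is not periodic in the first coordinate direction.
-/

namespace Pool.Agent.Helper98

/-- level `k` set -/
def Fk (k : ℕ) (a b : ℤ) : Prop :=
  ∀ c d e : ℤ, |c| ≤ k → |d| ≤ k → |e| ≤ k → (c ≠ 0 ∨ d ≠ 0) →
    ¬ ((2 : ℤ) ^ (3 * k + 2) ∣ c * a + d * b - e)

/-- the union of the level sets -/
def FF (a b : ℤ) : Prop := ∃ k : ℕ, 1 ≤ k ∧ Fk k a b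

theorem Fk_neg {k : ℕ} {a b : ℤ} (h : Fk k a b) : Fk k (-a) (-b) := by
  intro c d e hc hd he hcd hdiv
  refine h (-c) (-d) e (by rwa [abs_neg]) (by rwa [abs_neg]) he (by simpa using hcd) ?_
  have : -c * a + -d * b - e = c * -a + d * -b - e := by ring
  rwa [this]

theorem FF_neg {a b : ℤ} : FF (-a) (-b) ↔ FF a b := by
  constructor
  · rintro ⟨k, hk, h⟩
    refine ⟨k, hk, ?_⟩
    have := Fk_neg h
    simpa using this
  · rintro ⟨k, hk, h⟩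
    exact ⟨k, hk, Fk_neg h⟩

theorem not_FF_zero_left (b : ℤ) : ¬ FF 0 b := by
  rintro ⟨k, hk, h⟩
  refine h 1 0 0 ?_ ?_ ?_ (Or.inl one_ne_zero) ?_
  · simpa using hk
  · simp
  · simp
  · simp

theorem Fk_periodic (k : ℕ) (K : ℕ) (hK : k ≤ K) (g1 g2 q1 q2 n : ℤ)
    (h : Fk k (g1 + n * q1) (g2 + n * q2)) :
    Fk k (g1 + (n + 2 ^ (3 * K + 2)) * q1) (g2 + (n + 2 ^ (3 * K + 2)) * q2) := by
  intro c d e hc hd he hcd hdiv
  refine h c d e hc hd he hcd ?_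
  have h2 : (2 : ℤ) ^ (3 * k + 2) ∣ 2 ^ (3 * K + 2) := pow_dvd_pow _ (by omega)
  have h3 : (2 : ℤ) ^ (3 * k + 2) ∣ 2 ^ (3 * K + 2) * (c * q1 + d * q2) := Dvd.dvd.mul_right h2 _
  have : c * (g1 + n * q1) + d * (g2 + n * q2) - e =
      (c * (g1 + (n + 2 ^ (3 * K + 2)) * q1) + d * (g2 + (n + 2 ^ (3 * K + 2)) * q2) - e) -
        2 ^ (3 * K + 2) * (c * q1 + d * q2) := by ring
  rw [this]
  exact dvd_sub hdiv h3

theorem Fk_periodic' (k : ℕ) (K : ℕ) (hK : k ≤ K) (g1 g2 q1 q2 n : ℤ)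
    (h : Fk k (g1 + (n + 2 ^ (3 * K + 2)) * q1) (g2 + (n + 2 ^ (3 * K + 2)) * q2)) :
    Fk k (g1 + n * q1) (g2 + n * q2) := by
  intro c d e hc hd he hcd hdiv
  refine h c d e hc hd he hcd ?_
  have h2 : (2 : ℤ) ^ (3 * k + 2) ∣ 2 ^ (3 * K + 2) := pow_dvd_pow _ (by omega)
  have h3 : (2 : ℤ) ^ (3 * k + 2) ∣ 2 ^ (3 * K + 2) * (c * q1 + d * q2) := Dvd.dvd.mul_right h2 _
  have : (c * (g1 + (n + 2 ^ (3 * K + 2)) * q1) + d * (g2 + (n + 2 ^ (3 * K + 2)) * q2) - e) =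
      c * (g1 + n * q1) + d * (g2 + n * q2) - e +
        2 ^ (3 * K + 2) * (c * q1 + d * q2) := by ring
  rw [this]
  exact dvd_add hdiv h3

theorem Fk_line_empty (k : ℕ) (g1 g2 q1 q2 n : ℤ) (hq : q1 ≠ 0 ∨ q2 ≠ 0)
    (h1 : |q1| ≤ k) (h2 : |q2| ≤ k) (h3 : |q2 * g1 - q1 * g2| ≤ k) :
    ¬ Fk k (g1 + n * q1) (g2 + n * q2) := by
  intro h
  refine h q2 (-q1) (q2 * g1 - q1 * g2) h2 (by rwa [abs_neg]) h3 ?_ ?_
  · rcases hq with h | h
    · right; simpa using h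
    · left; exact h
  · have : q2 * (g1 + n * q1) + -q1 * (g2 + n * q2) - (q2 * g1 - q1 * g2) = 0 := by ring
    rw [this]
    exact dvd_zero _

theorem FF_line (g1 g2 q1 q2 : ℤ) : ∃ K : ℕ, ∀ n : ℤ,
    (FF (g1 + (n + 2 ^ K) * q1) (g2 + (n + 2 ^ K) * q2) ↔ FF (g1 + n * q1) (g2 + n * q2)) := by
  by_cases hq : q1 ≠ 0 ∨ q2 ≠ 0
  · set K0 : ℕ := max (max q1.natAbs q2.natAbs) (q2 * g1 - q1 * g2).natAbs with hK0
    have key : ∀ k : ℕ, ∀ n : ℤ, K0 ≤ k → ¬ Fk k (g1 + n * q1) (g2 + n * q2) := by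
      intro k n hk
      apply Fk_line_empty _ _ _ _ _ _ hq
      · rw [Int.abs_eq_natAbs]; exact_mod_cast le_trans (by omega) hk
      · rw [Int.abs_eq_natAbs]; exact_mod_cast le_trans (by omega) hk
      · rw [Int.abs_eq_natAbs]; exact_mod_cast le_trans (by omega) hk
    refine ⟨3 * K0 + 2, fun n => ⟨?_, ?_⟩⟩
    · rintro ⟨k, hk, h⟩
      by_cases hk0 : k ≤ K0
      · exact ⟨k, hk, Fk_periodic' k K0 hk0 _ _ _ _ _ h⟩
      · exact absurd h (key k _ (by omega))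
    · rintro ⟨k, hk, h⟩
      by_cases hk0 : k ≤ K0
      · exact ⟨k, hk, Fk_periodic k K0 hk0 _ _ _ _ _ h⟩
      · exact absurd h (key k _ (by omega))
  · push Not at hq
    refine ⟨0, fun n => ?_⟩
    simp [hq.1, hq.2]

/-- `FF_line` with arbitrarily large exponents -/
theorem FF_line' (g1 g2 q1 q2 : ℤ) : ∃ K : ℕ, ∀ K' : ℕ, K ≤ K' → ∀ n : ℤ,
    (FF (g1 + (n + 2 ^ K') * q1) (g2 + (n + 2 ^ K') * q2) ↔ FF (g1 + n * q1) (g2 + n * q2)) := by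
  obtain ⟨K, hK⟩ := FF_line g1 g2 q1 q2
  refine ⟨K, fun K' hK' => ?_⟩
  obtain ⟨j, rfl⟩ := Nat.exists_eq_add_of_le hK'
  clear hK'
  induction j with
  | zero => simpa using hK
  | succ j ih =>
    intro n
    have e : n + (2 : ℤ) ^ (K + (j + 1)) = (n + 2 ^ (K + j)) + 2 ^ (K + j) := by ring
    rw [e, ih, ih]

theorem Fk_point (k : ℕ) : Fk k (2 ^ k) (2 ^ (2 * k + 1)) := by
  intro c d e hc hd he hcd hdiv
  have hk : (k : ℤ) < 2 ^ k := by exact_mod_cast k.lt_two_pow_self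
  have hk0 : (0 : ℤ) ≤ k := by positivity
  set p : ℤ := 2 ^ k with hp
  have hp1 : (1 : ℤ) ≤ p := by omega
  have e1 : (2 : ℤ) ^ (2 * k + 1) = 2 * p ^ 2 := by rw [hp]; ring
  have e2 : (2 : ℤ) ^ (3 * k + 2) = 4 * p ^ 3 := by rw [hp]; ring
  rw [e1, e2] at hdiv
  obtain ⟨hc1, hc2⟩ := abs_le.mp hc
  obtain ⟨hd1, hd2⟩ := abs_le.mp hd
  obtain ⟨he1, he2⟩ := abs_le.mp he
  have hpp : p ≤ p ^ 2 := by nlinarith
  have hppp : p ^ 2 ≤ p ^ 3 := by nlinarith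
  -- the value is nonzero and small
  have hlt : |c * p + d * (2 * p ^ 2) - e| < 4 * p ^ 3 := by
    rw [abs_lt]
    constructor
    · nlinarith [mul_nonneg (sub_nonneg.mpr hp1) (sub_nonneg.mpr hp1),
        mul_nonneg (by linarith : (0:ℤ) ≤ c + k) (by linarith : (0:ℤ) ≤ p),
        mul_nonneg (by linarith : (0:ℤ) ≤ d + k) (by positivity : (0:ℤ) ≤ p ^ 2),
        mul_nonneg (by linarith : (0:ℤ) ≤ p - 1 - k) (by positivity : (0:ℤ) ≤ p ^ 2),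
        mul_nonneg (by linarith : (0:ℤ) ≤ p - 1 - k) (by positivity : (0:ℤ) ≤ p)]
    · nlinarith [mul_nonneg (sub_nonneg.mpr hp1) (sub_nonneg.mpr hp1),
        mul_nonneg (by linarith : (0:ℤ) ≤ k - c) (by linarith : (0:ℤ) ≤ p),
        mul_nonneg (by linarith : (0:ℤ) ≤ k - d) (by positivity : (0:ℤ) ≤ p ^ 2),
        mul_nonneg (by linarith : (0:ℤ) ≤ p - 1 - k) (by positivity : (0:ℤ) ≤ p ^ 2),
        mul_nonneg (by linarith : (0:ℤ) ≤ p - 1 - k) (by positivity : (0:ℤ) ≤ p)]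
  have hzero : c * p + d * (2 * p ^ 2) - e = 0 := Int.eq_zero_of_abs_lt_dvd hdiv hlt
  by_cases hd0 : d = 0
  · subst hd0
    have hc0 : c ≠ 0 := by simpa using hcd
    rcases lt_or_gt_of_ne hc0 with h | h
    · nlinarith
    · nlinarith
  · rcases lt_or_gt_of_ne hd0 with h | h
    · have : d ≤ -1 := by omega
      nlinarith [mul_nonneg (by linarith : (0:ℤ) ≤ -1 - d) (by positivity : (0:ℤ) ≤ p ^ 2),
        mul_nonneg (by linarith : (0:ℤ) ≤ k - c) (by linarith : (0:ℤ) ≤ p),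
        mul_nonneg (by linarith : (0:ℤ) ≤ p - 1 - k) (by positivity : (0:ℤ) ≤ p)]
    · have : 1 ≤ d := by omega
      nlinarith [mul_nonneg (by linarith : (0:ℤ) ≤ d - 1) (by positivity : (0:ℤ) ≤ p ^ 2),
        mul_nonneg (by linarith : (0:ℤ) ≤ c + k) (by linarith : (0:ℤ) ≤ p),
        mul_nonneg (by linarith : (0:ℤ) ≤ p - 1 - k) (by positivity : (0:ℤ) ≤ p)]

theorem FF_point (m : ℕ) (hm : 1 ≤ m) : ∃ j b : ℤ, FF (m * j) b := by
  obtain ⟨s, m', hodd, rfl⟩ := Nat.exists_eq_two_pow_mul_odd (by omega : m ≠ 0)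
  set k := s + 1 with hk
  -- Bezout
  have hcop : IsCoprime (m' : ℤ) ((2 : ℤ) ^ (3 * k + 2)) := by
    apply IsCoprime.pow_right
    have := Nat.Coprime.symm (Nat.coprime_two_left.mpr hodd)
    exact_mod_cast Nat.isCoprime_iff_coprime.mpr this
  obtain ⟨u, w, huw⟩ := hcop
  refine ⟨u * 2, 2 ^ (2 * k + 1), k, by omega, ?_⟩
  have hpt := Fk_point k
  have e : ((2 ^ s * m' : ℕ) : ℤ) * (u * 2) = 2 ^ k - 2 ^ (3 * k + 2) * (w * 2 ^ k) := by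
    push_cast
    have : (m' : ℤ) * u = 1 - w * 2 ^ (3 * k + 2) := by linarith
    calc (2 : ℤ) ^ s * m' * (u * 2) = 2 ^ k * (m' * u) := by rw [hk]; ring
      _ = _ := by rw [this]; ring
  rw [e]
  intro c d e' hc hd he hcd hdiv
  refine hpt c d e' hc hd he hcd ?_
  have : c * 2 ^ k + d * 2 ^ (2 * k + 1) - e' =
      (c * (2 ^ k - 2 ^ (3 * k + 2) * (w * 2 ^ k)) + d * 2 ^ (2 * k + 1) - e') +
       2 ^ (3 * k + 2) * (c * (w * 2 ^ k)) := by ring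
  rw [this]
  exact dvd_add hdiv (Dvd.intro _ rfl)

end Pool.Agent.Helper98
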