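import Mathlib

/-!
A twisted lamplighter type group: triples `(v, z, q)` with `v` in a commutative ring `R` with
involution, `z` in a group of order two, and `q` in a commutative group acting by units of `R`.
-/

namespace Pool.Agent.Helper98

/-- data for the twisted group -/
structure TData (Q R : Type) [CommGroup Q] [CommRing R] where
  bar : R →+* R
  bar_bar : ∀ r, bar (bar r) = r
  T : Q →* R
  hT : ∀ q, T q * bar (T q) = 1
  Th : R →+ ZMod 2

/-- triples -/
@[ext] structure TGp {Q R : Type} [CommGroup Q] [CommRing R] (D : TData Q R) where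
  v : R
  z : ZMod 2
  q : Q

namespace TGp

variable {Q R : Type} [CommGroup Q] [CommRing R] {D : TData Q R}

instance : Mul (TGp D) :=
  ⟨fun a b => ⟨a.v + D.T a.q * b.v, a.z + b.z + D.Th (a.v * D.bar (D.T a.q * b.v)), a.q * b.q⟩⟩

instance : One (TGp D) := ⟨⟨0, 0, 1⟩⟩

instance : Inv (TGp D) :=
  ⟨fun a => ⟨-(D.T a.q⁻¹ * a.v), -a.z + D.Th (a.v * D.bar a.v), a.q⁻¹⟩⟩

@[simp] theorem mul_v (a b : TGp D) : (a * b).v = a.v + D.T a.q * b.v := rfl
@[simp] theorem mul_z (a b : TGp D) :
    (a * b).z = a.z + b.z + D.Th (a.v * D.bar (D.T a.q * b.v)) := rfl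
@[simp] theorem mul_q (a b : TGp D) : (a * b).q = a.q * b.q := rfl
@[simp] theorem one_v : (1 : TGp D).v = 0 := rfl
@[simp] theorem one_z : (1 : TGp D).z = 0 := rfl
@[simp] theorem one_q : (1 : TGp D).q = 1 := rfl
@[simp] theorem inv_v (a : TGp D) : (a⁻¹).v = -(D.T a.q⁻¹ * a.v) := rfl
@[simp] theorem inv_z (a : TGp D) : (a⁻¹).z = -a.z + D.Th (a.v * D.bar a.v) := rfl
@[simp] theorem inv_q (a : TGp D) : (a⁻¹).q = a.q⁻¹ := rfl

theorem T_inv (q : Q) : D.T q⁻¹ * D.T q = 1 := by
  rw [← map_mul, inv_mul_cancel, map_one]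

theorem T_inv' (q : Q) : D.T q * D.T q⁻¹ = 1 := by
  rw [← map_mul, mul_inv_cancel, map_one]

theorem bar_T (q : Q) : D.bar (D.T q) = D.T q⁻¹ := by
  have h := D.hT q
  calc D.bar (D.T q) = (D.T q⁻¹ * D.T q) * D.bar (D.T q) := by rw [T_inv, one_mul]
    _ = D.T q⁻¹ * (D.T q * D.bar (D.T q)) := by ring
    _ = _ := by rw [h, mul_one]

instance : Group (TGp D) :=
  Group.ofLeftAxioms
    (by
      intro a b c
      ext
      · simp only [mul_v, mul_q, map_mul]; ring
      · simp only [mul_v, mul_z, mul_q, map_mul, map_add, add_mul, mul_add]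
        have h : D.T a.q * b.v * (D.bar (D.T a.q) * D.bar (D.T b.q) * D.bar c.v)
            = b.v * (D.bar (D.T b.q) * D.bar c.v) := by
          calc _ = (D.T a.q * D.bar (D.T a.q)) * (b.v * (D.bar (D.T b.q) * D.bar c.v)) := by ring
            _ = _ := by rw [D.hT, one_mul]
        rw [h]
        have h2 : a.v * (D.bar (D.T a.q) * D.bar (D.T b.q) * D.bar c.v) =
          a.v * (D.bar (D.T a.q) * (D.bar (D.T b.q) * D.bar c.v)) := by ring
        rw [h2]
        abel
      · simp only [mul_q, mul_assoc])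
    (by
      intro a
      ext
      · simp
      · simp
      · simp)
    (by
      intro a
      ext
      · simp
      · simp only [mul_z, inv_z, inv_v, inv_q, one_z, map_neg, map_mul]
        have h : -(D.T a.q⁻¹ * a.v) * (D.bar (D.T a.q⁻¹) * D.bar a.v) = -(a.v * D.bar a.v) := by
          calc _ = -((D.T a.q⁻¹ * D.bar (D.T a.q⁻¹)) * (a.v * D.bar a.v)) := by ring
            _ = _ := by rw [D.hT, one_mul]
        rw [h, map_neg]
        abel
      · simp)

/-- the projection to `Q` -/
def toQ (D : TData Q R) : TGp D →* Q where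
  toFun a := a.q
  map_one' := rfl
  map_mul' _ _ := rfl

theorem mul_inv_v (a b : TGp D) : (a * b⁻¹).v = a.v - D.T (a.q * b.q⁻¹) * b.v := by
  simp only [mul_v, inv_v, map_mul]; ring

/-- commutator coordinates when the first element lies in the kernel -/
theorem comm_v (a g : TGp D) (ha : a.q = 1) : (a * g * a⁻¹ * g⁻¹).v = (1 - D.T g.q) * a.v := by
  simp only [mul_v, inv_v, mul_q, inv_q, ha, inv_one, mul_one, one_mul, map_one]
  have : D.T g.q * -(D.T g.q⁻¹ * g.v) = -g.v := by
    calc _ = -((D.T g.q * D.T g.q⁻¹) * g.v) := by ring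
      _ = _ := by rw [T_inv', one_mul]
  rw [this]; ring

theorem comm_q (a g : TGp D) : (a * g * a⁻¹ * g⁻¹).q = 1 := by
  simp only [mul_q, inv_q]
  rw [mul_comm a.q g.q]; group

/-- `γ` -/
theorem sq_z (a : TGp D) (ha : a.q = 1) : (a * a).z = a.z + a.z + D.Th (a.v * D.bar a.v) := by
  simp [ha]

/-- elements of the kernel commute when the form vanishes -/
theorem comm_of (a b : TGp D) (ha : a.q = 1) (hb : b.q = 1) (h : a * b = b * a) :
    D.Th (a.v * D.bar b.v) = D.Th (b.v * D.bar a.v) := by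
  have := congrArg TGp.z h
  simp only [mul_z, ha, hb, map_one, one_mul] at this
  rw [add_comm b.z a.z] at this
  exact add_left_cancel this

end TGp

end Pool.Agent.Helper98
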