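import Mathlib
import Pool.Agent.Helper98.TGroup

/-!
Positive part: under a line periodicity hypothesis every subgroup generated by `x` and a
conjugate of `x` has a normal subgroup of exponent dividing two with nilpotent quotient.
-/

namespace Pool.Agent.Helper98

namespace TGp

variable {Q R : Type} [CommGroup Q] [CommRing R] {D : TData Q R}

theorem comm_v' (h g : TGp D) :
    (h * g * h⁻¹ * g⁻¹).v = (1 - D.T g.q) * h.v - (1 - D.T h.q) * g.v := by
  simp only [mul_v, inv_v, mul_q, inv_q, map_mul]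
  have h1 : D.T h.q * D.T h.q⁻¹ = 1 := T_inv' _
  have h2 : D.T g.q * D.T g.q⁻¹ = 1 := T_inv' _
  have e1 : D.T h.q * D.T g.q * -(D.T h.q⁻¹ * h.v) = -(D.T h.q * D.T h.q⁻¹) * (D.T g.q * h.v) := by
    ring
  have e2 : D.T h.q * D.T g.q * D.T h.q⁻¹ * -(D.T g.q⁻¹ * g.v) =
    -((D.T h.q * D.T h.q⁻¹) * (D.T g.q * D.T g.q⁻¹)) * g.v := by ring
  rw [e1, e2, h1, h2]; ring

theorem conj_v (g d : TGp D) (hd : d.q = 1) : (g * d * g⁻¹).v = D.T g.q * d.v := by
  simp only [mul_v, inv_v, mul_q, hd, mul_one]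
  have h2 : D.T g.q * D.T g.q⁻¹ = 1 := T_inv' _
  have e : D.T g.q * -(D.T g.q⁻¹ * g.v) = -(D.T g.q * D.T g.q⁻¹) * g.v := by ring
  rw [e, h2]; ring

theorem conj_q (g d : TGp D) (hd : d.q = 1) : (g * d * g⁻¹).q = 1 := by
  simp [hd]

theorem zpow_q (x : TGp D) (n : ℤ) : (x ^ n).q = x.q ^ n := by
  have := map_zpow (toQ D) x n
  simpa [toQ] using this

/-- additive span of the powers of a unit -/
def SS (D : TData Q R) (q : Q) : AddSubgroup R :=
  AddSubgroup.closure (Set.range fun n : ℤ => D.T (q ^ n))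

theorem T_mem (q : Q) (n : ℤ) : D.T (q ^ n) ∈ SS D q := AddSubgroup.subset_closure ⟨n, rfl⟩

theorem one_mem_SS (q : Q) : (1 : R) ∈ SS D q := by
  have := T_mem (D := D) q 0
  simpa using this

theorem T_mul_mem (q : Q) (n : ℤ) {r : R} (hr : r ∈ SS D q) : D.T (q ^ n) * r ∈ SS D q := by
  induction hr using AddSubgroup.closure_induction with
  | mem x hx =>
    obtain ⟨m, rfl⟩ := hx
    simp only
    rw [← map_mul, ← zpow_add]
    exact T_mem q _
  | zero => simp
  | add x y _ _ hx hy => rw [mul_add]; exact AddSubgroup.add_mem _ hx hy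
  | neg x _ hx => rw [mul_neg]; exact AddSubgroup.neg_mem _ hx

theorem mul_mem_SS (q : Q) {s r : R} (hs : s ∈ SS D q) (hr : r ∈ SS D q) : s * r ∈ SS D q := by
  induction hs using AddSubgroup.closure_induction with
  | mem x hx =>
    obtain ⟨m, rfl⟩ := hx
    exact T_mul_mem q m hr
  | zero => simp
  | add x y _ _ hx hy => rw [add_mul]; exact AddSubgroup.add_mem _ hx hy
  | neg x _ hx => rw [neg_mul]; exact AddSubgroup.neg_mem _ hx

theorem bar_mem_SS (q : Q) {r : R} (hr : r ∈ SS D q) : D.bar r ∈ SS D q := by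
  induction hr using AddSubgroup.closure_induction with
  | mem x hx =>
    obtain ⟨m, rfl⟩ := hx
    simp only
    rw [bar_T, ← zpow_neg]
    exact T_mem q _
  | zero => simp
  | add x y _ _ hx hy => rw [map_add]; exact AddSubgroup.add_mem _ hx hy
  | neg x _ hx => rw [map_neg]; exact AddSubgroup.neg_mem _ hx

theorem T_sub_one (q : Q) (n : ℤ) : ∃ s ∈ SS D q, D.T (q ^ n) - 1 = (D.T q - 1) * s := by
  induction n using Int.induction_on with
  | zero => exact ⟨0, AddSubgroup.zero_mem _, by simp⟩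
  | succ n ih =>
    obtain ⟨s, hs, e⟩ := ih
    refine ⟨D.T (q ^ (n : ℤ)) + s, AddSubgroup.add_mem _ (T_mem q _) hs, ?_⟩
    have : D.T (q ^ ((n : ℤ) + 1)) = D.T (q ^ (n : ℤ)) * D.T q := by
      rw [← map_mul, zpow_add_one]
    rw [this]
    calc D.T (q ^ (n : ℤ)) * D.T q - 1
        = (D.T q - 1) * D.T (q ^ (n : ℤ)) + (D.T (q ^ (n : ℤ)) - 1) := by ring
      _ = _ := by rw [e]; ring
  | pred n ih =>
    obtain ⟨s, hs, e⟩ := ih
    refine ⟨s - D.T (q ^ (-(n : ℤ) - 1)), AddSubgroup.sub_mem _ hs (T_mem q _), ?_⟩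
    have : D.T (q ^ (-(n : ℤ))) = D.T (q ^ (-(n : ℤ) - 1)) * D.T q := by
      rw [← map_mul, ← zpow_add_one]; congr 2; ring
    rw [mul_sub, ← e, this]; ring

/-- the descending family of subgroups -/
def DD (D : TData Q R) (q : Q) (w : R) (j : ℕ) : Subgroup (TGp D) where
  carrier := {g | g.q = 1 ∧ ∃ r ∈ SS D q, g.v = (D.T q - 1) ^ j * (r * w)}
  one_mem' := ⟨rfl, 0, AddSubgroup.zero_mem _, by simp⟩
  mul_mem' := by
    rintro a b ⟨ha, r, hr, ea⟩ ⟨hb, s, hs, eb⟩
    refine ⟨by simp [ha, hb], r + s, AddSubgroup.add_mem _ hr hs, ?_⟩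
    rw [mul_v, ha, map_one, one_mul, ea, eb]; ring
  inv_mem' := by
    rintro a ⟨ha, r, hr, ea⟩
    refine ⟨by simp [ha], -r, AddSubgroup.neg_mem _ hr, ?_⟩
    rw [inv_v, ha, inv_one, map_one, one_mul, ea]; ring

theorem mem_DD {q : Q} {w : R} {j : ℕ} {g : TGp D} :
    g ∈ DD D q w j ↔ g.q = 1 ∧ ∃ r ∈ SS D q, g.v = (D.T q - 1) ^ j * (r * w) := Iff.rfl

/-- the form -/
def Phi (D : TData Q R) (r : R) : ZMod 2 := D.Th r + D.Th (D.bar r)

theorem Phi_add (r s : R) : Phi D (r + s) = Phi D r + Phi D s := by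
  simp only [Phi, map_add]; abel

theorem Phi_neg (r : R) : Phi D (-r) = -Phi D r := by
  simp only [Phi, map_neg]; abel

theorem Phi_sub (r s : R) : Phi D (r - s) = Phi D r - Phi D s := by
  rw [sub_eq_add_neg, Phi_add, Phi_neg, sub_eq_add_neg]

theorem Phi_zero : Phi D 0 = 0 := by simp [Phi]

theorem Phi_norm (v : R) : Phi D (v * D.bar v) = 0 := by
  simp only [Phi, map_mul, D.bar_bar]
  rw [mul_comm (D.bar v) v]
  exact CharTwo.add_self_eq_zero _

/-- key vanishing -/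
theorem Phi_vanish (q : Q) (M : ℤ) (u : R)
    (h : ∀ n : ℤ, Phi D (u * D.T (q ^ (n + M))) = Phi D (u * D.T (q ^ n)))
    {r : R} (hr : r ∈ SS D q) : Phi D (r * (D.T (q ^ M) - 1) * u) = 0 := by
  induction hr using AddSubgroup.closure_induction with
  | mem x hx =>
    obtain ⟨m, rfl⟩ := hx
    have e : D.T (q ^ m) * (D.T (q ^ M) - 1) * u = u * D.T (q ^ (m + M)) - u * D.T (q ^ m) := by
      rw [zpow_add, map_mul]; ring
    simp only
    rw [e, Phi_sub, h, sub_self]
  | zero => simp [Phi_zero]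
  | add x y _ _ hx hy => rw [add_mul, add_mul, Phi_add, hx, hy, add_zero]
  | neg x _ hx => rw [neg_mul, neg_mul, Phi_neg, hx, neg_zero]

/-- the quadratic map -/
def PP (D : TData Q R) (w : R) : ZMod 2 := D.Th (w * D.bar w)

theorem PP_add (w w' : R) : PP D (w + w') = PP D w + PP D w' + Phi D (w * D.bar w') := by
  simp only [PP, Phi, map_add, map_mul, D.bar_bar, add_mul, mul_add]
  rw [mul_comm w' (D.bar w)]
  abel

theorem PP_T (q : Q) (w : R) : PP D (D.T q * w) = PP D w := by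
  simp only [PP, map_mul]
  have : D.T q * w * (D.bar (D.T q) * D.bar w) = (D.T q * D.bar (D.T q)) * (w * D.bar w) := by ring
  rw [this, D.hT, one_mul]

theorem PP_neg (w : R) : PP D (-w) = PP D w := by
  simp [PP]

theorem bar_T' (q : Q) (n : ℤ) : D.bar (D.T (q ^ n)) = D.T (q ^ (-n)) := by
  rw [bar_T, zpow_neg]

theorem PP_vanish (q : Q) (M : ℤ) (w : R)
    (h : ∀ n : ℤ, Phi D (w * D.bar w * D.T (q ^ (n + M))) = Phi D (w * D.bar w * D.T (q ^ n)))
    {r : R} (hr : r ∈ SS D q) : PP D (r * ((D.T (q ^ M) - 1) * w)) = 0 := by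
  set w0 := (D.T (q ^ M) - 1) * w with hw0
  have hbase : PP D w0 = 0 := by
    have e : w0 = D.T (q ^ M) * w + -w := by rw [hw0]; ring
    rw [e, PP_add, PP_T, PP_neg, CharTwo.add_self_eq_zero, zero_add]
    have e2 : D.T (q ^ M) * w * D.bar (-w) = -(w * D.bar w * D.T (q ^ (0 + M))) := by
      rw [map_neg, zero_add]; ring
    rw [e2, Phi_neg, h 0, zpow_zero, map_one, mul_one, Phi_norm, neg_zero]
  induction hr using AddSubgroup.closure_induction with
  | mem x hx =>
    obtain ⟨m, rfl⟩ := hx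
    simp only
    rw [PP_T, hbase]
  | zero => simp [PP]
  | add x y hx' hy' hx hy =>
    rw [add_mul, PP_add, hx, hy, zero_add, zero_add]
    have e : x * w0 * D.bar (y * w0) =
        (x * D.bar y * (D.bar (D.T (q ^ M)) - 1)) * (D.T (q ^ M) - 1) * (w * D.bar w) := by
      rw [hw0]; simp only [map_mul, map_sub, map_one]; ring
    rw [e]
    apply Phi_vanish q M (w * D.bar w) h
    apply mul_mem_SS
    · exact mul_mem_SS q hx' (bar_mem_SS q hy')
    · rw [bar_T']
      exact AddSubgroup.sub_mem _ (T_mem q _) (one_mem_SS q)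
  | neg x _ hx => rw [neg_mul, PP_neg, hx]

/-- the members of the subgroup generated by `x` and `x'` -/
theorem good_of_mem (x x' : TGp D) (hq : x'.q = x.q) {h : TGp D}
    (hh : h ∈ Subgroup.closure ({x, x'} : Set (TGp D))) :
    ∃ n : ℤ, h.q = x.q ^ n ∧ ∃ r ∈ SS D x.q, h.v = (x ^ n).v + r * (x⁻¹ * x').v := by
  induction hh using Subgroup.closure_induction with
  | mem a ha =>
    rcases ha with rfl | ha
    · exact ⟨1, by simp, 0, AddSubgroup.zero_mem _, by simp⟩
    · rw [Set.mem_singleton_iff] at ha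
      subst ha
      refine ⟨1, by simp [hq], D.T (x.q ^ (1 : ℤ)), T_mem _ _, ?_⟩
      simp only [zpow_one, mul_v, inv_v, inv_q]
      have h2 : D.T x.q * D.T x.q⁻¹ = 1 := T_inv' _
      have e : D.T x.q * (-(D.T x.q⁻¹ * x.v) + D.T x.q⁻¹ * a.v) =
        (D.T x.q * D.T x.q⁻¹) * (a.v - x.v) := by ring
      rw [e, h2]; ring
  | one => exact ⟨0, by simp, 0, AddSubgroup.zero_mem _, by simp⟩
  | mul a b _ _ ha hb =>
    obtain ⟨n, hn, r, hr, er⟩ := ha
    obtain ⟨m, hm, s, hs, es⟩ := hb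
    refine ⟨n + m, by rw [mul_q, hn, hm, zpow_add], r + D.T (x.q ^ n) * s,
      AddSubgroup.add_mem _ hr (T_mul_mem _ _ hs), ?_⟩
    rw [mul_v a b, er, es, hn, zpow_add, mul_v (x ^ n) (x ^ m), zpow_q]; ring
  | inv a _ ha =>
    obtain ⟨n, hn, r, hr, er⟩ := ha
    refine ⟨-n, by rw [inv_q, hn, zpow_neg], -(D.T (x.q ^ (-n)) * r),
      AddSubgroup.neg_mem _ (T_mul_mem _ _ hr), ?_⟩
    rw [inv_v, er, hn, zpow_neg, inv_v, zpow_q, zpow_neg]; ring

theorem main_pos [CharP R 2] (x x' : TGp D) (hq : x'.q = x.q) (k : ℕ)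
    (hper : ∀ n : ℤ, Phi D ((x⁻¹ * x').v * D.bar (x⁻¹ * x').v * D.T (x.q ^ (n + 2 ^ k))) =
      Phi D ((x⁻¹ * x').v * D.bar (x⁻¹ * x').v * D.T (x.q ^ n))) :
    ∃ (K : Subgroup (Subgroup.closure ({x, x'} : Set (TGp D)))) (_ : K.Normal),
      (∀ g : K, g ^ 2 = 1) ∧ Group.IsNilpotent ((Subgroup.closure ({x, x'} : Set (TGp D))) ⧸ K) := by
  set H := Subgroup.closure ({x, x'} : Set (TGp D)) with hH
  set w := (x⁻¹ * x').v with hw
  set E : Subgroup H := (DD D x.q w (2 ^ k)).subgroupOf H with hE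
  have hnorm : ∀ j : ℕ, ∀ g ∈ H, ∀ d ∈ DD D x.q w j, g * d * g⁻¹ ∈ DD D x.q w j := by
    intro j g hg d hd
    obtain ⟨n, hn, -⟩ := good_of_mem x x' hq hg
    obtain ⟨hd1, r, hr, er⟩ := mem_DD.mp hd
    refine mem_DD.mpr ⟨conj_q _ _ hd1, D.T (x.q ^ n) * r, T_mul_mem _ _ hr, ?_⟩
    rw [conj_v _ _ hd1, hn, er]; ring
  have hEn : E.Normal := by
    constructor
    intro d hd g
    rw [hE, Subgroup.mem_subgroupOf] at hd ⊢
    exact hnorm _ _ g.2 _ hd
  have hpow : (D.T x.q - 1) ^ 2 ^ k = D.T (x.q ^ ((2 : ℤ) ^ k)) - 1 := by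
    rw [sub_pow_char_pow, one_pow, ← map_pow, ← zpow_natCast]
    push_cast
    rfl
  refine ⟨E, hEn, ?_, ?_⟩
  · rintro ⟨⟨g, hg⟩, hgE⟩
    rw [hE, Subgroup.mem_subgroupOf] at hgE
    obtain ⟨h1, r, hr, er⟩ := mem_DD.mp hgE
    simp only at h1 er
    have : g ^ 2 = 1 := by
      rw [pow_two]
      ext
      · rw [mul_v, h1, map_one, one_mul, CharTwo.add_self_eq_zero]; rfl
      · rw [sq_z _ h1, CharTwo.add_self_eq_zero, zero_add]
        have h3 := PP_vanish x.q (2 ^ k) w hper hr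
        rw [← hpow] at h3
        have e : g.v = r * ((D.T x.q - 1) ^ 2 ^ k * w) := by rw [er]; ring
        rw [e]
        exact h3
      · rw [mul_q, h1, one_mul]; rfl
    ext1; ext1
    exact this
  · rw [Subgroup.nilpotent_iff_finite_descending_central_series]
    refine ⟨2 ^ k + 1, fun j => match j with
      | 0 => ⊤
      | j + 1 => ((DD D x.q w j).subgroupOf H).map (QuotientGroup.mk' E), ⟨rfl, ?_⟩, ?_⟩
    · intro a n ha g
      obtain ⟨a, rfl⟩ := QuotientGroup.mk'_surjective E a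
      obtain ⟨g, rfl⟩ := QuotientGroup.mk'_surjective E g
      cases n with
      | zero =>
        refine ⟨a * g * a⁻¹ * g⁻¹, ?_, by simp only [map_mul, map_inv]; rfl⟩
        simp only [SetLike.mem_coe]
        rw [Subgroup.mem_subgroupOf]
        obtain ⟨a, ha'⟩ := a
        obtain ⟨g, hg'⟩ := g
        obtain ⟨n, hn, r, hr, er⟩ := good_of_mem x x' hq ha'
        obtain ⟨m, hm, s, hs, es⟩ := good_of_mem x x' hq hg'
        refine mem_DD.mpr ⟨comm_q _ _, r - D.T (x.q ^ m) * r - (s - D.T (x.q ^ n) * s), ?_, ?_⟩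
        · exact AddSubgroup.sub_mem _ (AddSubgroup.sub_mem _ hr (T_mul_mem _ _ hr))
            (AddSubgroup.sub_mem _ hs (T_mul_mem _ _ hs))
        · change (a * g * a⁻¹ * g⁻¹).v = _
          rw [comm_v', er, es, hn, hm, pow_zero, one_mul]
          have hc : (x ^ n * x ^ m).v = (x ^ m * x ^ n).v := by
            rw [← zpow_add, ← zpow_add, add_comm]
          rw [mul_v, mul_v, zpow_q, zpow_q] at hc
          linear_combination hc
      | succ j =>
        obtain ⟨d, hd, e⟩ := ha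
        rw [← e]
        refine ⟨d * g * d⁻¹ * g⁻¹, ?_, by simp only [map_mul, map_inv]; rfl⟩
        simp only [SetLike.mem_coe] at hd ⊢
        rw [Subgroup.mem_subgroupOf] at hd ⊢
        obtain ⟨d, hd'⟩ := d
        obtain ⟨g, hg'⟩ := g
        obtain ⟨h1, r, hr, er⟩ := mem_DD.mp hd
        obtain ⟨m, hm, -⟩ := good_of_mem x x' hq hg'
        obtain ⟨s, hs, es⟩ := T_sub_one (D := D) x.q m
        simp only at h1 er
        refine mem_DD.mpr ⟨comm_q _ _, -(s * r), AddSubgroup.neg_mem _ (mul_mem_SS _ hs hr), ?_⟩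
        change (d * g * d⁻¹ * g⁻¹).v = _
        rw [comm_v _ _ h1, hm, er]
        have : (1 : R) - D.T (x.q ^ m) = -((D.T x.q - 1) * s) := by rw [← es]; ring
        rw [this]; ring
    · simp only
      rw [← hE]
      rw [QuotientGroup.map_mk'_self]

end TGp

end Pool.Agent.Helper98
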