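import Mathlib
import Pool.Agent.Helper98.TPos

/-!
Negative part: a normal subgroup of exponent dividing `m` (`m` congruent to 2 mod 4) with
finite-by-nilpotent quotient forces periodicity of the form.
-/

namespace Pool.Agent.Helper98

namespace TGp

variable {Q R : Type} [CommGroup Q] [CommRing R] {D : TData Q R}

/-- the section of `toQ` -/
def inQ (D : TData Q R) : Q →* TGp D where
  toFun q := ⟨0, 0, q⟩
  map_one' := rfl
  map_mul' a b := by ext <;> simp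

@[simp] theorem inQ_v (q : Q) : (inQ D q).v = 0 := rfl
@[simp] theorem inQ_z (q : Q) : (inQ D q).z = 0 := rfl
@[simp] theorem inQ_q (q : Q) : (inQ D q).q = q := rfl

/-- iterated commutators -/
def itc (D : TData Q R) (t : Q) : ℕ → TGp D
  | 0 => ⟨1, 0, 1⟩
  | n + 1 => itc D t n * inQ D t * (itc D t n)⁻¹ * (inQ D t)⁻¹

theorem itc_q (t : Q) (n : ℕ) : (itc D t n).q = 1 := by
  cases n with
  | zero => rfl
  | succ n => exact comm_q _ _

theorem itc_v (t : Q) (n : ℕ) : (itc D t n).v = (1 - D.T t) ^ n := by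
  induction n with
  | zero => simp [itc]
  | succ n ih =>
    rw [itc, comm_v _ _ (itc_q t n), ih, inQ_q]; ring

theorem itc_mem_lcs {N : Type} [Group N] (f : TGp D →* N) (t : Q) (n : ℕ) :
    f (itc D t n) ∈ Subgroup.lowerCentralSeries (⊤ : Subgroup N) n := by
  induction n with
  | zero => simp
  | succ n ih =>
    rw [itc, Subgroup.lowerCentralSeries_succ]
    have : f (itc D t n * inQ D t * (itc D t n)⁻¹ * (inQ D t)⁻¹) =
      f (itc D t n) * f (inQ D t) * (f (itc D t n))⁻¹ * (f (inQ D t))⁻¹ := by simp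
    rw [this]
    exact Subgroup.commutator_mem_commutator ih (Subgroup.mem_top _)

theorem pow_two_of_ker (g : TGp D) [CharP R 2] (hg : g.q = 1) (m : ℕ) (hm : m % 4 = 2)
    (h : g ^ m = 1) : g ^ 2 = 1 := by
  have h2q : (g ^ 2).q = 1 := by rw [pow_two, mul_q, hg, one_mul]
  have h2v : (g ^ 2).v = 0 := by
    rw [pow_two, mul_v, hg, map_one, one_mul, CharTwo.add_self_eq_zero]
  have h4 : g ^ 4 = 1 := by
    have : g ^ 4 = g ^ 2 * g ^ 2 := by rw [← pow_add]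
    rw [this]
    ext
    · rw [mul_v, h2v, mul_zero, add_zero]; rfl
    · rw [sq_z _ h2q, CharTwo.add_self_eq_zero, h2v]; simp
    · rw [mul_q, h2q, one_mul]; rfl
  have e : m = 4 * (m / 4) + 2 := by omega
  rw [e, pow_add, pow_mul, h4, one_pow, one_mul] at h
  exact h

theorem comm_of_sq (a b : TGp D) (ha : a ^ 2 = 1) (hb : b ^ 2 = 1) (hab : (a * b) ^ 2 = 1) :
    a * b = b * a := by
  have h1 : a⁻¹ = a := by
    rw [inv_eq_iff_mul_eq_one, ← pow_two, ha]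
  have h2 : b⁻¹ = b := by
    rw [inv_eq_iff_mul_eq_one, ← pow_two, hb]
  have h3 : (a * b)⁻¹ = a * b := by
    rw [inv_eq_iff_mul_eq_one, ← pow_two, hab]
  rw [mul_inv_rev, h1, h2] at h3
  exact h3.symm

theorem main_neg [CharP R 2] (t : Q) (m : ℕ) (hm : m % 4 = 2)
    (hspan : ∀ r : R, r ∈ AddSubgroup.closure (Set.range fun q : Q => D.T q))
    (L : Subgroup (TGp D)) [L.Normal] (hL : ∀ g ∈ L, g ^ m = 1)
    (F : Subgroup (TGp D ⧸ L)) [F.Normal] [Finite F]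
    (hN : Group.IsNilpotent ((TGp D ⧸ L) ⧸ F)) :
    ∃ N : ℕ, 1 ≤ N ∧ ∀ r : R, Phi D (r * (D.T (t ^ N) - 1)) = 0 := by
  -- a long iterated commutator falls in F
  obtain ⟨n, hn⟩ := Subgroup.nilpotent_iff_lowerCentralSeries.mp hN
  have hF : ∀ k : ℕ, n ≤ k → QuotientGroup.mk' L (itc D t k) ∈ F := by
    intro k hk
    have h1 := itc_mem_lcs ((QuotientGroup.mk' F).comp (QuotientGroup.mk' L)) t k
    have h2 := (Subgroup.lowerCentralSeries_antitone _) hk h1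
    rw [hn, Subgroup.mem_bot] at h2
    rw [MonoidHom.comp_apply] at h2
    rwa [QuotientGroup.mk'_apply (N := F), QuotientGroup.eq_one_iff] at h2
  obtain ⟨k, hk⟩ : ∃ k : ℕ, n ≤ 2 ^ k := ⟨n, n.lt_two_pow_self.le⟩
  set s := itc D t (2 ^ k) with hs
  have hsF := hF _ hk
  rw [← hs] at hsF
  have hsv : s.v = 1 - D.T (t ^ (2 ^ k)) := by
    rw [hs, itc_v, sub_pow_char_pow, one_pow, ← map_pow]
  have hsq : s.q = 1 := itc_q _ _
  -- pigeonhole
  let f : ℕ → F := fun i => ⟨QuotientGroup.mk' L (inQ D (t ^ i) * s * (inQ D (t ^ i))⁻¹), by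
    rw [map_mul, map_mul, map_inv]
    exact Subgroup.Normal.conj_mem inferInstance _ hsF _⟩
  obtain ⟨i, j, hij, hfij⟩ : ∃ i j : ℕ, i < j ∧ f i = f j := by
    obtain ⟨i, j, hne, he⟩ := Finite.exists_ne_map_eq_of_infinite f
    rcases lt_or_gt_of_ne hne with h | h
    · exact ⟨i, j, h, he⟩
    · exact ⟨j, i, h, he.symm⟩
  have hl := congrArg Subtype.val hfij
  simp only [f] at hl
  rw [QuotientGroup.mk'_apply, QuotientGroup.mk'_apply, QuotientGroup.eq] at hl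
  set l := (inQ D (t ^ i) * s * (inQ D (t ^ i))⁻¹)⁻¹ * (inQ D (t ^ j) * s * (inQ D (t ^ j))⁻¹)
    with hldef
  have hlq : l.q = 1 := by
    rw [hldef, mul_q, inv_q, conj_q _ _ hsq, conj_q _ _ hsq]; simp
  have hlv : l.v = (D.T (t ^ j) - D.T (t ^ i)) * (1 - D.T (t ^ (2 ^ k))) := by
    rw [hldef, mul_v, inv_v, inv_q, conj_q _ _ hsq, conj_v _ _ hsq, conj_v _ _ hsq, hsv]
    simp only [inQ_q, inv_one, map_one, one_mul]; ring
  -- elements of L in the kernel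
  have hsqone : ∀ g ∈ L, g.q = 1 → g ^ 2 = 1 := fun g hg hq => pow_two_of_ker g hq m hm (hL g hg)
  have hphi : ∀ g : Q, Phi D (D.T g * (l.v * D.bar l.v)) = 0 := by
    intro g
    have hmem : inQ D g * l * (inQ D g)⁻¹ ∈ L := Subgroup.Normal.conj_mem inferInstance _ hl _
    have hcq : (inQ D g * l * (inQ D g)⁻¹).q = 1 := conj_q _ _ hlq
    have hcomm := comm_of_sq (inQ D g * l * (inQ D g)⁻¹) l (hsqone _ hmem hcq) (hsqone _ hl hlq)
      (hsqone _ (L.mul_mem hmem hl) (by rw [mul_q, hcq, hlq, one_mul]))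
    have := comm_of _ _ hcq hlq hcomm
    rw [conj_v _ _ hlq, inQ_q] at this
    rw [Phi]
    have e1 : D.T g * (l.v * D.bar l.v) = D.T g * l.v * D.bar l.v := by ring
    have e2 : D.bar (D.T g * (l.v * D.bar l.v)) = l.v * D.bar (D.T g * l.v) := by
      simp only [map_mul, D.bar_bar]; ring
    rw [e2, e1, ← this]
    exact CharTwo.add_self_eq_zero _
  have hphi' : ∀ r : R, Phi D (r * (l.v * D.bar l.v)) = 0 := by
    intro r
    induction hspan r using AddSubgroup.closure_induction with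
    | mem x hx => obtain ⟨g, rfl⟩ := hx; exact hphi g
    | zero => simp [Phi_zero]
    | add x y _ _ hx hy => rw [add_mul, Phi_add, hx, hy, add_zero]
    | neg x _ hx => rw [neg_mul, Phi_neg, hx, neg_zero]
  -- divisibility
  obtain ⟨c, hc, rfl⟩ : ∃ c : ℕ, 1 ≤ c ∧ j = i + c := ⟨j - i, by omega, by omega⟩
  set K := 2 ^ k with hK
  have hK1 : 1 ≤ K := Nat.one_le_two_pow
  refine ⟨4 * (c * K), by nlinarith, ?_⟩
  have hd1 : D.T (t ^ c) - 1 ∣ D.T (t ^ (c * K)) - 1 := by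
    have := sub_dvd_pow_sub_pow (D.T (t ^ c)) 1 K
    rwa [one_pow, ← map_pow, ← pow_mul] at this
  have hd2 : D.T (t ^ K) - 1 ∣ D.T (t ^ (c * K)) - 1 := by
    have := sub_dvd_pow_sub_pow (D.T (t ^ K)) 1 c
    rwa [one_pow, ← map_pow, ← pow_mul, mul_comm] at this
  obtain ⟨u, hu⟩ := hd1
  obtain ⟨w, hw⟩ := hd2
  have hpow4 : D.T (t ^ (4 * (c * K))) - 1 = (D.T (t ^ (c * K)) - 1) ^ 4 := by
    have : (4 : ℕ) = 2 ^ 2 := by norm_num
    conv_rhs => rw [this, sub_pow_char_pow, one_pow, ← map_pow, ← pow_mul]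
    rw [mul_comm]; norm_num
  have hXeq : l.v * D.bar l.v = D.T (t ^ c)⁻¹ * D.T (t ^ K)⁻¹ *
      ((D.T (t ^ c) - 1) ^ 2 * (D.T (t ^ K) - 1) ^ 2) := by
    rw [hlv]
    simp only [map_mul, map_sub, map_one, bar_T, pow_add]
    have h1 : D.T (t ^ i) * D.T (t ^ i)⁻¹ = 1 := T_inv' _
    have h2 : D.T (t ^ c) * D.T (t ^ c)⁻¹ = 1 := T_inv' _
    have h3 : D.T (t ^ K) * D.T (t ^ K)⁻¹ = 1 := T_inv' _
    generalize D.T (t ^ i) = a1 at *
    generalize D.T (t ^ i)⁻¹ = a2 at *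
    generalize D.T (t ^ c) = b1 at *
    generalize D.T (t ^ c)⁻¹ = b2 at *
    generalize D.T (t ^ K) = c1 at *
    generalize D.T (t ^ K)⁻¹ = c2 at *
    have key : (a1 * b1 - a1) * (1 - c1) * ((a2 * b2 - a2) * (1 - c2)) =
      (a1 * a2) * ((b1 - 1) * (b2 - 1)) * ((1 - c1) * (1 - c2)) := by ring
    rw [key, h1]
    have kb : (b1 - 1) * (b2 - 1) = -(b2 * (b1 - 1) ^ 2) := by
      linear_combination (b1 - 1) * h2
    have kc : (1 - c1) * (1 - c2) = -(c2 * (c1 - 1) ^ 2) := by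
      linear_combination (c1 - 1) * h3
    rw [kb, kc]; ring
  have hX : D.T (t ^ (4 * (c * K))) - 1 =
      (D.T (t ^ c) * D.T (t ^ K) * u ^ 2 * w ^ 2) * (l.v * D.bar l.v) := by
    rw [hpow4, hXeq]
    have h2 : D.T (t ^ c) * D.T (t ^ c)⁻¹ = 1 := T_inv' _
    have h3 : D.T (t ^ K) * D.T (t ^ K)⁻¹ = 1 := T_inv' _
    calc (D.T (t ^ (c * K)) - 1) ^ 4
        = (D.T (t ^ (c * K)) - 1) ^ 2 * (D.T (t ^ (c * K)) - 1) ^ 2 := by ring
      _ = ((D.T (t ^ c) - 1) * u) ^ 2 * ((D.T (t ^ K) - 1) * w) ^ 2 := by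
          rw [← hu, ← hw]
      _ = (D.T (t ^ c) * D.T (t ^ c)⁻¹) * (D.T (t ^ K) * D.T (t ^ K)⁻¹) *
          (((D.T (t ^ c) - 1) * u) ^ 2 * ((D.T (t ^ K) - 1) * w) ^ 2) := by
          rw [h2, h3]; ring
      _ = _ := by ring
  intro r
  rw [hX, ← mul_assoc]
  exact hphi' _

end TGp

end Pool.Agent.Helper98
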