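import Mathlib
import Pool.Agent.Helper98.PhiFun
import Pool.Agent.Helper98.TNeg

/-!
The concrete instance over the group ring of the integer lattice with two element coefficients.
-/

namespace Pool.Agent.Helper98

open MonoidAlgebra

namespace Inst

/-- the lattice written multiplicatively -/
abbrev Q := Multiplicative (ℤ × ℤ)

/-- group ring -/
abbrev R := MonoidAlgebra (ZMod 2) Q

open scoped Classical in
/-- weights -/
noncomputable def th (q : Q) : ZMod 2 :=
  if FF (Multiplicative.toAdd q).1 (Multiplicative.toAdd q).2 ∧ 0 < (Multiplicative.toAdd q).1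
  then 1 else 0

open scoped Classical in
/-- symmetric weights -/
noncomputable def ph (q : Q) : ZMod 2 :=
  if FF (Multiplicative.toAdd q).1 (Multiplicative.toAdd q).2 then 1 else 0

theorem th_add (q : Q) : th q + th q⁻¹ = ph q := by
  unfold th ph
  simp only [toAdd_inv, Prod.fst_neg, Prod.snd_neg]
  by_cases h : FF (Multiplicative.toAdd q).1 (Multiplicative.toAdd q).2
  · have h0 : (Multiplicative.toAdd q).1 ≠ 0 := by
      intro h0
      rw [h0] at h
      exact not_FF_zero_left _ h
    have h' : FF (-(Multiplicative.toAdd q).1) (-(Multiplicative.toAdd q).2) := FF_neg.mpr h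
    rcases lt_or_gt_of_ne h0 with h1 | h1
    · simp [h, h', h1, not_lt.mpr h1.le]
    · simp [h, h', h1, not_lt.mpr h1.le]
  · have h' : ¬ FF (-(Multiplicative.toAdd q).1) (-(Multiplicative.toAdd q).2) :=
      fun hh => h (FF_neg.mp hh)
    simp [h, h']

theorem zmod_two_cases (c : ZMod 2) : c = 0 ∨ c = 1 := by
  revert c; decide

/-- the involution -/
noncomputable def barH : R →+* R := MonoidAlgebra.mapDomainRingHom (ZMod 2) (invMonoidHom : Q →* Q)

/-- the functional -/
noncomputable def ThH : R →+ ZMod 2 := MonoidAlgebra.liftNC (AddMonoidHom.id (ZMod 2)) th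

theorem barH_single (q : Q) (c : ZMod 2) : barH (single q c) = single q⁻¹ c := by
  simp [barH]

/-- the data -/
noncomputable def D : TData Q R where
  bar := barH
  bar_bar := by
    intro r
    induction r using MonoidAlgebra.induction_on with
    | of q => simp [MonoidAlgebra.of_apply, barH_single]
    | add x y hx hy => rw [map_add, map_add, hx, hy]
    | smul c x hx =>
      rcases zmod_two_cases c with rfl | rfl
      · simp
      · simpa using hx
  T := MonoidAlgebra.of (ZMod 2) Q
  hT := by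
    intro q
    rw [MonoidAlgebra.of_apply, barH_single, single_mul_single, mul_inv_cancel, one_mul]
    rfl
  Th := ThH

instance : CharP R 2 := by
  exact charP_of_injective_algebraMap (algebraMap (ZMod 2) R).injective 2

theorem T_def (q : Q) : D.T q = single q 1 := rfl

theorem span_T (r : R) : r ∈ AddSubgroup.closure (Set.range fun q : Q => D.T q) := by
  induction r using MonoidAlgebra.induction_on with
  | of q => exact AddSubgroup.subset_closure ⟨q, rfl⟩
  | add x y hx hy => exact AddSubgroup.add_mem _ hx hy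
  | smul c x hx =>
    rcases zmod_two_cases c with rfl | rfl
    · simp
    · simpa using hx

theorem Phi_T (q : Q) : TGp.Phi D (D.T q) = ph q := by
  have h1 : D.Th (D.T q) = th q := by
    rw [T_def]
    change MonoidAlgebra.liftNC (AddMonoidHom.id (ZMod 2)) th (single q 1) = th q
    simp
  have h2 : D.Th (D.bar (D.T q)) = th q⁻¹ := by
    rw [T_def]
    change MonoidAlgebra.liftNC (AddMonoidHom.id (ZMod 2)) th (barH (single q 1)) = th q⁻¹
    rw [barH_single]
    simp
  rw [TGp.Phi, h1, h2, th_add]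

/-- line periodicity of the weights -/
theorem ph_line (g q : Q) : ∃ K : ℕ, ∀ K' : ℕ, K ≤ K' → ∀ n : ℤ,
    ph (g * q ^ (n + 2 ^ K')) = ph (g * q ^ n) := by
  obtain ⟨K, hK⟩ := FF_line' (Multiplicative.toAdd g).1 (Multiplicative.toAdd g).2
    (Multiplicative.toAdd q).1 (Multiplicative.toAdd q).2
  refine ⟨K, fun K' hK' n => ?_⟩
  have := hK K' hK' n
  unfold ph
  simp only [toAdd_mul, toAdd_zpow, Prod.fst_add, Prod.snd_add, Prod.smul_fst, Prod.smul_snd,
    smul_eq_mul]
  by_cases h : FF ((Multiplicative.toAdd g).1 + n * (Multiplicative.toAdd q).1)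
      ((Multiplicative.toAdd g).2 + n * (Multiplicative.toAdd q).2)
  · rw [if_pos h, if_pos (this.mpr h)]
  · rw [if_neg h, if_neg (fun hh => h (this.mp hh))]

theorem Phi_line (r : R) (q : Q) : ∃ K : ℕ, ∀ K' : ℕ, K ≤ K' → ∀ n : ℤ,
    TGp.Phi D (r * D.T (q ^ (n + 2 ^ K'))) = TGp.Phi D (r * D.T (q ^ n)) := by
  induction span_T r using AddSubgroup.closure_induction with
  | mem x hx =>
    obtain ⟨g, rfl⟩ := hx
    obtain ⟨K, hK⟩ := ph_line g q
    refine ⟨K, fun K' hK' n => ?_⟩
    simp only
    rw [← map_mul, ← map_mul, Phi_T, Phi_T, hK K' hK']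
  | zero => exact ⟨0, fun K' _ n => by simp⟩
  | add x y _ _ hx hy =>
    obtain ⟨K1, h1⟩ := hx
    obtain ⟨K2, h2⟩ := hy
    refine ⟨max K1 K2, fun K' hK' n => ?_⟩
    rw [add_mul, add_mul, TGp.Phi_add, TGp.Phi_add, h1 K' (le_trans (le_max_left _ _) hK'),
      h2 K' (le_trans (le_max_right _ _) hK')]
  | neg x _ hx =>
    obtain ⟨K1, h1⟩ := hx
    refine ⟨K1, fun K' hK' n => ?_⟩
    rw [neg_mul, neg_mul, TGp.Phi_neg, TGp.Phi_neg, h1 K' hK']

/-- the two generators of the lattice -/
def t1 : Q := Multiplicative.ofAdd (1, 0)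
def t2 : Q := Multiplicative.ofAdd (0, 1)

theorem Q_gen (q : Q) : q = t1 ^ (Multiplicative.toAdd q).1 * t2 ^ (Multiplicative.toAdd q).2 := by
  apply Multiplicative.toAdd.injective
  simp only [t1, t2, toAdd_mul, toAdd_zpow, toAdd_ofAdd]
  ext <;> simp

theorem ph_not_periodic (N : ℕ) (hN : 1 ≤ N) : ∃ g : Q, ph (g * t1 ^ N) ≠ ph g := by
  by_contra hcon
  push Not at hcon
  obtain ⟨j, b, hjb⟩ := FF_point N hN
  have key : ∀ i : ℕ, ∀ g : Q, ph (g * t1 ^ (N * i)) = ph g := by
    intro i
    induction i with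
    | zero => intro g; simp
    | succ i ih => intro g; rw [mul_add, mul_one, pow_add, ← mul_assoc, hcon, ih]
  have hval : ∀ a : ℤ, ph (Multiplicative.ofAdd (a, b)) = 1 ↔ FF a b := by
    intro a
    unfold ph
    simp
  have h0 : ph (Multiplicative.ofAdd ((0 : ℤ), b)) = 1 := by
    rcases le_total 0 j with h | h
    · obtain ⟨i, rfl⟩ := Int.eq_ofNat_of_zero_le h
      rw [← key i, ← (hval _).mpr hjb]
      congr 1
      apply Multiplicative.toAdd.injective
      simp only [t1, toAdd_mul, toAdd_pow, toAdd_ofAdd]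
      ext <;> simp
    · obtain ⟨i, hi⟩ := Int.eq_ofNat_of_zero_le (Int.neg_nonneg_of_nonpos h)
      have h3 := key i (Multiplicative.ofAdd ((N * j : ℤ), b))
      rw [(hval _).mpr hjb] at h3
      rw [← h3]
      congr 1
      apply Multiplicative.toAdd.injective
      simp only [t1, toAdd_mul, toAdd_pow, toAdd_ofAdd]
      have hj : j = -(i : ℤ) := by omega
      ext
      · simp [hj]
      · simp
  exact not_FF_zero_left b ((hval 0).mp h0)

/-- the group -/
abbrev G := TGp D

theorem G_fg : Group.FG G := by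
  rw [Group.fg_iff]
  let a0 : G := ⟨1, 0, 1⟩
  let z0 : G := ⟨0, 1, 1⟩
  refine ⟨{a0, z0, TGp.inQ D t1, TGp.inQ D t2}, ?_, by simp⟩
  rw [eq_top_iff]
  set C := Subgroup.closure ({a0, z0, TGp.inQ D t1, TGp.inQ D t2} : Set G) with hC
  have ha : a0 ∈ C := Subgroup.subset_closure (by simp)
  have hz : z0 ∈ C := Subgroup.subset_closure (by simp)
  have h1 : TGp.inQ D t1 ∈ C := Subgroup.subset_closure (by simp)
  have h2 : TGp.inQ D t2 ∈ C := Subgroup.subset_closure (by simp)
  have hQ : ∀ q : Q, TGp.inQ D q ∈ C := by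
    intro q
    rw [Q_gen q, map_mul, map_zpow, map_zpow]
    exact C.mul_mem (C.zpow_mem h1 _) (C.zpow_mem h2 _)
  have hzz : ∀ z : ZMod 2, (⟨0, z, 1⟩ : G) ∈ C := by
    intro z
    rcases zmod_two_cases z with rfl | rfl
    · exact C.one_mem
    · exact hz
  have hv : ∀ v : R, ∃ z : ZMod 2, (⟨v, z, 1⟩ : G) ∈ C := by
    intro v
    induction span_T v using AddSubgroup.closure_induction with
    | mem x hx =>
      obtain ⟨g, rfl⟩ := hx
      have hm : TGp.inQ D g * a0 * (TGp.inQ D g)⁻¹ ∈ C :=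
        C.mul_mem (C.mul_mem (hQ g) ha) (C.inv_mem (hQ g))
      refine ⟨(TGp.inQ D g * a0 * (TGp.inQ D g)⁻¹).z, ?_⟩
      convert hm using 1
      ext1
      · rw [TGp.conj_v _ _ rfl]; simp [a0]
      · rfl
      · rw [TGp.conj_q _ _ rfl]
    | zero => exact ⟨0, C.one_mem⟩
    | add x y _ _ hx hy =>
      obtain ⟨z1, h1⟩ := hx
      obtain ⟨z2, h2⟩ := hy
      refine ⟨((⟨x, z1, 1⟩ : G) * ⟨y, z2, 1⟩).z, ?_⟩
      convert C.mul_mem h1 h2 using 1
      ext1
      · simp
      · rfl
      · simp
    | neg x _ hx =>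
      obtain ⟨z1, h1⟩ := hx
      refine ⟨((⟨x, z1, 1⟩ : G)⁻¹).z, ?_⟩
      convert C.inv_mem h1 using 1
      ext1
      · simp
      · rfl
      · simp
  rintro ⟨v, z, q⟩ -
  obtain ⟨z', hz'⟩ := hv v
  have := C.mul_mem (C.mul_mem (hzz (z - z')) hz') (hQ q)
  convert this using 1
  ext1
  · simp
  · simp
  · simp

theorem G_solvable : Group.IsSolvable G := by
  refine Group.isSolvable_of_ker_le_range (G' := (TGp.toQ D).ker) (G'' := Q)
    (Subgroup.subtype _) (TGp.toQ D) (by simp) (hG' := ?_)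
  -- the kernel is an extension of abelian groups
  let f : (TGp.toQ D).ker →* Multiplicative R :=
    { toFun := fun g => Multiplicative.ofAdd g.1.v
      map_one' := rfl
      map_mul' := by
        rintro ⟨a, ha⟩ ⟨b, hb⟩
        have ha' : a.q = 1 := ha
        apply Multiplicative.toAdd.injective
        simp [ha'] }
  refine Group.isSolvable_of_ker_le_range (G' := f.ker) (G'' := Multiplicative R)
    (Subgroup.subtype _) f (by simp) (hG' := ?_)
  refine Group.isSolvable_of_comm ?_
  rintro ⟨⟨a, ha⟩, ha2⟩ ⟨⟨b, hb⟩, hb2⟩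
  have ha' : a.q = 1 := ha
  have hb' : b.q = 1 := hb
  have ha3 : a.v = 0 := ha2
  have hb3 : b.v = 0 := hb2
  ext1; ext1
  change a * b = b * a
  ext1
  · simp [ha3, hb3]
  · simp [ha3, hb3, add_comm]
  · simp [ha', hb']

end Inst

end Pool.Agent.Helper98
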