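import Pool.Agent.Helper72.BA.Defs

/-!
# MP_3dd6d4_an, module IV: change of variables
-/

set_option autoImplicit false

open MeasureTheory Complex FourierTransform Filter Topology
open scoped ENNReal NNReal ComplexConjugate

noncomputable section

namespace Helper72.BA.P

open Helper72.BA

theorem IV_psi_anti {s t : ℝ} (h : s ≤ t) : psi t ≤ psi s := by
  unfold psi
  exact Real.smoothTransition.monotone (by linarith)

theorem IV_cW_nonneg (b : ℕ) (hb : 1 ≤ b) {t : ℝ} (ht : 0 ≤ t) : 0 ≤ cW b t := by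
  unfold cW
  have h1 : (2 : ℝ) ^ (1 - (b : ℤ)) ≤ 2 := by
    calc (2 : ℝ) ^ (1 - (b : ℤ)) ≤ (2 : ℝ) ^ (1 : ℤ) :=
          zpow_le_zpow_right₀ (by norm_num) (by omega)
      _ = 2 := by norm_num
  have h2 : (2 : ℝ) ^ (1 - (b : ℤ)) * t ≤ 2 * t := mul_le_mul_of_nonneg_right h1 ht
  linarith [IV_psi_anti h2]

theorem IV_etaw_neg (n : ℕ) (w : ℂ) : etaw n (-w) = -etaw n w := by
  unfold etaw
  rw [map_neg, div_neg]

theorem IV_etaw_etaw (n : ℕ) (hn : 1 ≤ n) (w : ℂ) : etaw n (etaw n w) = -w := by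
  unfold etaw
  have hc : ((n / Real.pi : ℝ) : ℂ) ≠ 0 := by
    have : (0 : ℝ) < n / Real.pi := by
      have : (0 : ℝ) < n := by exact_mod_cast hn
      positivity
    exact_mod_cast this.ne'
  by_cases hw : w = 0
  · subst hw
    simp
  · rw [map_div₀, map_mul, Complex.conj_ofReal, Complex.conj_I, Complex.conj_conj]
    field_simp

theorem IV_norm_etaw (n : ℕ) (w : ℂ) : ‖etaw n w‖ = n / (Real.pi * ‖w‖) := by
  unfold etaw
  rw [norm_div, norm_mul, Complex.norm_I, RCLike.norm_conj, mul_one, Complex.norm_real,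
    Real.norm_of_nonneg (by positivity), div_div]

/-- the derivative of the change of variables -/
def IV_D (n : ℕ) (η : ℂ) : ℂ →L[ℝ] ℂ :=
  ((-((n / Real.pi : ℝ) * I)) • (ContinuousLinearMap.smulRight (1 : ℂ →L[ℂ] ℂ)
    (-(conj η ^ 2)⁻¹)).restrictScalars ℝ).comp (conjCLE : ℂ →L[ℝ] ℂ)

theorem IV_hasFDerivAt (n : ℕ) {η : ℂ} (hη : η ≠ 0) :
    HasFDerivAt (fun η : ℂ => -etaw n η) (IV_D n η) η := by
  have h1 : HasFDerivAt (fun u : ℂ => u⁻¹)
      ((ContinuousLinearMap.smulRight (1 : ℂ →L[ℂ] ℂ) (-(conj η ^ 2)⁻¹)).restrictScalars ℝ)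
      (conj η) := by
    have hc : conj η ≠ 0 := by simpa using hη
    exact (hasDerivAt_inv hc).hasFDerivAt.restrictScalars ℝ
  have h2 : HasFDerivAt (fun u : ℂ => (-((n / Real.pi : ℝ) * I)) * u⁻¹)
      ((-((n / Real.pi : ℝ) * I)) • (ContinuousLinearMap.smulRight (1 : ℂ →L[ℂ] ℂ)
        (-(conj η ^ 2)⁻¹)).restrictScalars ℝ) (conj η) := h1.const_mul _
  have h3 := h2.comp η (conjCLE : ℂ →L[ℝ] ℂ).hasFDerivAt
  have e : (fun η : ℂ => -etaw n η) = (fun u : ℂ => (-((n / Real.pi : ℝ) * I)) * u⁻¹) ∘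
      (conjCLE : ℂ →L[ℝ] ℂ) := by
    funext u
    simp only [etaw, Function.comp_apply, ContinuousLinearEquiv.coe_coe, conjCLE_apply]
    rw [div_eq_mul_inv]
    ring
  rw [e]
  exact h3

theorem IV_det (n : ℕ) (η : ℂ) :
    |(IV_D n η).det| = (n / Real.pi) ^ 2 / ‖η‖ ^ 4 := by
  have h1 : (IV_D n η).det = LinearMap.det
      ((LinearMap.restrictScalars ℝ (LinearMap.mulLeft ℂ ((-((n / Real.pi : ℝ) * I)) *
        (-(conj η ^ 2)⁻¹)))) ∘ₗ (conjAe.toLinearMap)) := by
    unfold ContinuousLinearMap.det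
    congr 1
    ext u
    simp [IV_D]
    ring
  rw [h1, LinearMap.det_comp, LinearMap.det_restrictScalars, LinearMap.det_ring,
    Algebra.norm_complex_eq, Complex.det_conjAe]
  simp only [LinearMap.mulLeft_apply, mul_one, abs_mul, abs_neg, abs_one, mul_one]
  have h2 : ∀ z : ℂ, |normSq z| = ‖z‖ ^ 2 := fun z => by
    rw [Complex.normSq_eq_norm_sq, abs_of_nonneg (by positivity)]
  erw [h2]
  simp only [norm_mul, norm_neg, norm_inv, norm_pow, Complex.norm_I, mul_one, Complex.norm_real,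
    RCLike.norm_conj]
  rw [Real.norm_of_nonneg (by positivity)]
  rw [mul_pow, inv_pow, ← pow_mul, div_eq_mul_inv, div_eq_mul_inv]

theorem IV_cov (n : ℕ) (hn : 1 ≤ n) (G : ℂ → ℂ) :
    ∫ w, G w = ∫ η : ℂ, (((n / Real.pi) ^ 2 / ‖η‖ ^ 4 : ℝ) : ℂ) * G (-etaw n η) := by
  have hinv : ∀ w : ℂ, -etaw n (-etaw n w) = -w := by
    intro w
    rw [IV_etaw_neg, neg_neg, IV_etaw_etaw n hn]
  have hinj : Set.InjOn (fun η : ℂ => -etaw n η) ({0}ᶜ : Set ℂ) := by
    intro u _ v _ h
    have h' : -etaw n u = -etaw n v := h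
    have h2 := hinv u
    rw [h', hinv v] at h2
    exact (neg_injective h2).symm
  have hne : ∀ w : ℂ, w ≠ 0 → -etaw n w ≠ 0 := by
    intro w hw h
    have h2 := hinv w
    rw [h, etaw, map_zero, div_zero, neg_zero] at h2
    exact hw (by rw [← neg_neg w, ← h2, neg_zero])
  have himg : (fun η : ℂ => -etaw n η) '' ({0}ᶜ : Set ℂ) = ({0}ᶜ : Set ℂ) := by
    ext w
    constructor
    · rintro ⟨u, hu, rfl⟩
      exact hne u hu
    · intro hw
      refine ⟨-etaw n (-w), ?_, ?_⟩
      · exact hne _ (by simpa using hw)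
      · show -etaw n (-etaw n (-w)) = w
        rw [hinv, neg_neg]
  have hms : MeasurableSet ({0}ᶜ : Set ℂ) := (measurableSet_singleton 0).compl
  have hfull : ∀ H : ℂ → ℂ, ∫ w in ({0}ᶜ : Set ℂ), H w = ∫ w, H w := by
    intro H
    apply setIntegral_eq_integral_of_ae_compl_eq_zero
    have : ∀ᵐ w : ℂ, w ≠ 0 := by
      rw [ae_iff]
      simp
    filter_upwards [this] with w hw hw'
    exact absurd hw hw'
  have h := integral_image_eq_integral_abs_det_fderiv_smul (volume : Measure ℂ) hms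
    (fun η hη => (IV_hasFDerivAt n (η := η) hη).hasFDerivWithinAt) hinj G
  rw [himg, hfull] at h
  rw [h, hfull]
  refine integral_congr_ae (Eventually.of_forall fun η => ?_)
  simp only [IV_det, Complex.real_smul]

theorem inversion_cov (n b : ℕ) (hn : 1 ≤ n) (hb : 1 ≤ b) (f : ℂ → ℂ) (hf : Measurable f)
    (hf1 : ∀ z, ‖f z‖ ≤ 1) : ∃ F : ℂ → ℂ, Measurable F ∧
    (∀ η, ‖F η‖ ≤ cW b ‖η‖ / (Real.pi * ‖η‖ ^ 2)) ∧
    ∀ z : ℂ, ∫ w, Kt n b (-w) * ch z (etaw n w) * f w = n * ∫ η, F η * ch z η := by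
  have hn0 : (0 : ℝ) < n := by exact_mod_cast hn
  have hmeta : Measurable (etaw n) := by
    unfold etaw
    exact measurable_const.div (Complex.continuous_conj.measurable)
  have hmc : Measurable (cW b) := by
    unfold cW psi
    refine Measurable.sub ?_ ?_
    · exact (Real.smoothTransition.contDiff (n := 0)).continuous.measurable.comp
        (measurable_const.sub (measurable_const.mul measurable_id))
    · exact (Real.smoothTransition.contDiff (n := 0)).continuous.measurable.comp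
        (measurable_const.sub (measurable_const.mul measurable_id))
  have hmK : Measurable (Kt n b) := by
    unfold Kt Kn
    refine Measurable.mul ?_ ?_
    · exact Complex.measurable_ofReal.comp (hmc.comp (measurable_const.div
        (measurable_const.mul measurable_norm)))
    · refine Measurable.div ?_ (Complex.measurable_ofReal.comp (measurable_norm.pow_const 2))
      refine measurable_const.mul ((Measurable.div ?_ measurable_id).pow_const n)
      exact Complex.continuous_conj.measurable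
  refine ⟨fun η => (n : ℂ)⁻¹ * ((((n / Real.pi) ^ 2 / ‖η‖ ^ 4 : ℝ) : ℂ) *
    (Kt n b (etaw n η) * f (-etaw n η))), ?_, ?_, ?_⟩
  · refine measurable_const.mul (Measurable.mul ?_ ?_)
    · exact Complex.measurable_ofReal.comp (measurable_const.div (measurable_norm.pow_const 4))
    · exact (hmK.comp hmeta).mul (hf.comp hmeta.neg)
  · intro η
    by_cases hη : η = 0
    · subst hη
      simp
    · have hη' : 0 < ‖η‖ := norm_pos_iff.2 hη
      have hpi := Real.pi_pos
      have hK : ‖Kt n b (etaw n η)‖ = cW b ‖η‖ * (‖η‖ ^ 2 * Real.pi / n) := by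
        unfold Kt Kn
        have h1 : (n : ℝ) / (Real.pi * ‖etaw n η‖) = ‖η‖ := by
          rw [IV_norm_etaw]
          field_simp
        have hne : etaw n η ≠ 0 := by
          rw [← norm_pos_iff, IV_norm_etaw]
          positivity
        have h2 : ‖conj (etaw n η) / etaw n η‖ = 1 := by
          rw [norm_div, RCLike.norm_conj, div_self (norm_pos_iff.2 hne).ne']
        rw [h1, norm_mul, norm_div, norm_mul, norm_mul, norm_pow, norm_pow, h2, norm_neg, norm_one,
          one_pow, one_mul, mul_one, Complex.norm_real, Complex.norm_real,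
          Complex.norm_real, Real.norm_of_nonneg (IV_cW_nonneg b hb hη'.le),
          Real.norm_of_nonneg (by positivity), Real.norm_of_nonneg (by positivity), IV_norm_etaw]
        field_simp
      rw [norm_mul, norm_mul, norm_mul, norm_inv, Complex.norm_natCast, hK, Complex.norm_real,
        Real.norm_of_nonneg (by positivity)]
      have hc0 := IV_cW_nonneg b hb hη'.le
      have h3 : (n : ℝ)⁻¹ * ((n / Real.pi) ^ 2 / ‖η‖ ^ 4 *
          (cW b ‖η‖ * (‖η‖ ^ 2 * Real.pi / n) * ‖f (-etaw n η)‖)) =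
          cW b ‖η‖ / (Real.pi * ‖η‖ ^ 2) * ‖f (-etaw n η)‖ := by
        field_simp
      rw [h3]
      have h4 : 0 ≤ cW b ‖η‖ / (Real.pi * ‖η‖ ^ 2) := by positivity
      exact mul_le_of_le_one_right h4 (hf1 _)
  · intro z
    rw [IV_cov n hn, ← integral_const_mul]
    refine integral_congr_ae (Eventually.of_forall fun η => ?_)
    have hnc : (n : ℂ) ≠ 0 := by exact_mod_cast hn0.ne'
    simp only [neg_neg, IV_etaw_neg, IV_etaw_etaw n hn]
    field_simp

end Helper72.BA.P
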