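import Pool.Agent.Helper31.BA_FB1
import Pool.Agent.Helper84.BA_FB2

/-!
# MP_3dd6d4_an, module LI: the main sup estimate
-/

set_option autoImplicit false

open MeasureTheory Complex FourierTransform Filter Topology
open scoped ENNReal NNReal ComplexConjugate

noncomputable section

namespace Helper72.BA.P

open Helper72.BA

/-- the dilated kernel -/
def LI_K (φ : SchwartzMap ℂ ℂ) (r : ℝ) (u : ℂ) : ℂ := (r : ℂ) ^ 2 * 𝓕 (φ : ℂ → ℂ) (r * u)

theorem LI_ker (φ : SchwartzMap ℂ ℂ) {r : ℝ} (hr : 0 < r) : Ker (LI_K φ r) := by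
  set e : ℂ ≃L[ℝ] ℂ := ContinuousLinearEquiv.smulLeft (Units.mk0 r hr.ne') with he
  refine ⟨((r : ℂ) ^ 2) • SchwartzMap.compCLMOfContinuousLinearEquiv ℂ e (𝓕 φ), ?_⟩
  funext u
  simp only [LI_K, smul_apply, SchwartzMap.compCLMOfContinuousLinearEquiv_apply,
    Function.comp_apply, smul_eq_mul]
  rw [SchwartzMap.fourier_coe]
  congr 2

theorem LI_fourier_twice (φ : SchwartzMap ℂ ℂ) (x : ℂ) : 𝓕 (𝓕 (φ : ℂ → ℂ)) x = φ (-x) := by
  have h1 : 𝓕⁻ (𝓕 φ) = φ := FourierTransform.fourierInv_fourier_eq φ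
  have h2 : 𝓕⁻ (𝓕 (φ : ℂ → ℂ)) (-x) = φ (-x) := by
    rw [← SchwartzMap.fourier_coe, ← SchwartzMap.fourierInv_coe, h1]
  rw [← h2, Real.fourierInv_eq_fourier_neg, neg_neg]

theorem LI_fourier_K (φ : SchwartzMap ℂ ℂ) {r : ℝ} (hr : 0 < r) (ξ : ℂ) :
    𝓕 (LI_K φ r) ξ = φ (-(ξ / r)) := by
  rw [← LI_fourier_twice, Real.fourier_eq, Real.fourier_eq]
  have h := Measure.integral_comp_smul (volume : Measure ℂ)
    (fun v : ℂ => Real.fourierChar (-(inner ℝ v (ξ / r))) • 𝓕 (φ : ℂ → ℂ) v) r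
  rw [Complex.finrank_real_complex] at h
  have h2 : ∫ v : ℂ, Real.fourierChar (-(inner ℝ v (ξ / r))) • 𝓕 (φ : ℂ → ℂ) v =
      (r : ℂ) ^ 2 * ∫ x : ℂ, Real.fourierChar (-(inner ℝ (r • x) (ξ / r))) •
        𝓕 (φ : ℂ → ℂ) (r • x) := by
    rw [h, abs_of_pos (by positivity), Complex.real_smul]
    push_cast
    rw [← mul_assoc, mul_inv_cancel₀ (by exact_mod_cast (pow_pos hr 2).ne'), one_mul]
  rw [h2, ← integral_const_mul]
  refine integral_congr_ae (Eventually.of_forall fun x => ?_)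
  have e1 : inner ℝ (r • x) (ξ / r) = inner ℝ x ξ := by
    have e2 : (ξ / r : ℂ) = (r⁻¹ : ℝ) • ξ := by
      rw [Complex.real_smul]
      push_cast
      ring
    rw [e2, real_inner_smul_left, real_inner_smul_right, ← mul_assoc, mul_inv_cancel₀ hr.ne',
      one_mul]
  beta_reduce
  rw [e1, LI_K, Complex.real_smul]
  rw [Circle.smul_def, Circle.smul_def, smul_eq_mul, smul_eq_mul]
  ring

/-- convolution with the kernel is a contraction in L² -/
theorem LI_conv (φ : SchwartzMap ℂ ℂ) (hφ : ∀ z, ‖φ z‖ ≤ 1) {r : ℝ} (hr : 0 < r) {h : ℂ → ℂ}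
    (hh : Nice h) : ∫⁻ η, ‖cv (LI_K φ r) h η‖ₑ ^ 2 ≤ ∫⁻ η, ‖h η‖ₑ ^ 2 := by
  rw [← plancherel (nice_cv (LI_ker φ hr) hh), ← plancherel hh]
  refine lintegral_mono fun ξ => ?_
  rw [fourier_cv (LI_ker φ hr) hh, LI_fourier_K φ hr, enorm_mul]
  have h1 : ‖φ (-(ξ / r))‖ₑ ≤ 1 := by
    rw [← ofReal_norm]
    exact ENNReal.ofReal_le_one.2 (hφ _)
  calc (‖φ (-(ξ / r))‖ₑ * ‖𝓕 h ξ‖ₑ) ^ 2 ≤ (1 * ‖𝓕 h ξ‖ₑ) ^ 2 := by gcongr
    _ = ‖𝓕 h ξ‖ₑ ^ 2 := by rw [one_mul]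

/-- first moment of the kernel -/
theorem LI_moment (φ : SchwartzMap ℂ ℂ) : ∃ J : ℝ, 0 ≤ J ∧ ∀ r : ℝ, 0 < r →
    Integrable (fun u => ‖LI_K φ r u‖ * ‖u‖) ∧ ∫ u, ‖LI_K φ r u‖ * ‖u‖ = J / r := by
  refine ⟨∫ u : ℂ, ‖𝓕 (φ : ℂ → ℂ) u‖ * ‖u‖, integral_nonneg fun u => by positivity, ?_⟩
  intro r hr
  have hint : Integrable (fun u : ℂ => ‖𝓕 (φ : ℂ → ℂ) u‖ * ‖u‖) := by
    have := (𝓕 φ : SchwartzMap ℂ ℂ).integrable_pow_mul (volume : Measure ℂ) 1
    rw [← SchwartzMap.fourier_coe]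
    simpa [mul_comm] using this
  have e : ∀ u : ℂ, ‖LI_K φ r u‖ * ‖u‖ = r * (‖𝓕 (φ : ℂ → ℂ) (r • u)‖ * ‖r • u‖) := by
    intro u
    rw [LI_K, norm_mul, norm_pow, Complex.norm_real, Real.norm_of_nonneg hr.le, norm_smul,
      Real.norm_of_nonneg hr.le, Complex.real_smul]
    ring
  constructor
  · have h1 := (integrable_comp_smul_iff (volume : Measure ℂ)
      (fun u : ℂ => ‖𝓕 (φ : ℂ → ℂ) u‖ * ‖u‖) hr.ne').2 hint
    simp only [e]
    exact h1.const_mul r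
  · simp only [e]
    rw [integral_const_mul, Measure.integral_comp_smul (volume : Measure ℂ)
      (fun u : ℂ => ‖𝓕 (φ : ℂ → ℂ) u‖ * ‖u‖) r, Complex.finrank_real_complex,
      abs_of_pos (by positivity), smul_eq_mul]
    field_simp

theorem LI_lip (θ : SchwartzMap ℂ ℂ) : ∃ L : ℝ, 0 ≤ L ∧ ∀ x y, ‖θ x - θ y‖ ≤ L * ‖x - y‖ := by
  obtain ⟨C, hC⟩ := θ.decay 0 1
  have hC0 : 0 ≤ C := by
    have := hC.1
    exact this.le
  refine ⟨C, hC0, fun x y => ?_⟩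
  refine Convex.norm_image_sub_le_of_norm_fderiv_le (𝕜 := ℝ) (f := θ) (s := Set.univ)
    (fun x _ => θ.differentiableAt) (fun x _ => ?_) convex_univ (Set.mem_univ y) (Set.mem_univ x)
  have := hC.2 x
  rw [pow_zero, one_mul, norm_iteratedFDeriv_one] at this
  exact this

theorem LI_psi_le_one (t : ℝ) : psi t ≤ 1 := Real.smoothTransition.le_one _
theorem LI_psi_nonneg (t : ℝ) : 0 ≤ psi t := Real.smoothTransition.nonneg _
theorem LI_psi_one {t : ℝ} (h : t ≤ 1) : psi t = 1 :=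
  Real.smoothTransition.one_of_one_le (by linarith)
theorem LI_psi_zero {t : ℝ} (h : 2 ≤ t) : psi t = 0 :=
  Real.smoothTransition.zero_of_nonpos (by linarith)

theorem LI_cW_le (b : ℕ) (t : ℝ) : cW b t ≤ 1 := by
  unfold cW
  linarith [LI_psi_le_one ((2:ℝ) ^ (1 - (b : ℤ)) * t), LI_psi_nonneg (2 * t)]

theorem LI_cW_small {b : ℕ} (hb : 1 ≤ b) {t : ℝ} (ht : 0 ≤ t) (h : t ≤ 1 / 2) : cW b t = 0 := by
  unfold cW
  have h1 : (2 : ℝ) ^ (1 - (b : ℤ)) ≤ 1 := zpow_le_one_of_nonpos₀ (by norm_num) (by omega)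
  have h2 : (2 : ℝ) ^ (1 - (b : ℤ)) * t ≤ 1 := by nlinarith
  rw [LI_psi_one h2, LI_psi_one (by linarith), sub_self]

theorem LI_cW_large {b : ℕ} {t : ℝ} (h : (2 : ℝ) ^ b ≤ t) : cW b t = 0 := by
  unfold cW
  have h0 : (1 : ℝ) ≤ 2 ^ b := one_le_pow₀ (by norm_num)
  have h1 : (2 : ℝ) ≤ (2 : ℝ) ^ (1 - (b : ℤ)) * t := by
    calc (2 : ℝ) = (2 : ℝ) ^ (1 - (b : ℤ)) * 2 ^ b := by
          rw [zpow_sub₀ (by norm_num), zpow_one, zpow_natCast]
          field_simp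
      _ ≤ _ := by gcongr
  rw [LI_psi_zero h1, LI_psi_zero (by linarith), sub_self]

/-- facts about the frequency function -/
theorem LI_F_facts {b : ℕ} (hb : 1 ≤ b) {F : ℂ → ℂ}
    (hF : ∀ η, ‖F η‖ ≤ cW b ‖η‖ / (Real.pi * ‖η‖ ^ 2)) :
    (∀ η, ‖η‖ ≤ 1 / 2 → F η = 0) ∧ (∀ η, (2 : ℝ) ^ b ≤ ‖η‖ → F η = 0) ∧
    (∀ η, ‖F η‖ ≤ 1 / (Real.pi * ‖η‖ ^ 2)) ∧ (∀ η, ‖F η‖ ≤ 4 / Real.pi) := by
  have h1 : ∀ η, ‖η‖ ≤ 1 / 2 → F η = 0 := by
    intro η h
    have := hF η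
    rw [LI_cW_small hb (norm_nonneg _) h, zero_div] at this
    exact norm_le_zero_iff.1 this
  have h2 : ∀ η, (2 : ℝ) ^ b ≤ ‖η‖ → F η = 0 := by
    intro η h
    have := hF η
    rw [LI_cW_large h, zero_div] at this
    exact norm_le_zero_iff.1 this
  have h3 : ∀ η, ‖F η‖ ≤ 1 / (Real.pi * ‖η‖ ^ 2) := by
    intro η
    refine (hF η).trans ?_
    have := Real.pi_pos
    have h4 := LI_cW_le b ‖η‖
    gcongr
  refine ⟨h1, h2, h3, fun η => ?_⟩
  have hpi := Real.pi_pos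
  rcases le_total ‖η‖ (1 / 2) with h | h
  · rw [h1 η h, norm_zero]
    positivity
  · refine (h3 η).trans ?_
    rw [div_le_div_iff₀ (by positivity) hpi]
    have h5 : (1 / 2) ^ 2 ≤ ‖η‖ ^ 2 := by gcongr
    nlinarith

/-- the square root of an integral of squares -/
theorem LI_sq (u : ℂ → ℂ) : ∫⁻ η, ‖u η‖ₑ ^ 2 = eLpNorm u 2 volume ^ 2 := by
  rw [eLpNorm_eq_lintegral_rpow_enorm_toReal (by norm_num) (by norm_num)]
  simp only [ENNReal.toReal_ofNat, ENNReal.rpow_ofNat]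
  rw [← ENNReal.rpow_natCast, ← ENNReal.rpow_mul]
  norm_num

theorem main_Linf (b : ℕ) (hb : 1 ≤ b) (φ : SchwartzMap ℂ ℂ) (hφ : ∀ z, ‖φ z‖ ≤ 1) (ρ₀ : ℝ)
    (hφs : ∀ ξ, ρ₀ < ‖ξ‖ → 𝓕 (φ : ℂ → ℂ) ξ = 0) (θ : SchwartzMap ℂ ℂ)
    (hθs : ∀ ξ, 1 ≤ ‖ξ‖ → θ ξ = 0) (hθ1 : nrm 2 θ = 1) (ε : ℝ) (hε : 0 < ε) :
    ∃ κ r : ℝ, 0 < κ ∧ κ ≤ 1 / 8 ∧ 1 ≤ r ∧ ρ₀ / r ≤ 1 / 8 ∧ ∀ F : ℂ → ℂ, Measurable F →
      (∀ η, ‖F η‖ ≤ cW b ‖η‖ / (Real.pi * ‖η‖ ^ 2)) → ∀ ξ : ℂ,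
      ENNReal.ofReal (‖ξ‖ ^ 4) * ∫⁻ η, ‖(κ : ℂ)⁻¹ * θ ((ξ - η) / κ) *
          ∫ ζ, (r : ℂ) ^ 2 * 𝓕 (φ : ℂ → ℂ) (r * (η - ζ)) * F ζ‖ₑ ^ 2
        ≤ ENNReal.ofReal (((1 + ε) / Real.pi) ^ 2) := by
  obtain ⟨J, hJ0, hJ⟩ := LI_moment φ
  obtain ⟨L, hL0, hL⟩ := LI_lip θ
  have hpi := Real.pi_pos
  -- choice of κ
  have hev : ∀ᶠ κ in nhdsWithin (0 : ℝ) (Set.Ioi 0),
      ((1 - 8 * κ / 3) ^ 2)⁻¹ < 1 + ε / 2 := by
    have hc : Filter.Tendsto (fun κ : ℝ => ((1 - 8 * κ / 3) ^ 2)⁻¹) (nhds 0)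
        (nhds ((1 - 8 * 0 / 3) ^ 2)⁻¹) := by
      refine Filter.Tendsto.inv₀ ?_ (by norm_num)
      refine Continuous.tendsto ?_ 0
      fun_prop
    have h1 : ((1 - 8 * 0 / 3 : ℝ) ^ 2)⁻¹ < 1 + ε / 2 := by
      norm_num
      linarith
    exact (hc.eventually_lt_const h1).filter_mono nhdsWithin_le_nhds
  obtain ⟨κ, hκ1, hκ0, hκ8⟩ := (hev.and (Ioc_mem_nhdsGT (show (0 : ℝ) < 1 / 8 by norm_num))).exists
  -- choice of r
  set M : ℝ := (2 ^ b + 1) ^ 2 * (4 / Real.pi * (L * κ⁻¹ * κ⁻¹) * J) with hM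
  have hM0 : 0 ≤ M := by positivity
  obtain ⟨r, hr1, hr2, hr3⟩ : ∃ r : ℝ, 1 ≤ r ∧ ρ₀ / r ≤ 1 / 8 ∧ M / r ≤ ε / (2 * Real.pi) := by
    refine ⟨max 1 (max (8 * ρ₀) (M * (2 * Real.pi) / ε)), le_max_left _ _, ?_, ?_⟩
    · have h1 : 0 < max 1 (max (8 * ρ₀) (M * (2 * Real.pi) / ε)) :=
        lt_of_lt_of_le one_pos (le_max_left _ _)
      have h2 : 8 * ρ₀ ≤ max 1 (max (8 * ρ₀) (M * (2 * Real.pi) / ε)) :=
        (le_max_left _ _).trans (le_max_right _ _)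
      rw [div_le_iff₀ h1]
      linarith
    · have h1 : 0 < max 1 (max (8 * ρ₀) (M * (2 * Real.pi) / ε)) :=
        lt_of_lt_of_le one_pos (le_max_left _ _)
      have h2 : M * (2 * Real.pi) / ε ≤ max 1 (max (8 * ρ₀) (M * (2 * Real.pi) / ε)) :=
        (le_max_right _ _).trans (le_max_right _ _)
      rw [div_le_div_iff₀ h1 (by positivity)]
      rw [div_le_iff₀ hε] at h2
      linarith
  have hr0 : 0 < r := by linarith
  refine ⟨κ, r, hκ0, hκ8, hr1, hr2, ?_⟩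
  intro F hFm hF ξ
  obtain ⟨f1, f2, f3, f4⟩ := LI_F_facts hb hF
  -- notation
  set s : ℂ → ℂ := fun η => (κ : ℂ)⁻¹ * θ ((ξ - η) / κ) with hs
  set K : ℂ → ℂ := LI_K φ r with hK
  have hKker : Ker K := LI_ker φ hr0
  have hκc : (κ : ℂ) ≠ 0 := by exact_mod_cast hκ0.ne'
  have hnκ : ‖(κ : ℂ)‖ = κ := by rw [Complex.norm_real, Real.norm_of_nonneg hκ0.le]
  have hK0 : ∀ u, 1 / 8 < ‖u‖ → K u = 0 := by
    intro u hu
    have h1 : ρ₀ < ‖(r : ℂ) * u‖ := by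
      rw [norm_mul, Complex.norm_real, Real.norm_of_nonneg hr0.le]
      rw [div_le_iff₀ hr0] at hr2
      nlinarith
    rw [hK, LI_K, hφs _ h1, mul_zero]
  have hs0 : ∀ η, κ ≤ ‖ξ - η‖ → s η = 0 := by
    intro η h
    have h1 : 1 ≤ ‖(ξ - η) / κ‖ := by
      rw [norm_div, hnκ, le_div_iff₀ hκ0, one_mul]
      exact h
    rw [hs]
    simp only [hθs _ h1, mul_zero]
  have hsm : Measurable s := by
    rw [hs]
    exact measurable_const.mul (θ.continuous.measurable.comp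
      ((measurable_const.sub measurable_id).div_const _))
  obtain ⟨Cθ, hCθ⟩ : ∃ C : ℝ, ∀ x, ‖θ x‖ ≤ C := ⟨_, θ.norm_le_seminorm ℝ⟩
  have hsb : ∀ η, ‖s η‖ ≤ κ⁻¹ * Cθ := by
    intro η
    rw [hs]
    simp only [norm_mul, norm_inv, hnκ]
    have := hCθ ((ξ - η) / κ)
    gcongr
  have hslip : ∀ η ζ, ‖s η - s ζ‖ ≤ L * κ⁻¹ * κ⁻¹ * ‖η - ζ‖ := by
    intro η ζ
    rw [hs]
    simp only
    rw [← mul_sub, norm_mul, norm_inv, hnκ]
    have h1 := hL ((ξ - η) / κ) ((ξ - ζ) / κ)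
    have h2 : (ξ - η) / (κ : ℂ) - (ξ - ζ) / κ = -((η - ζ) / κ) := by ring
    rw [h2, norm_neg, norm_div, hnκ] at h1
    calc κ⁻¹ * ‖θ ((ξ - η) / κ) - θ ((ξ - ζ) / κ)‖ ≤ κ⁻¹ * (L * (‖η - ζ‖ / κ)) := by gcongr
      _ = _ := by rw [div_eq_mul_inv]; ring
  -- `s F` is nice
  have hnice : Nice (fun η => s η * F η) := by
    have hb1 : ∀ η, ‖s η * F η‖ ≤ κ⁻¹ * Cθ * (4 / Real.pi) := by
      intro η
      rw [norm_mul]
      have h1 := hsb η
      have h2 := f4 η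
      have h3 : 0 ≤ κ⁻¹ * Cθ := (norm_nonneg _).trans h1
      gcongr
    refine ⟨hsm.mul hFm, ?_, ⟨_, hb1⟩⟩
    have hcs : ∀ η, η ∉ Metric.closedBall ξ κ → s η * F η = 0 := by
      intro η hη
      rw [Metric.mem_closedBall, dist_comm, dist_eq_norm, not_le] at hη
      rw [hs0 η hη.le, zero_mul]
    rw [← integrableOn_iff_integrable_of_support_subset (s := Metric.closedBall ξ κ)
      (fun η hη => by
        by_contra h
        exact hη (hcs η h))]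
    exact Measure.integrableOn_of_bounded (measure_closedBall_lt_top).ne
      (hsm.mul hFm).aestronglyMeasurable (Eventually.of_forall hb1)
  -- the main function
  set u : ℂ → ℂ := fun η => s η * ∫ ζ, K (η - ζ) * F ζ with hu
  have hgoal : (∫⁻ η, ‖(κ : ℂ)⁻¹ * θ ((ξ - η) / κ) *
      ∫ ζ, (r : ℂ) ^ 2 * 𝓕 (φ : ℂ → ℂ) (r * (η - ζ)) * F ζ‖ₑ ^ 2) = eLpNorm u 2 volume ^ 2 := by
    rw [← LI_sq]
    rfl
  rw [hgoal]
  -- integrability of `K(η - ζ) F ζ`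
  have hFi : Integrable F := by
    have hcs : ∀ η, η ∉ Metric.closedBall (0 : ℂ) (2 ^ b) → F η = 0 := by
      intro η hη
      rw [Metric.mem_closedBall, dist_zero_right, not_le] at hη
      exact f2 η hη.le
    rw [← integrableOn_iff_integrable_of_support_subset (s := Metric.closedBall (0 : ℂ) (2 ^ b))
      (fun η hη => by
        by_contra h
        exact hη (hcs η h))]
    exact Measure.integrableOn_of_bounded (measure_closedBall_lt_top).ne
      hFm.aestronglyMeasurable (Eventually.of_forall f4)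
  obtain ⟨KS, hKS⟩ := id hKker
  have hKc : Continuous K := by rw [hKS]; exact KS.continuous
  obtain ⟨CK, hCK⟩ : ∃ C : ℝ, ∀ x, ‖K x‖ ≤ C := ⟨_, fun x => by
    rw [hKS]; exact KS.norm_le_seminorm ℝ x⟩
  have hKF : ∀ η, Integrable (fun ζ => K (η - ζ) * F ζ) := by
    intro η
    exact hFi.bdd_mul (c := CK) (hKc.comp (continuous_const.sub continuous_id)).aestronglyMeasurable
      (Eventually.of_forall fun ζ => hCK _)
  have hKsF : ∀ η, Integrable (fun ζ => K (η - ζ) * (s ζ * F ζ)) := by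
    intro η
    exact hnice.int.bdd_mul (c := CK)
      (hKc.comp (continuous_const.sub continuous_id)).aestronglyMeasurable
      (Eventually.of_forall fun ζ => hCK _)
  set A : ℂ → ℂ := cv K (fun η => s η * F η) with hA
  set β : ℝ := 4 / Real.pi * (L * κ⁻¹ * κ⁻¹) * (J / r) with hβ
  have hβ0 : 0 ≤ β := by positivity
  have hdiff : ∀ η, u η - A η = ∫ ζ, K (η - ζ) * ((s η - s ζ) * F ζ) := by
    intro η
    rw [hu, hA]
    simp only [cv]
    rw [← integral_const_mul, ← integral_sub ((hKF η).const_mul _) (hKsF η)]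
    refine integral_congr_ae (Eventually.of_forall fun ζ => ?_)
    ring
  have hB1 : ∀ η, ‖u η - A η‖ ≤ β := by
    intro η
    rw [hdiff]
    have h1 : ∀ ζ, ‖K (η - ζ) * ((s η - s ζ) * F ζ)‖ ≤
        4 / Real.pi * (L * κ⁻¹ * κ⁻¹) * (‖K (η - ζ)‖ * ‖η - ζ‖) := by
      intro ζ
      rw [norm_mul, norm_mul]
      have h2 := hslip η ζ
      have h3 := f4 ζ
      calc ‖K (η - ζ)‖ * (‖s η - s ζ‖ * ‖F ζ‖) ≤
          ‖K (η - ζ)‖ * ((L * κ⁻¹ * κ⁻¹ * ‖η - ζ‖) * (4 / Real.pi)) := by gcongr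
        _ = _ := by ring
    have h4 : Integrable (fun ζ => ‖K (η - ζ)‖ * ‖η - ζ‖) := by
      have := (hJ r hr0).1.comp_sub_left η
      exact this
    have h5 : ∫ ζ, ‖K (η - ζ)‖ * ‖η - ζ‖ = J / r := by
      rw [← (hJ r hr0).2]
      exact integral_sub_left_eq_self (fun u => ‖K u‖ * ‖u‖) volume η
    calc ‖∫ ζ, K (η - ζ) * ((s η - s ζ) * F ζ)‖ ≤
        ∫ ζ, 4 / Real.pi * (L * κ⁻¹ * κ⁻¹) * (‖K (η - ζ)‖ * ‖η - ζ‖) :=
          norm_integral_le_of_norm_le (h4.const_mul _) (Eventually.of_forall h1)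
      _ = β := by rw [integral_const_mul, h5]
  have hB0 : ∀ η, η ∉ Metric.closedBall ξ (1 / 4) → u η - A η = 0 := by
    intro η hη
    rw [Metric.mem_closedBall, dist_comm, dist_eq_norm, not_le] at hη
    rw [hdiff]
    have h1 : ∀ ζ, K (η - ζ) * ((s η - s ζ) * F ζ) = 0 := by
      intro ζ
      rw [hs0 η (by linarith)]
      rcases le_or_gt ‖η - ζ‖ (1 / 8) with h | h
      · have h2 : ‖ξ - η‖ ≤ ‖ξ - ζ‖ + ‖η - ζ‖ := by
          have h3 := norm_sub_le (ξ - ζ) (η - ζ)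
          have h4 : ξ - ζ - (η - ζ) = ξ - η := by ring
          rwa [h4] at h3
        rw [hs0 ζ (by linarith), sub_zero, zero_mul, mul_zero]
      · rw [hK0 _ h, zero_mul]
    simp only [h1, integral_zero]
  have hvol : (volume : Measure ℂ) (Metric.closedBall ξ (1 / 4)) ≤ 1 := by
    rw [Complex.volume_closedBall]
    have h1 : ENNReal.ofReal (1 / 4) ^ 2 * (NNReal.pi : ℝ≥0∞) = ENNReal.ofReal ((1 / 4) ^ 2 * Real.pi) := by
      rw [ENNReal.ofReal_mul (by positivity), ENNReal.ofReal_pow (by norm_num)]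
      congr 1
      rw [← NNReal.coe_real_pi, ENNReal.ofReal_coe_nnreal]
    rw [h1]
    refine ENNReal.ofReal_le_one.2 ?_
    have := Real.pi_lt_four
    nlinarith
  have hBn : eLpNorm (fun η => u η - A η) 2 volume ≤ ENNReal.ofReal β := by
    have h1 : ∫⁻ η, ‖u η - A η‖ₑ ^ 2 ≤ ENNReal.ofReal β ^ 2 := by
      calc ∫⁻ η, ‖u η - A η‖ₑ ^ 2 ≤
          ∫⁻ η, (Metric.closedBall ξ (1 / 4)).indicator (fun _ => ENNReal.ofReal β ^ 2) η := by
            refine lintegral_mono fun η => ?_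
            by_cases h : η ∈ Metric.closedBall ξ (1 / 4)
            · rw [Set.indicator_of_mem h, ← ofReal_norm]
              gcongr
              exact hB1 η
            · rw [hB0 η h]
              simp
        _ = ENNReal.ofReal β ^ 2 * volume (Metric.closedBall ξ (1 / 4)) := by
            rw [lintegral_indicator_const Metric.isClosed_closedBall.measurableSet]
        _ ≤ ENNReal.ofReal β ^ 2 * 1 := by gcongr
        _ = _ := mul_one _
    rw [LI_sq] at h1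
    exact (ENNReal.pow_le_pow_left_iff (by norm_num)).1 h1
  -- far ξ
  rcases le_or_gt (2 ^ b + 1 : ℝ) ‖ξ‖ with hfar | hnear
  · have h0 : ∀ η, u η = 0 := by
      intro η
      rcases le_or_gt κ ‖ξ - η‖ with h | h
      · rw [hu]
        simp only [hs0 η h, zero_mul]
      · have h1 : ∀ ζ, K (η - ζ) * F ζ = 0 := by
          intro ζ
          rcases le_or_gt ‖η - ζ‖ (1 / 8) with h2 | h2
          · have h3 : ‖ξ‖ ≤ ‖ξ - η‖ + ‖η - ζ‖ + ‖ζ‖ := by
              have h4 := norm_add₃_le (a := ξ - η) (b := η - ζ) (c := ζ)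
              have h5 : ξ - η + (η - ζ) + ζ = ξ := by ring
              rwa [h5] at h4
            rw [f2 ζ (by linarith), mul_zero]
          · rw [hK0 _ h2, zero_mul]
        rw [hu]
        simp only [h1, integral_zero, mul_zero]
    have h1 : u = 0 := funext h0
    rw [h1]
    simp
  -- the L² norm of `A`
  have hAn : ‖ξ‖ ^ 2 * (eLpNorm A 2 volume).toReal ≤ (1 + ε / 2) / Real.pi ∧
      eLpNorm A 2 volume ≠ ∞ := by
    have h1 : eLpNorm A 2 volume ≤ eLpNorm (fun η => s η * F η) 2 volume := by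
      have := LI_conv φ hφ hr0 hnice
      rw [LI_sq, LI_sq] at this
      exact (ENNReal.pow_le_pow_left_iff (by norm_num)).1 this
    have hsn : ∫⁻ η, ‖s η‖ₑ ^ 2 = 1 := by
      have e : ∀ η, ‖s η‖ₑ ^ 2 = ENNReal.ofReal ((κ ^ 2)⁻¹) *
          (fun x : ℂ => ‖θ x‖ₑ ^ 2) ((κ⁻¹ : ℝ) • (ξ - η)) := by
        intro η
        have e1 : (ξ - η) / (κ : ℂ) = (κ⁻¹ : ℝ) • (ξ - η) := by
          rw [Complex.real_smul]
          push_cast
          ring
        rw [hs]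
        simp only [e1, enorm_mul, mul_pow]
        congr 1
        rw [enorm_inv hκc, ← ofReal_norm, hnκ, ENNReal.ofReal_inv_of_pos (by positivity),
          ENNReal.ofReal_pow hκ0.le, ENNReal.inv_pow]
      simp only [e]
      rw [lintegral_const_mul' _ _ ENNReal.ofReal_ne_top]
      have h2 := lintegral_sub_left_eq_self (μ := (volume : Measure ℂ))
        (fun x : ℂ => ‖θ ((κ⁻¹ : ℝ) • x)‖ₑ ^ 2) ξ
      rw [h2]
      have h3 : ∫⁻ x : ℂ, ‖θ ((κ⁻¹ : ℝ) • x)‖ₑ ^ 2 =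
          ENNReal.ofReal |(κ⁻¹ ^ Module.finrank ℝ ℂ)⁻¹| * ∫⁻ x : ℂ, ‖θ x‖ₑ ^ 2 := by
        have h5 := Measure.map_addHaar_smul (volume : Measure ℂ) (inv_ne_zero hκ0.ne')
        have h6 : ∫⁻ x : ℂ, ‖θ x‖ₑ ^ 2 ∂(Measure.map (fun x : ℂ => (κ⁻¹ : ℝ) • x) volume) =
            ∫⁻ x : ℂ, ‖θ ((κ⁻¹ : ℝ) • x)‖ₑ ^ 2 := by
          rw [lintegral_map]
          · exact θ.continuous.enorm.measurable.pow_const 2
          · exact (continuous_const_smul _).measurable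
        rw [← h6, h5, lintegral_smul_measure, smul_eq_mul]
      rw [h3, Complex.finrank_real_complex]
      have h4 : ∫⁻ x, ‖θ x‖ₑ ^ 2 = 1 := hθ1
      rw [h4, mul_one, ← ENNReal.ofReal_mul (by positivity), abs_of_pos (by positivity)]
      rw [inv_pow, inv_inv, inv_mul_cancel₀ (by positivity), ENNReal.ofReal_one]
    rcases le_or_gt (3 / 8) ‖ξ‖ with h38 | h38
    · set m : ℝ := 1 / (Real.pi * (‖ξ‖ - κ) ^ 2) with hm
      have hpos : 0 < ‖ξ‖ - κ := by linarith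
      have hm0 : 0 ≤ m := by positivity
      have h2 : eLpNorm (fun η => s η * F η) 2 volume ≤ ENNReal.ofReal m := by
        have h3 : ∫⁻ η, ‖s η * F η‖ₑ ^ 2 ≤ ENNReal.ofReal m ^ 2 := by
          calc ∫⁻ η, ‖s η * F η‖ₑ ^ 2 ≤ ∫⁻ η, ENNReal.ofReal m ^ 2 * ‖s η‖ₑ ^ 2 := by
                refine lintegral_mono fun η => ?_
                rcases le_or_gt κ ‖ξ - η‖ with h | h
                · rw [hs0 η h]
                  simp
                · have h4 : ‖ξ‖ - κ ≤ ‖η‖ := by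
                    have := norm_sub_norm_le ξ η
                    linarith
                  have h5 : ‖F η‖ ≤ m := by
                    refine (f3 η).trans ?_
                    rw [hm]
                    gcongr
                  rw [enorm_mul, mul_pow, mul_comm]
                  gcongr
                  rw [← ofReal_norm]
                  exact ENNReal.ofReal_le_ofReal h5
            _ = ENNReal.ofReal m ^ 2 := by
                rw [lintegral_const_mul' _ _ (by finiteness), hsn, mul_one]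
        rw [LI_sq] at h3
        exact (ENNReal.pow_le_pow_left_iff (by norm_num)).1 h3
      have h3 : eLpNorm A 2 volume ≤ ENNReal.ofReal m := h1.trans h2
      refine ⟨?_, (h3.trans_lt ENNReal.ofReal_lt_top).ne⟩
      have h4 : (eLpNorm A 2 volume).toReal ≤ m := ENNReal.toReal_le_of_le_ofReal hm0 h3
      have h5 : ‖ξ‖ * (1 - 8 * κ / 3) ≤ ‖ξ‖ - κ := by nlinarith
      have h6 : 0 < 1 - 8 * κ / 3 := by linarith
      calc ‖ξ‖ ^ 2 * (eLpNorm A 2 volume).toReal ≤ ‖ξ‖ ^ 2 * m := by gcongr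
        _ ≤ ‖ξ‖ ^ 2 * (1 / (Real.pi * (‖ξ‖ * (1 - 8 * κ / 3)) ^ 2)) := by
            rw [hm]
            gcongr
        _ = ((1 - 8 * κ / 3) ^ 2)⁻¹ / Real.pi := by
            have : ‖ξ‖ ≠ 0 := by linarith [norm_nonneg ξ]
            field_simp
        _ ≤ _ := by gcongr
    · have h2 : ∀ η, s η * F η = 0 := by
        intro η
        rcases le_or_gt κ ‖ξ - η‖ with h | h
        · rw [hs0 η h, zero_mul]
        · have h4 : ‖η‖ ≤ ‖ξ‖ + ‖ξ - η‖ := by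
            have h5 := norm_sub_le ξ (ξ - η)
            rwa [sub_sub_cancel] at h5
          rw [f1 η (by linarith), mul_zero]
      have h3 : (fun η => s η * F η) = 0 := funext h2
      rw [h3] at h1
      have h4 : eLpNorm A 2 volume = 0 := by
        refine le_antisymm (h1.trans ?_) (zero_le)
        simp
      rw [h4]
      refine ⟨?_, ENNReal.zero_ne_top⟩
      simp only [ENNReal.toReal_zero, mul_zero]
      positivity
  -- combine
  have hAmeas : AEStronglyMeasurable A volume :=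
    (continuous_cv hKker hnice).aestronglyMeasurable
  have humeas : AEStronglyMeasurable u volume := by
    have h1 : Nice F := ⟨hFm, hFi, ⟨_, f4⟩⟩
    have h2 : Continuous (cv K F) := continuous_cv hKker h1
    exact hsm.aestronglyMeasurable.mul h2.aestronglyMeasurable
  have hun : eLpNorm u 2 volume ≤ eLpNorm A 2 volume + ENNReal.ofReal β := by
    have h1 : u = A + fun η => u η - A η := by
      funext η
      simp
    calc eLpNorm u 2 volume = eLpNorm (A + fun η => u η - A η) 2 volume := by rw [← h1]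
      _ ≤ eLpNorm A 2 volume + eLpNorm (fun η => u η - A η) 2 volume :=
          eLpNorm_add_le hAmeas (humeas.sub hAmeas) (by norm_num)
      _ ≤ _ := by gcongr
  set a : ℝ := (eLpNorm A 2 volume).toReal with ha
  have ha0 : 0 ≤ a := ENNReal.toReal_nonneg
  have hun2 : eLpNorm u 2 volume ≤ ENNReal.ofReal (a + β) := by
    rw [ENNReal.ofReal_add ha0 hβ0, ha, ENNReal.ofReal_toReal hAn.2]
    exact hun
  calc ENNReal.ofReal (‖ξ‖ ^ 4) * eLpNorm u 2 volume ^ 2 ≤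
      ENNReal.ofReal (‖ξ‖ ^ 4) * ENNReal.ofReal (a + β) ^ 2 := by gcongr
    _ = ENNReal.ofReal ((‖ξ‖ ^ 2 * (a + β)) ^ 2) := by
        rw [← ENNReal.ofReal_pow (by positivity), ← ENNReal.ofReal_mul (by positivity)]
        congr 1
        ring
    _ ≤ _ := by
        apply ENNReal.ofReal_le_ofReal
        have h1 : ‖ξ‖ ^ 2 * β ≤ ε / (2 * Real.pi) := by
          refine le_trans ?_ hr3
          have h2 : ‖ξ‖ ^ 2 ≤ (2 ^ b + 1) ^ 2 := by gcongr
          calc ‖ξ‖ ^ 2 * β ≤ (2 ^ b + 1) ^ 2 * β := by gcongr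
            _ = M / r := by
                rw [hM, hβ]
                ring
        have h2 : ‖ξ‖ ^ 2 * (a + β) ≤ (1 + ε) / Real.pi := by
          calc ‖ξ‖ ^ 2 * (a + β) = ‖ξ‖ ^ 2 * a + ‖ξ‖ ^ 2 * β := by ring
            _ ≤ (1 + ε / 2) / Real.pi + ε / (2 * Real.pi) := add_le_add hAn.1 h1
            _ = _ := by
                field_simp
                ring
        have h3 : 0 ≤ ‖ξ‖ ^ 2 * (a + β) := by positivity
        gcongr

end Helper72.BA.P
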