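import Mathlib

/-!
Gauss sums of quadratic functions on a finite (possibly non commutative) group.
-/

namespace Pool.Agent.Helper98.Inv

open Finset

/-- `y` is zero or plus or minus the inverse square root of a positive integer -/
def TT : Set ℝ := {y | y = 0 ∨ ∃ n : ℕ, 1 ≤ n ∧ (y = 1 / Real.sqrt n ∨ y = -(1 / Real.sqrt n))}

theorem gauss_sq {B : Type*} [Group B] [Fintype B] (F : B → ℂ) (β : B → B → ℂ)
    (hF : ∀ k l, F (k * l) = F k * F l * β k l)
    (h1 : ∀ k k' l, β (k * k') l = β k l * β k' l)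
    (h2 : ∀ k l l', β k (l * l') = β k l * β k l')
    (h3 : ∀ k, β k k = 1)
    (hne : ∀ k l, β k l ≠ 0) :
    ∃ R : Subgroup B, (∑ k, F k) ^ 2 = 0 ∨
      (∑ k, F k) ^ 2 = (Fintype.card B : ℂ) * (Nat.card R : ℂ) := by
  classical
  have hone1 : ∀ l, β 1 l = 1 := by
    intro l
    have := h1 1 1 l
    rw [mul_one] at this
    have h4 := hne 1 l
    field_simp at this
    exact this.symm
  have hone2 : ∀ l, β l 1 = 1 := by
    intro l
    have := h2 l 1 1
    rw [mul_one] at this
    have h4 := hne l 1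
    field_simp at this
    exact this.symm
  have hinv1 : ∀ k l, β k⁻¹ l * β k l = 1 := by
    intro k l
    rw [← h1, inv_mul_cancel, hone1]
  have hinv2 : ∀ k l, β k l⁻¹ * β k l = 1 := by
    intro k l
    rw [← h2, inv_mul_cancel, hone2]
  -- the radical
  let R : Subgroup B :=
    { carrier := {u | ∀ l, β u l = 1}
      one_mem' := hone1
      mul_mem' := by
        intro a b ha hb l
        rw [h1, ha l, hb l, one_mul]
      inv_mem' := by
        intro a ha l
        have := hinv1 a l
        rwa [ha l, mul_one] at this }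
  have hRmem : ∀ u, u ∈ R ↔ ∀ l, β u l = 1 := fun u => Iff.rfl
  refine ⟨R, ?_⟩
  -- the square of the sum
  have hinner : ∀ u, ∑ l, β u l⁻¹ = if u ∈ R then (Fintype.card B : ℂ) else 0 := by
    intro u
    split_ifs with hu
    · rw [hRmem] at hu
      simp [hu]
    · rw [hRmem] at hu
      push Not at hu
      obtain ⟨m, hm⟩ := hu
      have hs : ∑ l, β u l⁻¹ = β u m * ∑ l, β u l⁻¹ := by
        rw [Finset.mul_sum]
        apply Fintype.sum_equiv (Equiv.mulRight m)
        intro l
        simp only [Equiv.coe_mulRight, mul_inv_rev, h2]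
        rw [← mul_assoc]
        have := hinv2 u m
        rw [mul_comm (β u m), this, one_mul]
      have h5 : (1 - β u m) * ∑ l, β u l⁻¹ = 0 := by
        rw [sub_mul, one_mul, ← hs, sub_self]
      rcases mul_eq_zero.mp h5 with h | h
      · exact absurd (sub_eq_zero.mp h).symm hm
      · exact h
  have hsq : (∑ k, F k) ^ 2 = ∑ u, F u * (if u ∈ R then (Fintype.card B : ℂ) else 0) := by
    rw [pow_two, Finset.sum_mul_sum]
    have e1 : ∀ k l, F k * F l = F (k * l) * β k l⁻¹ := by
      intro k l
      rw [hF]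
      have := hinv2 k l
      calc F k * F l = F k * F l * (β k l⁻¹ * β k l) := by rw [this, mul_one]
        _ = _ := by ring
    simp_rw [e1]
    rw [Finset.sum_comm]
    have e2 : ∀ l : B, ∑ k, F (k * l) * β k l⁻¹ = ∑ u, F u * β u l⁻¹ := by
      intro l
      apply Fintype.sum_equiv (Equiv.mulRight l)
      intro k
      simp only [Equiv.coe_mulRight]
      have : β (k * l) l⁻¹ = β k l⁻¹ := by
        rw [h1]
        have h6 := hinv2 l l
        rw [h3, mul_one] at h6
        rw [h6, mul_one]
      rw [this]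
    simp_rw [e2]
    rw [Finset.sum_comm]
    apply Finset.sum_congr rfl
    intro u _
    rw [← Finset.mul_sum, hinner]
  -- sum over the radical
  have hsum : ∑ u, F u * (if u ∈ R then (Fintype.card B : ℂ) else 0) =
      (Fintype.card B : ℂ) * ∑ u : R, F u := by
    rw [Finset.mul_sum]
    have : ∀ u, F u * (if u ∈ R then (Fintype.card B : ℂ) else 0) =
      if u ∈ R then (Fintype.card B : ℂ) * F u else 0 := by
      intro u; split_ifs <;> ring
    simp_rw [this]
    rw [← Finset.sum_filter]
    rw [Finset.sum_subtype (Finset.univ.filter (· ∈ R)) (p := fun u => u ∈ R) (by simp)]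
  rw [hsq, hsum]
  by_cases hall : ∀ u : R, F u = 1
  · right
    simp [hall, Nat.card_eq_fintype_card]
  · left
    push Not at hall
    obtain ⟨v, hv⟩ := hall
    have hs : ∑ u : R, F u = F v * ∑ u : R, F u := by
      rw [Finset.mul_sum]
      symm
      apply Fintype.sum_equiv (Equiv.mulLeft v)
      intro u
      simp only [Equiv.coe_mulLeft, Subgroup.coe_mul, hF]
      rw [v.2, mul_one]
    have h5 : (1 - F v) * ∑ u : R, F u = 0 := by
      rw [sub_mul, one_mul, ← hs, sub_self]
    rcases mul_eq_zero.mp h5 with h | h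
    · exact absurd (sub_eq_zero.mp h).symm hv
    · rw [h, mul_zero]

/-- normalized version -/
theorem gauss_TT {K : Type*} [Group K] [Finite K] (B : Subgroup K) [Fintype B] (F : B → ℂ)
    (β : B → B → ℂ)
    (hF : ∀ k l, F (k * l) = F k * F l * β k l)
    (h1 : ∀ k k' l, β (k * k') l = β k l * β k' l)
    (h2 : ∀ k l l', β k (l * l') = β k l * β k l')
    (h3 : ∀ k, β k k = 1)
    (hne : ∀ k l, β k l ≠ 0) :
    ∃ y ∈ TT, (∑ k, F k) = ((Nat.card K : ℝ) * y : ℝ) := by
  obtain ⟨R, hR⟩ := gauss_sq F β hF h1 h2 h3 hne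
  rcases hR with hR | hR
  · refine ⟨0, Or.inl rfl, ?_⟩
    have : ∑ k, F k = 0 := by simpa using hR
    rw [this]; simp
  · set n : ℕ := B.index * B.index * R.index with hn
    have hn1 : 1 ≤ n := by
      have i1 := Nat.pos_of_ne_zero B.index_ne_zero_of_finite
      have i2 := Nat.pos_of_ne_zero R.index_ne_zero_of_finite
      exact Nat.mul_pos (Nat.mul_pos i1 i1) i2
    have hcard1 := B.card_mul_index
    have hcard2 := R.card_mul_index
    have hKpos : (0 : ℝ) < Nat.card K := by exact_mod_cast Nat.card_pos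
    have key : ((Nat.card K : ℝ) * (1 / Real.sqrt n)) ^ 2 = (Fintype.card B : ℝ) * Nat.card R := by
      rw [mul_pow, div_pow, Real.sq_sqrt (by positivity)]
      rw [← hcard1, ← Nat.card_eq_fintype_card (α := B), ← hcard2]
      have hi1 : (B.index : ℝ) ≠ 0 := by exact_mod_cast B.index_ne_zero_of_finite
      have hi2 : (R.index : ℝ) ≠ 0 := by exact_mod_cast R.index_ne_zero_of_finite
      rw [hn]
      push_cast
      field_simp
    have hfact : (∑ k, F k - (((Nat.card K : ℝ) * (1 / Real.sqrt n) : ℝ) : ℂ)) *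
        (∑ k, F k + (((Nat.card K : ℝ) * (1 / Real.sqrt n) : ℝ) : ℂ)) = 0 := by
      have : (((Nat.card K : ℝ) * (1 / Real.sqrt n) : ℝ) : ℂ) ^ 2 =
        (Fintype.card B : ℂ) * (Nat.card R : ℂ) := by
        rw [← Complex.ofReal_pow, key]; push_cast; rfl
      linear_combination hR - this
    rcases mul_eq_zero.mp hfact with h | h
    · exact ⟨1 / Real.sqrt n, Or.inr ⟨n, hn1, Or.inl rfl⟩, sub_eq_zero.mp h⟩
    · refine ⟨-(1 / Real.sqrt n), Or.inr ⟨n, hn1, Or.inr rfl⟩, ?_⟩
      rw [eq_neg_of_add_eq_zero_left h]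
      push_cast; ring

end Pool.Agent.Helper98.Inv
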