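import Mathlib
import Pool.Agent.Helper98.InvGauss

/-!
The number of elements inverted by an endomorphism of a finite group of class at most two.
-/

namespace Pool.Agent.Helper98.Inv

open Finset

section

variable {K : Type} [Group K]

/-- elements `k` with `σ k * k` in the commutator subgroup -/
def Bsub (σ : K →* K) (hcen : ∀ a ∈ commutator K, ∀ k : K, a * k = k * a) : Subgroup K where
  carrier := {k | σ k * k ∈ commutator K}
  one_mem' := by simp
  mul_mem' := by
    intro k l hk hl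
    simp only [Set.mem_ofPred_eq] at hk hl ⊢
    have e : σ (k * l) * (k * l) = (σ l * l) * (σ k * k) * (k⁻¹ * l⁻¹ * k * l) := by
      have h := hcen _ hl (σ k)
      -- σ k * σ l * k * l
      calc σ (k * l) * (k * l) = σ k * (σ l * l) * (l⁻¹ * k * l) := by rw [map_mul]; group
        _ = (σ l * l) * σ k * (l⁻¹ * k * l) := by rw [h]
        _ = _ := by group
    rw [e]
    refine Subgroup.mul_mem _ (Subgroup.mul_mem _ hl hk) ?_
    have := Subgroup.commutator_mem_commutator (Subgroup.mem_top k⁻¹) (Subgroup.mem_top l⁻¹)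
    have e2 : k⁻¹ * l⁻¹ * k * l = k⁻¹ * l⁻¹ * (k⁻¹)⁻¹ * (l⁻¹)⁻¹ := by group
    rw [e2]
    exact this
  inv_mem' := by
    intro k hk
    simp only [Set.mem_ofPred_eq] at hk ⊢
    have h := hcen _ hk (σ k⁻¹)
    -- (σ k * k) * σ k⁻¹ = σ k⁻¹ * (σ k * k) = k
    have e1 : σ k⁻¹ * (σ k * k) = k := by rw [← mul_assoc, ← map_mul]; simp
    have e : (σ k⁻¹ * k⁻¹)⁻¹ = σ k * k := by
      have : (σ k * k) * σ k⁻¹ = k := by rw [h, e1]
      rw [mul_inv_rev, inv_inv, map_inv, inv_inv]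
      have h3 := hcen _ hk k
      -- k * σ k = σ k * k ?
      have h4 : (σ k * k) * (σ k)⁻¹ = k := by rwa [map_inv] at this
      calc k * σ k = ((σ k * k) * (σ k)⁻¹) * σ k := by rw [h4]
        _ = _ := by group
    rw [← inv_inv (σ k⁻¹ * k⁻¹), e]
    exact Subgroup.inv_mem _ hk

theorem mem_Bsub {σ : K →* K} {hcen : ∀ a ∈ commutator K, ∀ k : K, a * k = k * a} {k : K} :
    k ∈ Bsub σ hcen ↔ σ k * k ∈ commutator K := Iff.rfl

theorem f_mul (σ : K →* K) (hcen : ∀ a ∈ commutator K, ∀ k : K, a * k = k * a) (k l : K)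
    (hl : σ l * l ∈ commutator K) :
    σ (k * l) * (k * l) = (σ k * k) * (σ l * l) * (k⁻¹ * l⁻¹ * k * l) := by
  have h := hcen _ hl (σ k)
  have h2 := hcen _ hl (σ k * k)
  calc σ (k * l) * (k * l) = σ k * (σ l * l) * (l⁻¹ * k * l) := by rw [map_mul]; group
    _ = (σ l * l) * σ k * (l⁻¹ * k * l) := by rw [h]
    _ = (σ l * l) * (σ k * k) * (k⁻¹ * l⁻¹ * k * l) := by group
    _ = _ := by rw [h2]

theorem comm_mem (k l : K) : k⁻¹ * l⁻¹ * k * l ∈ commutator K := by
  have := Subgroup.commutator_mem_commutator (Subgroup.mem_top k⁻¹) (Subgroup.mem_top l⁻¹)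
  have e2 : k⁻¹ * l⁻¹ * k * l = k⁻¹ * l⁻¹ * (k⁻¹)⁻¹ * (l⁻¹)⁻¹ := by group
  rw [e2]
  exact this

theorem comm_mul_left (hcen : ∀ a ∈ commutator K, ∀ k : K, a * k = k * a) (k k' l : K) :
    (k * k')⁻¹ * l⁻¹ * (k * k') * l = (k⁻¹ * l⁻¹ * k * l) * (k'⁻¹ * l⁻¹ * k' * l) := by
  have h := hcen _ (comm_mem k l) (k'⁻¹)
  calc (k * k')⁻¹ * l⁻¹ * (k * k') * l
      = k'⁻¹ * (k⁻¹ * l⁻¹ * k * l) * (l⁻¹ * k' * l) := by group
    _ = (k⁻¹ * l⁻¹ * k * l) * k'⁻¹ * (l⁻¹ * k' * l) := by rw [h]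
    _ = _ := by group

theorem comm_mul_right (hcen : ∀ a ∈ commutator K, ∀ k : K, a * k = k * a) (k l l' : K) :
    k⁻¹ * (l * l')⁻¹ * k * (l * l') = (k⁻¹ * l⁻¹ * k * l) * (k⁻¹ * l'⁻¹ * k * l') := by
  have h := hcen _ (comm_mem k l) (k⁻¹ * l'⁻¹ * k)
  calc k⁻¹ * (l * l')⁻¹ * k * (l * l')
      = (k⁻¹ * l'⁻¹ * k) * (k⁻¹ * l⁻¹ * k * l) * l' := by group
    _ = (k⁻¹ * l⁻¹ * k * l) * (k⁻¹ * l'⁻¹ * k) * l' := by rw [h]
    _ = _ := by group

/-- counting elements inverted by `σ` -/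
theorem count_inverted [Finite K] (σ : K →* K)
    (hcen : ∀ a ∈ commutator K, ∀ k : K, a * k = k * a) :
    ∃ y : Fin (Nat.card (commutator K)) → ℝ, (∀ i, y i ∈ TT) ∧
      (Nat.card {k : K // σ k * k = 1} : ℝ) =
        (Nat.card K : ℝ) * ((1 / (Nat.card (commutator K) : ℝ)) * ∑ i, y i) := by
  classical
  have : Fintype K := Fintype.ofFinite K
  let _ : CommGroup (commutator K) :=
    { (inferInstance : Group (commutator K)) with
      mul_comm := fun a b => Subtype.ext (hcen a a.2 b) }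
  set A := Additive (commutator K) with hA
  have : Fintype A := Fintype.ofFinite A
  set B := Bsub σ hcen with hB
  let f : B → commutator K := fun k => ⟨σ k * k, k.2⟩
  let c : B → B → commutator K := fun k l => ⟨(k : K)⁻¹ * (l : K)⁻¹ * k * l, comm_mem _ _⟩
  have hf : ∀ k l, f (k * l) = f k * f l * c k l := by
    intro k l
    apply Subtype.ext
    exact f_mul σ hcen k l l.2
  have hc1 : ∀ k k' l, c (k * k') l = c k l * c k' l := by
    intro k k' l
    apply Subtype.ext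
    exact comm_mul_left hcen _ _ _
  have hc2 : ∀ k l l', c k (l * l') = c k l * c k l' := by
    intro k l l'
    apply Subtype.ext
    exact comm_mul_right hcen _ _ _
  have hc3 : ∀ k, c k k = 1 := by
    intro k
    apply Subtype.ext
    change (k : K)⁻¹ * (k : K)⁻¹ * k * k = 1
    group
  -- for every character
  have hchar : ∀ ψ : AddChar A ℂ, ∃ y ∈ TT,
      (∑ k : B, ψ (Additive.ofMul (f k))) = ((Nat.card K : ℝ) * y : ℝ) := by
    intro ψ
    refine gauss_TT B (fun k => ψ (Additive.ofMul (f k))) (fun k l => ψ (Additive.ofMul (c k l)))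
      ?_ ?_ ?_ ?_ ?_
    · intro k l
      simp only [hf, ofMul_mul, AddChar.map_add_eq_mul]
    · intro k k' l
      simp only [hc1, ofMul_mul, AddChar.map_add_eq_mul]
    · intro k l l'
      simp only [hc2, ofMul_mul, AddChar.map_add_eq_mul]
    · intro k
      simp only [hc3, ofMul_one, AddChar.map_zero_eq_one]
    · intro k l h0
      have : ψ (Additive.ofMul (c k l)) * ψ (-(Additive.ofMul (c k l))) = 1 := by
        rw [← AddChar.map_add_eq_mul, add_neg_cancel, AddChar.map_zero_eq_one]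
      rw [h0, zero_mul] at this
      exact zero_ne_one this
  choose Y hYT hY using hchar
  -- reindex
  have hcardA : Fintype.card (AddChar A ℂ) = Nat.card (commutator K) := by
    rw [AddChar.card_eq, ← Nat.card_eq_fintype_card]
    rfl
  let e : Fin (Nat.card (commutator K)) ≃ AddChar A ℂ :=
    (finCongr hcardA.symm).trans (Fintype.equivFin (AddChar A ℂ)).symm
  refine ⟨fun i => Y (e i), fun i => hYT _, ?_⟩
  have hsumY : ∑ i, Y (e i) = ∑ ψ, Y ψ := e.sum_comp Y
  rw [hsumY]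
  -- the count
  have hcount : (Nat.card {k : K // σ k * k = 1} : ℂ) =
      ∑ k : B, if f k = 1 then (1 : ℂ) else 0 := by
    rw [Finset.sum_boole]
    congr 1
    rw [← Fintype.card_subtype, ← Nat.card_eq_fintype_card]
    apply Nat.card_congr
    refine ⟨fun k => ⟨⟨k.1, ?_⟩, ?_⟩, fun k => ⟨k.1.1, ?_⟩, ?_, ?_⟩
    · rw [hB, mem_Bsub, k.2]; exact Subgroup.one_mem _
    · apply Subtype.ext; exact k.2
    · exact congrArg Subtype.val k.2
    · intro k; rfl
    · intro k; rfl
  have hortho : ∀ k : B, (if f k = 1 then (1 : ℂ) else 0) =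
      (1 / (Nat.card (commutator K) : ℂ)) * ∑ ψ : AddChar A ℂ, ψ (Additive.ofMul (f k)) := by
    intro k
    rw [AddChar.sum_apply_eq_ite]
    have hne : (Nat.card (commutator K) : ℂ) ≠ 0 := by
      exact_mod_cast Nat.card_pos.ne'
    have hcA : (Fintype.card A : ℂ) = (Nat.card (commutator K) : ℂ) := by
      rw [← Nat.card_eq_fintype_card]; rfl
    by_cases h : f k = 1
    · rw [if_pos h, if_pos (by rw [h]; rfl), hcA]
      field_simp
    · rw [if_neg h, if_neg (by intro h'; exact h h'), mul_zero]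
  have hfinal : (Nat.card {k : K // σ k * k = 1} : ℂ) =
      (((Nat.card K : ℝ) * ((1 / (Nat.card (commutator K) : ℝ)) * ∑ ψ, Y ψ) : ℝ) : ℂ) := by
    rw [hcount]
    simp_rw [hortho]
    rw [← Finset.mul_sum, Finset.sum_comm]
    simp_rw [hY]
    push_cast
    rw [← Finset.mul_sum]
    ring
  exact_mod_cast hfinal

end

end Pool.Agent.Helper98.Inv
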