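import Mathlib

/-!
Finite groups with many solutions of `x * x = 1` have a normal subgroup of bounded index, class
at most two and bounded commutator subgroup.
-/

namespace Pool.Agent.Helper98.Inv

open Finset

section

variable {G : Type} [Group G] [Finite G]

/-- index of the centralizer -/
noncomputable def cidx (g : G) : ℕ := (Subgroup.centralizer ({g} : Set G)).index

omit [Finite G] in
theorem mem_cent {g k : G} : k ∈ Subgroup.centralizer ({g} : Set G) ↔ k * g = g * k :=
  Subgroup.mem_centralizer_singleton_iff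

theorem cidx_mul (g h : G) : cidx (g * h) ≤ cidx g * cidx h := by
  have hle : Subgroup.centralizer ({g} : Set G) ⊓ Subgroup.centralizer ({h} : Set G) ≤
      Subgroup.centralizer ({g * h} : Set G) := by
    rintro k ⟨h1, h2⟩
    have h1' := mem_cent.mp h1
    have h2' := mem_cent.mp h2
    apply mem_cent.mpr
    rw [← mul_assoc, h1', mul_assoc, h2', mul_assoc]
  exact (Subgroup.index_antitone hle).trans Subgroup.index_inf_le

theorem cidx_inv (g : G) : cidx g⁻¹ ≤ cidx g := by
  have hle : Subgroup.centralizer ({g} : Set G) ≤ Subgroup.centralizer ({g⁻¹} : Set G) := by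
    intro k h1
    have h1' := mem_cent.mp h1
    apply mem_cent.mpr
    rw [mul_inv_eq_iff_eq_mul, mul_assoc, h1', inv_mul_cancel_left]
  exact Subgroup.index_antitone hle

omit [Finite G] in
theorem cidx_one : cidx (1 : G) = 1 := by
  have : Subgroup.centralizer ({1} : Set G) = ⊤ := by
    rw [eq_top_iff]; intro k _; apply mem_cent.mpr; simp
  rw [cidx, this, Subgroup.index_top]

theorem sq_le_sum [Fintype G] : (Nat.card {g : G // g * g = 1}) ^ 2 ≤
    ∑ g : G, Nat.card (Subgroup.centralizer ({g} : Set G)) := by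
  classical
  have h1 : (Nat.card {g : G // g * g = 1}) ^ 2 =
      ∑ g : G, Nat.card {p : {g : G // g * g = 1} × {g : G // g * g = 1} // p.1.1 * p.2.1 = g} := by
    rw [pow_two, ← Nat.card_prod, ← Nat.card_sigma]
    apply Nat.card_congr
    refine ⟨fun p => ⟨p.1.1 * p.2.1, ⟨p, rfl⟩⟩, fun s => s.2.1, ?_, ?_⟩
    · intro p; rfl
    · rintro ⟨g, p, rfl⟩; rfl
  rw [h1]
  apply Finset.sum_le_sum
  intro g _
  by_cases hne : Nonempty {p : {g : G // g * g = 1} × {g : G // g * g = 1} // p.1.1 * p.2.1 = g}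
  · obtain ⟨⟨⟨x0, hx0⟩, ⟨y0, hy0⟩⟩, h0⟩ := hne
    simp only at h0
    have key : ∀ x y : G, x * x = 1 → y * y = 1 → x * y = g → x * g = g⁻¹ * x := by
      intro x y hx hy hxy
      have hx' : x⁻¹ = x := by rw [inv_eq_iff_mul_eq_one]; exact hx
      have hy' : y⁻¹ = y := by rw [inv_eq_iff_mul_eq_one]; exact hy
      rw [← hxy, mul_inv_rev, hx', hy', ← mul_assoc, hx, one_mul, mul_assoc, hx, mul_one]
    have k0 := key x0 y0 hx0 hy0 h0
    refine Nat.card_le_card_of_injective (fun p => (⟨x0⁻¹ * p.1.1.1, ?_⟩ :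
      Subgroup.centralizer ({g} : Set G))) ?_
    · have kp := key p.1.1.1 p.1.2.1 p.1.1.2 p.1.2.2 p.2
      apply mem_cent.mpr
      have k1 : g * x0⁻¹ = x0⁻¹ * g⁻¹ := by
        have : x0 * g * x0⁻¹ = g⁻¹ := by rw [k0, mul_inv_cancel_right]
        rw [← this]; group
      rw [mul_assoc, kp, ← mul_assoc, ← mul_assoc, ← k1]
    · rintro ⟨⟨⟨x, hx⟩, ⟨y, hy⟩⟩, hp⟩ ⟨⟨⟨x', hx'⟩, ⟨y', hy'⟩⟩, hp'⟩ h
      simp only [Subtype.mk.injEq, mul_right_inj] at h
      simp only at hp hp'
      subst h
      have : y = y' := by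
        have := hp.trans hp'.symm
        exact mul_left_cancel this
      subst this
      rfl
  · rw [not_nonempty_iff] at hne
    rw [Nat.card_eq_zero.mpr (Or.inl hne)]
    exact Nat.zero_le _

theorem many_small (a : ℕ) (ha : 1 ≤ a) (h : Nat.card G ≤ a * Nat.card {g : G // g * g = 1}) :
    Nat.card G ≤ (2 * a ^ 2) * Nat.card {g : G // cidx g ≤ 2 * a ^ 2} := by
  classical
  have : Fintype G := Fintype.ofFinite G
  set n := 2 * a ^ 2 with hn
  have h1 := sq_le_sum (G := G)
  set J := Nat.card {g : G // g * g = 1} with hJ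
  set X := Nat.card {g : G // cidx g ≤ n} with hX
  have hXcard : X = (univ.filter fun g : G => cidx g ≤ n).card := by
    rw [hX, Nat.card_eq_fintype_card, Fintype.card_subtype]
  have hGpos : 0 < Nat.card G := Nat.card_pos
  -- n * |C| ≤ n * |G| [small] + |G|
  have hb : ∀ g : G, n * Nat.card (Subgroup.centralizer ({g} : Set G)) ≤
      (if cidx g ≤ n then n * Nat.card G else 0) + Nat.card G := by
    intro g
    have hm := (Subgroup.centralizer ({g} : Set G)).card_mul_index
    split_ifs with hc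
    · have : Nat.card (Subgroup.centralizer ({g} : Set G)) ≤ Nat.card G :=
        Subgroup.card_le_card_group _
      nlinarith
    · push Not at hc
      rw [zero_add]
      have hc' : n ≤ (Subgroup.centralizer ({g} : Set G)).index := hc.le
      calc n * Nat.card (Subgroup.centralizer ({g} : Set G))
          ≤ (Subgroup.centralizer ({g} : Set G)).index *
            Nat.card (Subgroup.centralizer ({g} : Set G)) := Nat.mul_le_mul_right _ hc'
        _ = Nat.card G := by rw [mul_comm]; exact hm
  have h2 : n * ∑ g : G, Nat.card (Subgroup.centralizer ({g} : Set G)) ≤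
      X * (n * Nat.card G) + Nat.card G * Nat.card G := by
    rw [Finset.mul_sum]
    calc ∑ g : G, n * Nat.card (Subgroup.centralizer ({g} : Set G))
        ≤ ∑ g : G, ((if cidx g ≤ n then n * Nat.card G else 0) + Nat.card G) :=
          Finset.sum_le_sum (fun g _ => hb g)
      _ = X * (n * Nat.card G) + Nat.card G * Nat.card G := by
          rw [Finset.sum_add_distrib, ← Finset.sum_filter, Finset.sum_const, Finset.sum_const,
            ← hXcard, Finset.card_univ, Nat.card_eq_fintype_card]
          simp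
  have h3 : Nat.card G ^ 2 ≤ a ^ 2 * J ^ 2 := by
    calc Nat.card G ^ 2 ≤ (a * J) ^ 2 := Nat.pow_le_pow_left h 2
      _ = _ := by ring
  -- combine
  have h4 : n * Nat.card G ^ 2 ≤ a ^ 2 * (X * (n * Nat.card G) + Nat.card G * Nat.card G) := by
    calc n * Nat.card G ^ 2 ≤ n * (a ^ 2 * J ^ 2) := Nat.mul_le_mul_left _ h3
      _ = a ^ 2 * (n * J ^ 2) := by ring
      _ ≤ a ^ 2 * (n * ∑ g : G, Nat.card (Subgroup.centralizer ({g} : Set G))) :=
          Nat.mul_le_mul_left _ (Nat.mul_le_mul_left _ h1)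
      _ ≤ _ := Nat.mul_le_mul_left _ h2
  have h5 : a ^ 2 * Nat.card G * Nat.card G ≤ a ^ 2 * Nat.card G * (n * X) := by
    rw [hn] at h4 ⊢
    nlinarith
  exact Nat.le_of_mul_le_mul_left h5 (by positivity)

/-- the sequence of bounds -/
def Nseq (n : ℕ) : ℕ → ℕ
  | 0 => n
  | j + 1 => (Nseq n j) ^ 2

theorem Nseq_pos {n : ℕ} (hn : 1 ≤ n) (j : ℕ) : 1 ≤ Nseq n j := by
  induction j with
  | zero => exact hn
  | succ j ih => rw [Nseq]; exact Nat.one_le_pow _ _ ih

theorem Nseq_mono {n : ℕ} (hn : 1 ≤ n) : Monotone (Nseq n) := by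
  apply monotone_nat_of_le_succ
  intro j
  rw [Nseq]
  have := Nseq_pos hn j
  nlinarith

theorem exists_stable (n : ℕ) (hn : 1 ≤ n) (h : Nat.card G ≤ n * Nat.card {g : G // cidx g ≤ n}) :
    ∃ j : ℕ, j ≤ 3 * n + 1 ∧ (∀ g : G, cidx g ≤ Nseq n (j + 1) → cidx g ≤ Nseq n j) := by
  classical
  have : Fintype G := Fintype.ofFinite G
  by_contra hcon
  push Not at hcon
  set X : ℕ → Finset G := fun j => univ.filter fun g => cidx g ≤ Nseq n j with hX
  have hmem : ∀ j g, g ∈ X j ↔ cidx g ≤ Nseq n j := by intro j g; simp [hX]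
  have hmono : ∀ i j, i ≤ j → X i ⊆ X j := by
    intro i j hij g hg
    rw [hmem] at hg ⊢
    exact hg.trans (Nseq_mono hn hij)
  have hmul : ∀ i g h, g ∈ X i → h ∈ X i → g * h ∈ X (i + 1) := by
    intro i g h hg hh
    rw [hmem] at *
    rw [Nseq, pow_two]
    exact (cidx_mul g h).trans (Nat.mul_le_mul hg hh)
  have hinv : ∀ i g, g ∈ X i → g⁻¹ ∈ X i := by
    intro i g hg
    rw [hmem] at *
    exact (cidx_inv g).trans hg
  have hX0 : Nat.card G ≤ n * (X 0).card := by
    have : (X 0).card = Nat.card {g : G // cidx g ≤ n} := by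
      rw [Nat.card_eq_fintype_card, Fintype.card_subtype]; rfl
    rwa [this]
  have hgrow : ∀ i, i ≤ n → (i + 1) * (X 0).card ≤ (X (3 * i)).card := by
    intro i
    induction i with
    | zero => intro _; simp
    | succ i ih =>
      intro hi
      have ih' := ih (by omega)
      obtain ⟨g, hg1, hg2⟩ := hcon (3 * i + 1) (by omega)
      have hg1' : g ∈ X (3 * i + 2) := (hmem _ _).mpr hg1
      have hg2' : g ∉ X (3 * i + 1) := fun hh => absurd ((hmem _ _).mp hh) (by omega)
      have hdisj : Disjoint (X (3 * i)) ((X 0).image (fun x => g * x)) := by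
        rw [Finset.disjoint_left]
        intro y hy hy'
        obtain ⟨x, hx, rfl⟩ := Finset.mem_image.mp hy'
        apply hg2'
        have : g = (g * x) * x⁻¹ := by group
        rw [this]
        exact hmul _ _ _ hy (hmono _ _ (by omega) (hinv _ _ hx))
      have hsub : X (3 * i) ∪ (X 0).image (fun x => g * x) ⊆ X (3 * (i + 1)) := by
        apply Finset.union_subset
        · exact hmono _ _ (by omega)
        · intro y hy
          obtain ⟨x, hx, rfl⟩ := Finset.mem_image.mp hy
          exact hmul (3 * i + 2) _ _ hg1' (hmono _ _ (by omega) hx)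
      have hcard := Finset.card_le_card hsub
      rw [Finset.card_union_of_disjoint hdisj,
        Finset.card_image_of_injective _ (mul_right_injective g)] at hcard
      calc (i + 1 + 1) * (X 0).card = (i + 1) * (X 0).card + (X 0).card := by ring
        _ ≤ (X (3 * i)).card + (X 0).card := by omega
        _ ≤ _ := hcard
  have hlast := hgrow n le_rfl
  have hle : (X (3 * n)).card ≤ Nat.card G := by
    rw [Nat.card_eq_fintype_card]
    exact Finset.card_le_univ _
  have hpos : 0 < (X 0).card := by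
    rw [Finset.card_pos]
    refine ⟨1, ?_⟩
    rw [hmem, cidx_one]
    exact hn
  nlinarith

theorem exists_H (a : ℕ) (ha : 1 ≤ a) (h : Nat.card G ≤ a * Nat.card {g : G // g * g = 1}) :
    ∃ H : Subgroup G, H.index ≤ 2 * a ^ 2 ∧
      ∀ g ∈ H, cidx g ≤ Nseq (2 * a ^ 2) (3 * (2 * a ^ 2) + 1) := by
  classical
  set n := 2 * a ^ 2 with hn
  have hn1 : 1 ≤ n := by
    have : 0 < 2 * a ^ 2 := by positivity
    omega
  have h1 := many_small a ha h
  obtain ⟨j, hj, hst⟩ := exists_stable n hn1 h1
  let H : Subgroup G :=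
    { carrier := {g | cidx g ≤ Nseq n j}
      one_mem' := by
        change cidx (1 : G) ≤ _
        rw [cidx_one]; exact Nseq_pos hn1 j
      mul_mem' := by
        intro g g' hg hg'
        apply hst
        rw [Nseq, pow_two]
        exact (cidx_mul g g').trans (Nat.mul_le_mul hg hg')
      inv_mem' := by
        intro g hg
        exact (cidx_inv g).trans hg }
  refine ⟨H, ?_, fun g hg => le_trans hg (Nseq_mono hn1 hj)⟩
  have hcard : Nat.card {g : G // cidx g ≤ n} ≤ Nat.card H := by
    apply Nat.card_le_card_of_injective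
      (fun g => (⟨g.1, le_trans g.2 (Nseq_mono hn1 (Nat.zero_le j))⟩ : H))
    intro g g' hgg
    apply Subtype.ext
    exact congrArg (fun x : H => (x : G)) hgg
  have hm := H.card_mul_index
  have hHpos : 0 < Nat.card H := Nat.card_pos
  have : Nat.card H * H.index ≤ Nat.card H * n := by
    rw [hm]
    calc Nat.card G ≤ n * Nat.card {g : G // cidx g ≤ n} := h1
      _ ≤ n * Nat.card H := Nat.mul_le_mul_left _ hcard
      _ = _ := mul_comm _ _
  exact Nat.le_of_mul_le_mul_left this hHpos

/-- BFC argument -/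
theorem exists_K {H : Type} [Group H] [Finite H] (N : ℕ) (hN : ∀ h : H, cidx h ≤ N) :
    ∃ (K : Subgroup H) (S : Finset H), S.card ≤ N ^ 2 ∧ K.index ≤ N ^ N * N ^ N ^ 2 ∧
      (∀ k ∈ K, ∀ l : H, k⁻¹ * l * k * l⁻¹ ∈ S) ∧ ∀ k ∈ K, ∀ s ∈ S, k * s = s * k := by
  classical
  have : Fintype H := Fintype.ofFinite H
  have hN1 : 1 ≤ N := by have := hN 1; rwa [cidx_one] at this
  obtain ⟨a, -, hamax⟩ := Finset.exists_max_image (univ : Finset H) cidx ⟨1, Finset.mem_univ _⟩
  let Ca := Subgroup.centralizer ({a} : Set H)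
  have : Fintype (H ⧸ Ca) := Fintype.ofFinite _
  have hcard : Fintype.card (H ⧸ Ca) = cidx a := by
    rw [cidx, Subgroup.index, Nat.card_eq_fintype_card]
  let b : H ⧸ Ca → H := Quotient.out
  have hb : ∀ q, (b q : H ⧸ Ca) = q := fun q => Quotient.out_eq q
  let cj : H ⧸ Ca → H := fun q => b q * a * (b q)⁻¹
  -- every conjugate of a is some cj q
  have hcj : ∀ x : H, ∃ q, x * a * x⁻¹ = cj q := by
    intro x
    refine ⟨(x : H ⧸ Ca), ?_⟩
    have h1 : (b (x : H ⧸ Ca))⁻¹ * x ∈ Ca := by
      rw [← QuotientGroup.eq]; exact hb _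
    have h2 := mem_cent.mp h1
    change x * a * x⁻¹ = b (x : H ⧸ Ca) * a * (b (x : H ⧸ Ca))⁻¹
    have h3 : x * a = b (x : H ⧸ Ca) * a * ((b (x : H ⧸ Ca))⁻¹ * x) := by
      calc x * a = b (x : H ⧸ Ca) * ((b (x : H ⧸ Ca))⁻¹ * x * a) := by group
        _ = _ := by rw [h2]; group
    rw [h3]; group
  let C : Subgroup H := ⨅ q : H ⧸ Ca, Subgroup.centralizer ({b q} : Set H)
  have hCmem : ∀ c ∈ C, ∀ q, c * b q = b q * c := by
    intro c hc q
    exact mem_cent.mp ((Subgroup.mem_iInf.mp hc) q)
  have hCidx : C.index ≤ N ^ N := by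
    calc C.index ≤ ∏ q : H ⧸ Ca, (Subgroup.centralizer ({b q} : Set H)).index :=
          Subgroup.index_iInf_le _
      _ ≤ ∏ _q : H ⧸ Ca, N := Finset.prod_le_prod' (fun q _ => hN (b q))
      _ = N ^ cidx a := by rw [Finset.prod_const, Finset.card_univ, hcard]
      _ ≤ N ^ N := Nat.pow_le_pow_right hN1 (hN a)
  let S : Finset H := (univ : Finset ((H ⧸ Ca) × (H ⧸ Ca))).image (fun p => cj p.1 * (cj p.2)⁻¹)
  have hScard : S.card ≤ N ^ 2 := by
    calc S.card ≤ (univ : Finset ((H ⧸ Ca) × (H ⧸ Ca))).card := Finset.card_image_le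
      _ = cidx a * cidx a := by rw [Finset.card_univ, Fintype.card_prod, hcard]
      _ ≤ N ^ 2 := by rw [pow_two]; exact Nat.mul_le_mul (hN a) (hN a)
  -- key: commutators of C with H lie in S
  have hkey : ∀ c ∈ C, ∀ x : H, c⁻¹ * x * c * x⁻¹ ∈ S := by
    intro c hc x
    let Cca := Subgroup.centralizer ({c * a} : Set H)
    have : Fintype (H ⧸ Cca) := Fintype.ofFinite _
    have hcj2 : ∀ q, b q * (c * a) * (b q)⁻¹ = c * cj q := by
      intro q
      have h1 := hCmem c hc q
      calc b q * (c * a) * (b q)⁻¹ = (b q * c) * a * (b q)⁻¹ := by group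
        _ = (c * b q) * a * (b q)⁻¹ := by rw [h1]
        _ = c * cj q := by simp only [cj]; group
    let φ : H ⧸ Ca → H ⧸ Cca := fun q => (b q : H ⧸ Cca)
    have hφ : Function.Injective φ := by
      intro q q' hqq
      have h1 : (b q)⁻¹ * b q' ∈ Cca := QuotientGroup.eq.mp hqq
      have h2 := mem_cent.mp h1
      have h3 : b q * (c * a) * (b q)⁻¹ = b q' * (c * a) * (b q')⁻¹ := by
        have h4 : b q' * (c * a) = b q * (c * a) * ((b q)⁻¹ * b q') := by
          calc b q' * (c * a) = b q * ((b q)⁻¹ * b q' * (c * a)) := by group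
            _ = _ := by rw [h2]; group
        rw [h4]; group
      rw [hcj2, hcj2] at h3
      have h5 : cj q = cj q' := mul_left_cancel h3
      rw [← hb q, ← hb q', QuotientGroup.eq]
      apply mem_cent.mpr
      simp only [cj] at h5
      have h6 : b q' * a = b q * a * (b q)⁻¹ * b q' := by rw [h5]; group
      calc (b q)⁻¹ * b q' * a = (b q)⁻¹ * (b q' * a) := by group
        _ = a * ((b q)⁻¹ * b q') := by rw [h6]; group
    have hcard2 : Fintype.card (H ⧸ Cca) ≤ Fintype.card (H ⧸ Ca) := by
      rw [hcard]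
      have : Fintype.card (H ⧸ Cca) = cidx (c * a) := by
        rw [cidx, Subgroup.index, Nat.card_eq_fintype_card]
      rw [this]
      exact hamax (c * a) (Finset.mem_univ _)
    have hsurj : Function.Surjective φ :=
      ((Fintype.bijective_iff_injective_and_card φ).mpr
        ⟨hφ, le_antisymm (Fintype.card_le_of_injective φ hφ) hcard2⟩).2
    obtain ⟨q, hq⟩ := hsurj (x : H ⧸ Cca)
    have h1 : (b q)⁻¹ * x ∈ Cca := QuotientGroup.eq.mp hq
    have h2 := mem_cent.mp h1
    have h3 : x * (c * a) * x⁻¹ = c * cj q := by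
      rw [← hcj2]
      have h4 : x * (c * a) = b q * (c * a) * ((b q)⁻¹ * x) := by
        calc x * (c * a) = b q * ((b q)⁻¹ * x * (c * a)) := by group
          _ = _ := by rw [h2]; group
      rw [h4]; group
    obtain ⟨q', hq'⟩ := hcj x
    refine Finset.mem_image.mpr ⟨(q, q'), Finset.mem_univ _, ?_⟩
    simp only
    rw [← hq']
    have h5 : cj q = c⁻¹ * (x * (c * a) * x⁻¹) := by rw [h3]; group
    rw [h5]; group
  let K : Subgroup H := C ⊓ ⨅ s : S, Subgroup.centralizer ({(s : H)} : Set H)
  refine ⟨K, S, hScard, ?_, ?_, ?_⟩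
  · calc K.index ≤ C.index * (⨅ s : S, Subgroup.centralizer ({(s : H)} : Set H)).index :=
          Subgroup.index_inf_le
      _ ≤ N ^ N * N ^ N ^ 2 := by
          apply Nat.mul_le_mul hCidx
          calc (⨅ s : S, Subgroup.centralizer ({(s : H)} : Set H)).index
              ≤ ∏ s : S, (Subgroup.centralizer ({(s : H)} : Set H)).index :=
                Subgroup.index_iInf_le _
            _ ≤ ∏ _s : S, N := Finset.prod_le_prod' (fun s _ => hN s)
            _ = N ^ S.card := by rw [Finset.prod_const, Finset.card_univ, Fintype.card_coe]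
            _ ≤ N ^ N ^ 2 := Nat.pow_le_pow_right hN1 hScard
  · intro k hk l
    exact hkey k hk.1 l
  · intro k hk s hs
    exact mem_cent.mp ((Subgroup.mem_iInf.mp hk.2) ⟨s, hs⟩)

/-- bound on the index -/
def boundI (a : ℕ) : ℕ :=
  let n := 2 * a ^ 2
  let N := Nseq n (3 * n + 1)
  (N ^ N * N ^ N ^ 2 * n).factorial

/-- bound on the commutator subgroup -/
def boundC (a : ℕ) : ℕ :=
  let n := 2 * a ^ 2
  let N := Nseq n (3 * n + 1)
  (Finset.range (N ^ 2 + 1)).sup Subgroup.cardCommutatorBound

theorem exists_normal (a : ℕ) (ha : 1 ≤ a)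
    (h : Nat.card G ≤ a * Nat.card {g : G // g * g = 1}) :
    ∃ (K : Subgroup G) (_ : K.Normal), K.index ≤ boundI a ∧
      Nat.card (commutator K) ≤ boundC a ∧ (∀ x ∈ commutator K, ∀ k : K, x * k = k * x) := by
  classical
  obtain ⟨H, hHidx, hHc⟩ := exists_H a ha h
  set n := 2 * a ^ 2 with hn
  set N := Nseq n (3 * n + 1) with hNdef
  have hH : ∀ x : H, cidx x ≤ N := by
    intro x
    have h1 : Subgroup.centralizer ({x} : Set H) =
        (Subgroup.centralizer ({(x : G)} : Set G)).subgroupOf H := by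
      ext k
      rw [Subgroup.mem_subgroupOf, mem_cent, mem_cent, Subtype.ext_iff]
      rfl
    have h2 : cidx x ≤ cidx (x : G) := by
      have h3 : (Subgroup.centralizer ({(x : G)} : Set G)).relIndex H ≤
          (Subgroup.centralizer ({(x : G)} : Set G)).relIndex ⊤ := by
        refine Subgroup.relIndex_le_of_le_right le_top ?_
        rw [Subgroup.relIndex_top_right]
        exact (Subgroup.centralizer ({(x : G)} : Set G)).index_ne_zero_of_finite
      rw [Subgroup.relIndex_top_right] at h3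
      rw [cidx, h1]
      exact h3
    exact h2.trans (hHc x x.2)
  obtain ⟨K0, S, hScard, hK0idx, hcomm, hcent⟩ := exists_K N hH
  set K1 := K0.map H.subtype with hK1
  have hK1idx : K1.index ≤ N ^ N * N ^ N ^ 2 * n := by
    rw [hK1, Subgroup.index_map_subtype]
    exact Nat.mul_le_mul hK0idx hHidx
  set K := K1.normalCore with hK
  have hKle : K ≤ K1 := K1.normalCore_le
  have hKidx : K.index ≤ boundI a := by
    have h1 : K.index ≤ K1.index.factorial := by
      rw [hK, Subgroup.normalCore_eq_ker, Subgroup.index_ker]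
      have hfin : Finite (G ⧸ K1) := inferInstance
      calc Nat.card (MulAction.toPermHom G (G ⧸ K1)).range
          ≤ Nat.card (Equiv.Perm (G ⧸ K1)) := Subgroup.card_le_card_group _
        _ = K1.index.factorial := by rw [Nat.card_perm]; rfl
    exact h1.trans (Nat.factorial_le hK1idx)
  -- elements of K come from K0
  have hlift : ∀ k : K, ∃ k0 : H, k0 ∈ K0 ∧ (k0 : G) = k := by
    intro k
    obtain ⟨k0, hk0, he⟩ := hKle k.2
    exact ⟨k0, hk0, he⟩
  -- commutators
  have hcS : ∀ x ∈ commutatorSet K, ∃ s : S, ((s : H) : G) = ((x : K) : G) := by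
    rintro x ⟨k, l, rfl⟩
    obtain ⟨k0, hk0, hk⟩ := hlift k⁻¹
    obtain ⟨l0, hl0, hl⟩ := hlift l
    refine ⟨⟨k0⁻¹ * l0 * k0 * l0⁻¹, hcomm k0 hk0 l0⟩, ?_⟩
    simp only [Subgroup.coe_mul, Subgroup.coe_inv, commutatorElement_def] at hk ⊢
    rw [hk, hl, inv_inv]
  have hcardS : Nat.card (commutatorSet K) ≤ N ^ 2 := by
    choose s hs using hcS
    have hinj : Function.Injective (fun x : commutatorSet K => s (x : K) x.2) := by
      intro x y hxy
      apply Subtype.ext; apply Subtype.ext
      rw [← hs x x.2, ← hs y y.2]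
      simp only at hxy
      rw [hxy]
    have := Nat.card_le_card_of_injective _ hinj
    rw [Nat.card_eq_fintype_card (α := S), Fintype.card_coe] at this
    exact this.trans hScard
  refine ⟨K, Subgroup.normalCore_normal _, hKidx, ?_, ?_⟩
  · have h1 := Subgroup.card_commutator_le_of_finite_commutatorSet K
    refine h1.trans ?_
    exact Finset.le_sup (f := Subgroup.cardCommutatorBound)
      (Finset.mem_range.mpr (Nat.lt_succ_of_le hcardS))
  · -- central
    have hle : commutator K ≤ Subgroup.center K := by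
      rw [commutator_eq_closure, Subgroup.closure_le]
      intro x hx
      rw [SetLike.mem_coe, Subgroup.mem_center_iff]
      intro k
      obtain ⟨s, hs⟩ := hcS x hx
      obtain ⟨k0, hk0, hk⟩ := hlift k
      apply Subtype.ext
      rw [Subgroup.coe_mul, Subgroup.coe_mul, ← hs, ← hk, ← Subgroup.coe_mul, ← Subgroup.coe_mul,
        hcent k0 hk0 s s.2]
    intro x hx k
    exact ((Subgroup.mem_center_iff.mp (hle hx)) k).symm

end

end Pool.Agent.Helper98.Inv
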