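import Mathlib
import Pool.Agent.Helper98.InvCoset

/-!
The proportion of solutions of `x * x = 1` in a finite group with a normal subgroup of class at
most two.
-/

namespace Pool.Agent.Helper98.Inv

open Finset

theorem count_coset {G : Type} [Group G] [Finite G] (K : Subgroup G) [K.Normal]
    (hcen : ∀ a ∈ commutator K, ∀ k : K, a * k = k * a) (q : G ⧸ K) :
    ∃ y : Fin (Nat.card (commutator K)) → ℝ, (∀ i, y i ∈ TT) ∧
      (Nat.card {g : G // (g : G ⧸ K) = q ∧ g * g = 1} : ℝ) =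
        (Nat.card K : ℝ) * ((1 / (Nat.card (commutator K) : ℝ)) * ∑ i, y i) := by
  by_cases hx : ∃ x : G, (x : G ⧸ K) = q ∧ x * x = 1
  · obtain ⟨x, hxq, hxx⟩ := hx
    obtain ⟨y, hy, hcount⟩ := count_inverted (MulAut.conjNormal x : MulAut K).toMonoidHom hcen
    refine ⟨y, hy, ?_⟩
    rw [← hcount]
    congr 1
    apply Nat.card_congr
    have hinv : x⁻¹ = x := by rw [inv_eq_iff_mul_eq_one]; exact hxx
    refine ⟨fun g => ⟨⟨x⁻¹ * g.1, ?_⟩, ?_⟩, fun k => ⟨x * k.1.1, ?_, ?_⟩, ?_, ?_⟩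
    · rw [← QuotientGroup.eq, hxq, g.2.1]
    · apply Subtype.ext
      simp only [MulEquiv.toMonoidHom_eq_coe, MonoidHom.coe_coe, Subgroup.coe_mul,
        MulAut.conjNormal_apply, Subgroup.coe_one]
      have := g.2.2
      calc x * (x⁻¹ * g.1) * x⁻¹ * (x⁻¹ * g.1) = g.1 * (x * x)⁻¹ * g.1 := by group
        _ = g.1 * g.1 := by rw [hxx]; group
        _ = 1 := this
    · rw [← hxq, eq_comm, QuotientGroup.eq]; simp
    · have h := congrArg Subtype.val k.2
      simp only [MulEquiv.toMonoidHom_eq_coe, MonoidHom.coe_coe, Subgroup.coe_mul,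
        MulAut.conjNormal_apply, Subgroup.coe_one] at h
      calc x * k.1.1 * (x * k.1.1) = (x * k.1.1 * x⁻¹) * (x * x) * k.1.1 := by group
        _ = x * k.1.1 * x⁻¹ * k.1.1 := by rw [hxx, mul_one]
        _ = 1 := h
    · intro g; apply Subtype.ext; simp
    · intro k; apply Subtype.ext; apply Subtype.ext; simp
  · refine ⟨fun _ => 0, fun _ => Or.inl rfl, ?_⟩
    push Not at hx
    have : Nat.card {g : G // (g : G ⧸ K) = q ∧ g * g = 1} = 0 := by
      rw [Nat.card_eq_zero]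
      left
      exact ⟨fun g => hx g.1 g.2.1 g.2.2⟩
    rw [this]; simp

/-- averages of `m` members of `TT` -/
def Av (m : ℕ) : Set ℝ := {r | ∃ y : Fin m → ℝ, (∀ i, y i ∈ TT) ∧ r = (1 / (m : ℝ)) * ∑ i, y i}

theorem total {G : Type} [Group G] [Finite G] (K : Subgroup G) [K.Normal]
    (hcen : ∀ a ∈ commutator K, ∀ k : K, a * k = k * a) :
    (Nat.card {g : G // g * g = 1} : ℝ) / Nat.card G ∈
      Av (K.index * Nat.card (commutator K)) := by
  classical
  have hfin : Fintype (G ⧸ K) := Fintype.ofFinite _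
  choose y hy hcount using count_coset K hcen
  have hsum : (Nat.card {g : G // g * g = 1} : ℝ) =
      ∑ q : G ⧸ K, (Nat.card {g : G // (g : G ⧸ K) = q ∧ g * g = 1} : ℝ) := by
    rw [← Nat.cast_sum]
    congr 1
    rw [← Nat.card_sigma]
    apply Nat.card_congr
    refine ⟨fun g => ⟨(g.1 : G ⧸ K), ⟨g.1, rfl, g.2⟩⟩, fun p => ⟨p.2.1, p.2.2.2⟩, ?_, ?_⟩
    · intro g; rfl
    · rintro ⟨q, g, rfl, hg⟩; rfl
  have hidx : Fintype.card (G ⧸ K) = K.index := by
    rw [Subgroup.index, Nat.card_eq_fintype_card]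
  let e : Fin (K.index * Nat.card (commutator K)) ≃ (G ⧸ K) × Fin (Nat.card (commutator K)) :=
    finProdFinEquiv.symm.trans
      (Equiv.prodCongr ((finCongr hidx.symm).trans (Fintype.equivFin (G ⧸ K)).symm) (Equiv.refl _))
  refine ⟨fun i => y (e i).1 (e i).2, fun i => hy _ _, ?_⟩
  have h1 : ∑ i, y (e i).1 (e i).2 = ∑ q : G ⧸ K, ∑ i, y q i := by
    rw [← Fintype.sum_prod_type']
    exact e.sum_comp (fun p => y p.1 p.2)
  rw [h1, hsum]
  simp_rw [hcount]
  rw [← Finset.mul_sum, ← Finset.mul_sum]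
  have hG := K.card_mul_index
  have hGr : (Nat.card G : ℝ) = Nat.card K * K.index := by rw [← hG]; push_cast; rfl
  rw [hGr]
  have k1 : (Nat.card K : ℝ) ≠ 0 := by exact_mod_cast Nat.card_pos.ne'
  have k2 : (K.index : ℝ) ≠ 0 := by exact_mod_cast K.index_ne_zero_of_finite
  have k3 : (Nat.card (commutator K) : ℝ) ≠ 0 := by exact_mod_cast Nat.card_pos.ne'
  push_cast
  field_simp

end Pool.Agent.Helper98.Inv
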