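import Mathlib
import Pool.Agent.Helper98.InvTotal
import Pool.Agent.Helper98.InvNeumann

/-!
Topological part: the sets of possible proportions bounded away from zero lie in countable
compact sets.
-/

namespace Pool.Agent.Helper98.Inv

open Finset Filter Topology

theorem TT_eq : TT = (insert 0 (Set.range fun n : ℕ => 1 / Real.sqrt ((n : ℝ) + 1))) ∪
    (insert 0 (Set.range fun n : ℕ => -(1 / Real.sqrt ((n : ℝ) + 1)))) := by
  ext y
  constructor
  · rintro (h | ⟨n, hn, h | h⟩)
    · left; left; exact h
    · left; right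
      refine ⟨n - 1, ?_⟩
      simp only
      rw [h]
      congr 2
      push_cast [Nat.cast_sub hn]; ring
    · right; right
      refine ⟨n - 1, ?_⟩
      simp only
      rw [h]
      congr 3
      push_cast [Nat.cast_sub hn]; ring
  · rintro ((h | ⟨n, h⟩) | (h | ⟨n, h⟩))
    · left; exact h
    · right
      refine ⟨n + 1, by omega, Or.inl ?_⟩
      rw [← h]; push_cast; rfl
    · left; exact h
    · right
      refine ⟨n + 1, by omega, Or.inr ?_⟩
      rw [← h]; push_cast; rfl

theorem tendsto_inv_sqrt : Tendsto (fun n : ℕ => 1 / Real.sqrt ((n : ℝ) + 1)) atTop (𝓝 0) := by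
  have h1 : Tendsto (fun n : ℕ => (n : ℝ) + 1) atTop atTop :=
    tendsto_atTop_add_const_right _ _ tendsto_natCast_atTop_atTop
  have h2 : Tendsto (fun n : ℕ => Real.sqrt ((n : ℝ) + 1)) atTop atTop :=
    Real.tendsto_sqrt_atTop.comp h1
  have h3 := h2.inv_tendsto_atTop
  refine h3.congr ?_
  intro n
  simp

theorem TT_compact : IsCompact TT := by
  rw [TT_eq]
  apply IsCompact.union
  · exact tendsto_inv_sqrt.isCompact_insert_range
  · have := tendsto_inv_sqrt.neg
    rw [neg_zero] at this
    exact this.isCompact_insert_range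

theorem TT_countable : TT.Countable := by
  rw [TT_eq]
  exact ((Set.countable_range _).insert _).union ((Set.countable_range _).insert _)

/-- differences of an average and a member of `TT` -/
def WW (m : ℕ) : Set ℝ := {r | ∃ x ∈ Av m, ∃ u ∈ TT, r = x - u}

theorem WW_eq (m : ℕ) : WW m =
    (fun p : (Fin m → ℝ) × ℝ => (1 / (m : ℝ)) * ∑ i, p.1 i - p.2) ''
      ((Set.univ.pi fun _ => TT) ×ˢ TT) := by
  ext r
  constructor
  · rintro ⟨x, ⟨y, hy, rfl⟩, u, hu, rfl⟩
    exact ⟨(y, u), ⟨fun i _ => hy i, hu⟩, rfl⟩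
  · rintro ⟨⟨y, u⟩, ⟨hy, hu⟩, rfl⟩
    exact ⟨_, ⟨y, fun i => hy i (Set.mem_univ _), rfl⟩, u, hu, rfl⟩

theorem WW_compact (m : ℕ) : IsCompact (WW m) := by
  rw [WW_eq]
  apply IsCompact.image
  · exact (isCompact_univ_pi fun _ => TT_compact).prod TT_compact
  · fun_prop

theorem WW_countable (m : ℕ) : (WW m).Countable := by
  rw [WW_eq]
  apply Set.Countable.image
  exact (Set.countable_univ_pi fun _ => TT_countable).prod TT_countable

/-- finite union -/
def WU (M : ℕ) : Set ℝ := ⋃ m ∈ Finset.range (M + 1), WW m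

theorem WU_compact (M : ℕ) : IsCompact (WU M) :=
  (Finset.range (M + 1)).isCompact_biUnion fun m _ => WW_compact m

theorem WU_countable (M : ℕ) : (WU M).Countable :=
  Set.Countable.biUnion (Finset.countable_toSet _) fun m _ => WW_countable m

theorem card_split (G : Type) [Group G] [Finite G] :
    Nat.card {x : G // x * x = 1} = Nat.card {x : G // orderOf x = 2} + 1 := by
  classical
  have : Fintype G := Fintype.ofFinite G
  have h : ∀ x : G, x * x = 1 ↔ (orderOf x = 2 ∨ x = 1) := by
    intro x
    have : Fact (Nat.Prime 2) := ⟨Nat.prime_two⟩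
    rw [orderOf_eq_prime_iff, pow_two]
    constructor
    · intro hx
      by_cases h1 : x = 1
      · right; exact h1
      · left; exact ⟨hx, h1⟩
    · rintro (h1 | h1)
      · exact h1.1
      · rw [h1, one_mul]
  rw [Nat.card_eq_fintype_card, Nat.card_eq_fintype_card, Fintype.card_subtype,
    Fintype.card_subtype]
  have h2 : (univ.filter fun x : G => x * x = 1) =
      insert 1 (univ.filter fun x : G => orderOf x = 2) := by
    ext x
    simp only [Finset.mem_filter, Finset.mem_univ, true_and, Finset.mem_insert, h]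
    tauto
  rw [h2, Finset.card_insert_of_notMem]
  simp

theorem prop_mem (G : Type) [Group G] [Finite G] (a : ℕ) (ha : 1 ≤ a)
    (h : (1 : ℝ) / a < (Nat.card {x : G // orderOf x = 2} : ℝ) / Nat.card G) :
    (Nat.card {x : G // orderOf x = 2} : ℝ) / Nat.card G ∈ WU (boundI a * boundC a) := by
  have hG : (0 : ℝ) < Nat.card G := by exact_mod_cast Nat.card_pos
  have ha' : (0 : ℝ) < a := by exact_mod_cast ha
  have hs := card_split G
  have hJ : Nat.card G ≤ a * Nat.card {g : G // g * g = 1} := by
    rw [div_lt_div_iff₀ ha' hG, one_mul] at h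
    have h1 : Nat.card G < Nat.card {x : G // orderOf x = 2} * a := by exact_mod_cast h
    rw [hs]
    nlinarith
  obtain ⟨K, hKn, hKi, hKc, hcen⟩ := exists_normal a ha hJ
  have ht := total K hcen
  unfold WU
  simp only [Set.mem_iUnion, Finset.mem_range]
  refine ⟨K.index * Nat.card (commutator K),
    Nat.lt_succ_of_le (Nat.mul_le_mul hKi hKc), _, ht, 1 / (Nat.card G : ℝ), ?_, ?_⟩
  · right
    refine ⟨Nat.card G ^ 2, Nat.one_le_pow _ _ Nat.card_pos, Or.inl ?_⟩
    congr 1
    push_cast
    rw [Real.sqrt_sq hG.le]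
  · rw [hs]; push_cast; ring

/-- the set of proportions -/
def PS : Set ℝ := {r | ∃ (G : Type) (_ : Group G) (_ : Finite G),
  r = (Nat.card {x : G // orderOf x = 2} : ℝ) / Nat.card G}

theorem closure_countable : (closure PS).Countable := by
  have hsub : closure PS ⊆ {0} ∪ ⋃ a : ℕ, WU (boundI a * boundC a) := by
    intro t ht
    have hnn : 0 ≤ t := by
      have : PS ⊆ Set.Ici 0 := by
        rintro r ⟨G, _, _, rfl⟩
        simp only [Set.mem_Ici]
        positivity
      exact closure_minimal this isClosed_Ici ht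
    rcases hnn.eq_or_lt with h0 | h0
    · left; exact h0.symm
    · right
      obtain ⟨n, hn⟩ := exists_nat_one_div_lt h0
      rw [Set.mem_iUnion]
      refine ⟨n + 1, ?_⟩
      have hcl : t ∈ closure (Set.Ioi ((1 : ℝ) / ((n + 1 : ℕ) : ℝ)) ∩ PS) := by
        apply isOpen_Ioi.inter_closure
        refine ⟨?_, ht⟩
        simpa using hn
      have hsub2 : Set.Ioi ((1 : ℝ) / ((n + 1 : ℕ) : ℝ)) ∩ PS ⊆
          WU (boundI (n + 1) * boundC (n + 1)) := by
        rintro r ⟨hr, G, _, _, rfl⟩
        exact prop_mem G (n + 1) (by omega) hr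
      exact closure_minimal hsub2 (WU_compact _).isClosed hcl
  refine Set.Countable.mono hsub ?_
  exact (Set.countable_singleton 0).union (Set.countable_iUnion fun a => WU_countable _)

end Pool.Agent.Helper98.Inv
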