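import Mathlib

/-!
Basic pointwise description of the lifting property in `TopCat`, and the pointwise classes of
continuous maps used in the proof that the Quillen negation monoid of `Top` is finite.
-/

universe u

open CategoryTheory Topology

namespace Helper98.QN

/-- Classes of continuous maps. -/
abbrev MP := MorphismProperty TopCat.{u}

/-- Pointwise version of the lifting property. -/
def Lifts {A B X Y : Type u} [TopologicalSpace A] [TopologicalSpace B] [TopologicalSpace X]
    [TopologicalSpace Y] (i : A → B) (p : X → Y) : Prop :=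
  ∀ (a : A → X) (b : B → Y), Continuous a → Continuous b → (∀ t, p (a t) = b (i t)) →
    ∃ h : B → X, Continuous h ∧ (∀ t, h (i t) = a t) ∧ ∀ t, p (h t) = b t

lemma lifts_iff {A B X Y : TopCat.{u}} (i : A ⟶ B) (p : X ⟶ Y) :
    HasLiftingProperty i p ↔ Lifts (i : A → B) (p : X → Y) := by
  constructor
  · intro h a b ha hb hab
    have sq : CommSq (TopCat.ofHom ⟨a, ha⟩ : TopCat.of A ⟶ TopCat.of X) i p
        (TopCat.ofHom ⟨b, hb⟩ : TopCat.of B ⟶ TopCat.of Y) := ⟨by
      ext t
      exact hab t⟩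
    have := h.sq_hasLift sq
    refine ⟨(sq.lift : B → X), sq.lift.hom.continuous, fun t => ?_, fun t => ?_⟩
    · exact ConcreteCategory.congr_hom sq.fac_left t
    · exact ConcreteCategory.congr_hom sq.fac_right t
  · intro h
    refine ⟨fun {a} {b} sq => ?_⟩
    obtain ⟨k, hk, h1, h2⟩ := h a b a.hom.continuous b.hom.continuous
      (fun t => ConcreteCategory.congr_hom sq.w t)
    refine ⟨⟨⟨TopCat.ofHom ⟨k, hk⟩, ?_, ?_⟩⟩⟩
    · ext t; exact h1 t
    · ext t; exact h2 t

/-- The morphism of `TopCat` attached to a continuous map. -/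
abbrev mk {X Y : Type u} [TopologicalSpace X] [TopologicalSpace Y] (f : X → Y)
    (hf : Continuous f) : TopCat.of X ⟶ TopCat.of Y := TopCat.ofHom ⟨f, hf⟩

lemma llp_iff {K : MP.{u}} {A B : TopCat.{u}} (i : A ⟶ B) :
    K.llp i ↔ ∀ ⦃X Y : TopCat.{u}⦄ (p : X ⟶ Y), K p → Lifts (i : A → B) (p : X → Y) := by
  simp only [← lifts_iff]; rfl

lemma rlp_iff {K : MP.{u}} {A B : TopCat.{u}} (i : A ⟶ B) :
    K.rlp i ↔ ∀ ⦃X Y : TopCat.{u}⦄ (p : X ⟶ Y), K p → Lifts (p : X → Y) (i : A → B) := by
  simp only [← lifts_iff]; rfl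

/-- Injective maps. -/
def Inj : MP.{u} := fun _ _ f => Function.Injective f
/-- Surjective maps. -/
def Surj : MP.{u} := fun _ _ f => Function.Surjective f
/-- Inducing maps. -/
def Ind : MP.{u} := fun _ _ f => IsInducing f
/-- Embeddings. -/
def Emb : MP.{u} := fun _ _ f => IsEmbedding f
/-- The codomain carries the final topology. -/
def Fin : MP.{u} := fun _ Y f => ∀ V : Set Y, IsOpen (f ⁻¹' V) → IsOpen V
/-- The image meets every nonempty clopen set. -/
def Dom : MP.{u} := fun _ Y f => ∀ V : Set Y, IsClopen V → (∀ x, f x ∉ V) → V = ∅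
/-- Fibrewise separation conditions. -/
def RI : MP.{u} := fun _ _ p => ∀ x x', Inseparable x x' → p x = p x' → x = x'
/-- Fibrewise `T₁`. -/
def RS : MP.{u} := fun _ _ p => ∀ x x', x ⤳ x' → p x = p x' → x = x'
/-- Reflects inseparability of specialization pairs. -/
def RSI : MP.{u} := fun _ _ p => ∀ x x', x ⤳ x' → Inseparable (p x) (p x') → Inseparable x x'
/-- Lifts specializations. -/
def RC : MP.{u} := fun _ _ p => ∀ x y, p x ⤳ y → ∃ x', x ⤳ x' ∧ p x' = y
/-- Split by a continuous section. -/
def Split : MP.{u} := fun X Y f => ∃ s : Y → X, Continuous s ∧ ∀ y, f (s y) = y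
/-- Split by a continuous section of fibrewise generic points. -/
def GS : MP.{u} := fun X Y f => ∃ s : Y → X, Continuous s ∧ (∀ y, f (s y) = y) ∧
  ∀ x, s (f x) ⤳ x
/-- All morphisms. -/
def All : MP.{u} := fun _ _ _ => True
/-- Homeomorphisms, pointwise. -/
def Iso' : MP.{u} := fun _ _ f => Function.Bijective f ∧ IsInducing f

end Helper98.QN
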