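import Pool.Agent.Helper98.QNDis

/-!
Non-closed ranges and lifting of specializations.
-/

universe u

open CategoryTheory Topology

namespace Helper98.QN

lemma rlp_pullback {M : MP.{u}} {A B : TopCat.{u}} {g : A ⟶ B} (hg : M.rlp g) {W : Type u}
    [TopologicalSpace W] (w : W → B) (hw : Continuous w) :
    M.rlp (mk (fun z : {z : A × W // g z.1 = w z.2} => z.1.2)
      (continuous_snd.comp continuous_subtype_val)) := by
  rw [rlp_iff]
  intro C D m hm a b ha hb hab
  obtain ⟨k, hk, h1, h2⟩ := (rlp_iff g).1 hg m hm (fun c => (a c).1.1) (fun d => w (b d))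
    (continuous_fst.comp (continuous_subtype_val.comp ha)) (hw.comp hb) (by
      intro t
      have h3 : (a t).1.2 = b (m t) := hab t
      have h4 := (a t).2
      rw [h3] at h4
      exact h4)
  refine ⟨fun d => ⟨(k d, b d), h2 d⟩, (hk.prodMk hb).subtype_mk _, ?_, fun t => rfl⟩
  intro t
  apply Subtype.ext
  apply Prod.ext
  · exact h1 t
  · exact (hab t).symm

/-- `B` with all points but `b` isolated and neighbourhoods of `b` generated by the traces of
neighbourhoods of `b` on the range of `g`. -/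
def Tr {A B : Type u} (_ : A → B) (_ : B) : Type u := B

namespace Tr

variable {A B : Type u} [TopologicalSpace B] (g : A → B) (b : B)

/-- the underlying point -/
def pt (y : B) : Tr g b := y
/-- the underlying point -/
def val : Tr g b → B := fun y => y

instance : TopologicalSpace (Tr g b) where
  IsOpen O := pt g b b ∈ O → ∃ V : Set B, IsOpen V ∧ b ∈ V ∧ ∀ a, g a ∈ V → pt g b (g a) ∈ O
  isOpen_univ := fun _ => ⟨Set.univ, isOpen_univ, trivial, fun _ _ => trivial⟩
  isOpen_inter s t hs ht := by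
    rintro ⟨h1, h2⟩
    obtain ⟨V, hV, hbV, hVs⟩ := hs h1
    obtain ⟨W, hW, hbW, hWt⟩ := ht h2
    exact ⟨V ∩ W, hV.inter hW, ⟨hbV, hbW⟩, fun a ha => ⟨hVs a ha.1, hWt a ha.2⟩⟩
  isOpen_sUnion S hS := by
    rintro ⟨t, ht, h1⟩
    obtain ⟨V, hV, hbV, hVs⟩ := hS t ht h1
    exact ⟨V, hV, hbV, fun a ha => ⟨t, ht, hVs a ha⟩⟩

lemma isOpen_iff {O : Set (Tr g b)} : IsOpen O ↔
    (pt g b b ∈ O → ∃ V : Set B, IsOpen V ∧ b ∈ V ∧ ∀ a, g a ∈ V → pt g b (g a) ∈ O) := Iff.rfl

lemma continuous_val : Continuous (val g b) :=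
  ⟨fun V hV hb => ⟨V, hV, hb, fun _ ha => ha⟩⟩

end Tr

/-- P6 -/
lemma rlp_rlp_le_RC {M : MP.{u}} {A B : TopCat.{u}} {g : A ⟶ B} (hg : M.rlp g)
    (hr : ¬ IsClosed (Set.range g)) : M.rlp.rlp ≤ RC := by
  classical
  obtain ⟨b, hb, hb'⟩ : ∃ b, b ∈ closure (Set.range g) ∧ b ∉ Set.range g := by
    by_contra hcon
    push Not at hcon
    exact hr (isClosed_of_closure_subset hcon)
  intro X Y q hq x y hxy
  obtain ⟨k, hk, h1, h2⟩ := (rlp_iff q).1 hq _ (rlp_pullback hg (Tr.val g b) (Tr.continuous_val g b))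
    (fun _ => x) (fun w => if Tr.val g b w ∈ Set.range g then q x else y)
    continuous_const (by
      rw [continuous_def]
      intro O hO
      refine (Tr.isOpen_iff g b).2 fun h => ?_
      have h' : (if b ∈ Set.range g then q x else y) ∈ O := h
      rw [if_neg hb'] at h'
      refine ⟨Set.univ, isOpen_univ, trivial, fun a _ => ?_⟩
      show (if g a ∈ Set.range g then q x else y) ∈ O
      rw [if_pos ⟨a, rfl⟩]
      exact hxy.mem_open hO h') (by
      rintro ⟨⟨a, w⟩, haw⟩
      show q x = if Tr.val g b w ∈ Set.range g then q x else y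
      rw [if_pos ⟨a, haw⟩])
  refine ⟨k (Tr.pt g b b), ?_, ?_⟩
  · rw [specializes_iff_forall_open]
    intro O hO hbO
    obtain ⟨V, hV, hbV, hVO⟩ := (Tr.isOpen_iff g b).1 (hO.preimage hk) hbO
    rw [mem_closure_iff] at hb
    obtain ⟨_, h3, a, rfl⟩ := hb V hV hbV
    have h4 := hVO a h3
    have h5 := h1 ⟨(a, Tr.pt g b (g a)), rfl⟩
    have h6 : k (Tr.pt g b (g a)) = x := h5
    have h7 : k (Tr.pt g b (g a)) ∈ O := h4
    rwa [h6] at h7
  · rw [h2]
    show (if b ∈ Set.range g then q x else y) = y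
    rw [if_neg hb']

end Helper98.QN
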