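import Mathlib

/-!
Combinatorial part: a monoid generated by two operators `l`, `r` with `lrl = l`, `rlr = r` and in
which six particular words have finite range is finite.
-/

namespace Helper98.QNComb

/-- The two letters. -/
inductive Letter : Type
  | l : Letter
  | r : Letter
  deriving DecidableEq, Fintype

open Letter

/-- The operator attached to a word, letters being applied from left to right. -/
def W {α : Type*} (op : Letter → α → α) (w : List Letter) (P : α) : α :=
  w.foldl (fun Q a => op a Q) P

section

variable {α : Type*} (op : Letter → α → α)

@[simp] lemma W_nil (P : α) : W op [] P = P := rfl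

@[simp] lemma W_cons (a : Letter) (w : List Letter) (P : α) :
    W op (a :: w) P = W op w (op a P) := rfl

lemma W_append (u v : List Letter) (P : α) : W op (u ++ v) P = W op v (W op u P) := by
  simp [W, List.foldl_append]

end

/-- The six words with finite range. -/
def special : List (List Letter) :=
  [[r, r, r, r, r], [l, l, l, l], [l, l, r, r, r, r], [l, l, r, r, r, l, l],
    [l, l, r, r, l, l, l], [l, l, r, r, l, l, r, r]]

/-- special words and reducible words -/
def bad : List (List Letter) := [l, r, l] :: [r, l, r] :: special

/-- does the reversed word `p` start with the reverse of a bad word? -/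
def hasBad (p : List Letter) : Bool := bad.any fun b => b.reverse.isPrefixOf p

/-- checker -/
def chk : ℕ → List Letter → Bool
  | 0, p => hasBad p
  | n + 1, p => hasBad p || (chk n (l :: p) && chk n (r :: p))

lemma hasBad_sound (p : List Letter) (h : hasBad p = true) (w : List Letter) :
    ∃ b ∈ bad, b <:+: p.reverse ++ w := by
  unfold hasBad at h
  rw [List.any_eq_true] at h
  obtain ⟨b, hb, hp⟩ := h
  refine ⟨b, hb, ?_⟩
  rw [List.isPrefixOf_iff_prefix] at hp
  obtain ⟨t, ht⟩ := hp
  refine ⟨t.reverse, w, ?_⟩
  rw [← ht]
  simp

lemma chk_sound : ∀ (n : ℕ) (p : List Letter), chk n p = true → ∀ w : List Letter,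
    w.length = n → ∃ b ∈ bad, b <:+: p.reverse ++ w
  | 0, p, h, w, _ => hasBad_sound p h w
  | n + 1, p, h, w, hw => by
    rw [chk, Bool.or_eq_true, Bool.and_eq_true] at h
    rcases h with h | ⟨h1, h2⟩
    · exact hasBad_sound p h w
    · cases w with
      | nil => simp at hw
      | cons a w =>
        have hw' : w.length = n := by simpa using hw
        have : p.reverse ++ a :: w = (a :: p).reverse ++ w := by simp
        rw [this]
        cases a with
        | l => exact chk_sound n _ h1 w hw'
        | r => exact chk_sound n _ h2 w hw'

lemma exists_bad (w : List Letter) (hw : w.length = 14) : ∃ b ∈ bad, b <:+: w := by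
  have := chk_sound 14 [] (by decide) w hw
  simpa using this

section

variable {α : Type*} (op : Letter → α → α)

/-- The classes in the range of a special word. -/
def Phi : Set α := {Q | ∃ s ∈ special, Q ∈ Set.range (W op s)}

/-- words of length at most 14 -/
def short : Set (List Letter) := {w | w.length ≤ 14}

lemma short_finite : short.Finite := List.finite_length_le Letter 14

/-- The classes obtained from `Phi` by short words. -/
def Psi : Set α := Set.image2 (W op) short (Phi op)

variable (hl : ∀ P, op l (op r (op l P)) = op l P) (hr : ∀ P, op r (op l (op r P)) = op r P)
include hl hr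

lemma orbit (n : ℕ) : ∀ v : List Letter, v.length = n → ∀ P ∈ Phi op, W op v P ∈ Psi op := by
  induction n using Nat.strong_induction_on with
  | _ n ih =>
    intro v hv P hP
    by_cases hn : v.length ≤ 14
    · exact ⟨v, hn, P, hP, rfl⟩
    · push Not at hn
      have hdrop : (v.drop (v.length - 14)).length = 14 := by
        rw [List.length_drop]; omega
      obtain ⟨b, hb, y1, y2, hy⟩ := exists_bad _ hdrop
      have hv' : v = v.take (v.length - 14) ++ (y1 ++ b ++ y2) := by
        rw [hy, List.take_append_drop]
      have hlen := congrArg List.length hv'
      simp only [List.length_append] at hlen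
      simp only [bad, List.mem_cons] at hb
      rcases hb with rfl | rfl | hb
      · have h1 : W op v P = W op (v.take (v.length - 14) ++ (y1 ++ [l] ++ y2)) P := by
          conv_lhs => rw [hv']
          simp only [W_append, W_cons, W_nil, hl]
        rw [h1]
        refine ih _ ?_ _ rfl P hP
        simp only [List.length_append, List.length_cons, List.length_nil] at hlen ⊢
        omega
      · have h1 : W op v P = W op (v.take (v.length - 14) ++ (y1 ++ [r] ++ y2)) P := by
          conv_lhs => rw [hv']
          simp only [W_append, W_cons, W_nil, hr]
        rw [h1]
        refine ih _ ?_ _ rfl P hP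
        simp only [List.length_append, List.length_cons, List.length_nil] at hlen ⊢
        omega
      · refine ⟨y2, ?_, W op b (W op (v.take (v.length - 14) ++ y1) P), ⟨b, hb, _, rfl⟩, ?_⟩
        · show y2.length ≤ 14
          have := congrArg List.length hy
          simp only [List.length_append] at this
          omega
        · conv_rhs => rw [hv']
          simp only [W_append]

open Classical in
lemma decomp (n : ℕ) : ∀ w : List Letter, w.length = n →
    W op w ∈ (W op '' short) ∪ Set.range (fun z : short × (Phi op → Psi op) => fun P : α =>
      if h : W op z.1 P ∈ Phi op then (z.2 ⟨_, h⟩ : α) else P) := by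
  induction n using Nat.strong_induction_on with
  | _ n ih =>
    intro v hv
    by_cases hn : v.length ≤ 14
    · exact Or.inl ⟨v, hn, rfl⟩
    · push Not at hn
      have htake : (v.take 14).length = 14 := by
        rw [List.length_take]; omega
      obtain ⟨b, hb, y1, y2, hy⟩ := exists_bad _ htake
      have hv' : v = (y1 ++ b ++ y2) ++ v.drop 14 := by
        rw [hy, List.take_append_drop]
      have hlen := congrArg List.length hv'
      simp only [List.length_append] at hlen
      simp only [bad, List.mem_cons] at hb
      rcases hb with rfl | rfl | hb
      · have h1 : W op v = W op ((y1 ++ [l] ++ y2) ++ v.drop 14) := by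
          funext P
          conv_lhs => rw [hv']
          simp only [W_append, W_cons, W_nil, hl]
        rw [h1]
        refine ih _ ?_ _ rfl
        simp only [List.length_append, List.length_cons, List.length_nil] at hlen ⊢
        omega
      · have h1 : W op v = W op ((y1 ++ [r] ++ y2) ++ v.drop 14) := by
          funext P
          conv_lhs => rw [hv']
          simp only [W_append, W_cons, W_nil, hr]
        rw [h1]
        refine ih _ ?_ _ rfl
        simp only [List.length_append, List.length_cons, List.length_nil] at hlen ⊢
        omega
      · right
        have hs : y1 ++ b ∈ short := by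
          show (y1 ++ b).length ≤ 14
          have := congrArg List.length hy
          simp only [List.length_append] at this ⊢
          omega
        refine ⟨(⟨y1 ++ b, hs⟩, fun Q => ⟨W op (y2 ++ v.drop 14) Q.1,
          orbit op hl hr _ _ rfl _ Q.2⟩), ?_⟩
        funext P
        have hP : W op (y1 ++ b) P ∈ Phi op := by
          rw [W_append]
          exact ⟨b, hb, _, rfl⟩
        dsimp only
        rw [dif_pos hP]
        conv_rhs => rw [hv']
        simp only [W_append]

/-- The main combinatorial statement. -/
theorem finite_range (hfin : ∀ s ∈ special, (Set.range (W op s)).Finite) :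
    (Set.range (W op)).Finite := by
  classical
  have hPhi : (Phi op).Finite := by
    have : Phi op = ⋃ s ∈ {s | s ∈ special}, Set.range (W op s) := by
      ext Q; simp [Phi]
    rw [this]
    exact Set.Finite.biUnion (List.finite_toSet special) hfin
  have hPsi : (Psi op).Finite := Set.Finite.image2 _ short_finite hPhi
  have h1 : Finite (Phi op) := hPhi
  have h2 : Finite (Psi op) := hPsi
  have h3 : Finite short := short_finite
  refine Set.Finite.subset ((short_finite.image (W op)).union
    (Set.finite_range (fun z : short × (Phi op → Psi op) => fun P : α =>
      if h : W op z.1 P ∈ Phi op then (z.2 ⟨_, h⟩ : α) else P))) ?_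
  rintro _ ⟨w, rfl⟩
  exact decomp op hl hr _ w rfl

end

end Helper98.QNComb
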