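import Pool.Agent.Helper98.QNTest

/-!
`RS.llp.llp ≤ Fin ⊓ Inj` and `RSI.llp.llp ≤ Fin`.
-/

universe u

open CategoryTheory Topology

namespace Helper98.QN

/-- Mapping-cylinder-like space `X ⊔ Y` in which `x` specializes to `f x`. -/
def Cyl {X Y : Type u} (_ : X → Y) : Type u := X ⊕ Y

namespace Cyl

variable {X Y : Type u} [TopologicalSpace X] [TopologicalSpace Y] (f : X → Y)

/-- left inclusion -/
def inl (x : X) : Cyl f := Sum.inl x
/-- right inclusion -/
def inr (y : Y) : Cyl f := Sum.inr y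

instance : TopologicalSpace (Cyl f) where
  IsOpen O := IsOpen (inl f ⁻¹' O) ∧ IsOpen (inr f ⁻¹' O) ∧ ∀ x, inr f (f x) ∈ O → inl f x ∈ O
  isOpen_univ := ⟨isOpen_univ, isOpen_univ, fun _ _ => trivial⟩
  isOpen_inter s t hs ht := ⟨hs.1.inter ht.1, hs.2.1.inter ht.2.1,
    fun x hx => ⟨hs.2.2 x hx.1, ht.2.2 x hx.2⟩⟩
  isOpen_sUnion S hS := by
    refine ⟨?_, ?_, ?_⟩
    · rw [Set.preimage_sUnion]
      exact isOpen_biUnion fun t ht => (hS t ht).1
    · rw [Set.preimage_sUnion]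
      exact isOpen_biUnion fun t ht => (hS t ht).2.1
    · rintro x ⟨t, ht, hx⟩
      exact ⟨t, ht, (hS t ht).2.2 x hx⟩

lemma isOpen_iff {O : Set (Cyl f)} : IsOpen O ↔
    IsOpen (inl f ⁻¹' O) ∧ IsOpen (inr f ⁻¹' O) ∧ ∀ x, inr f (f x) ∈ O → inl f x ∈ O := Iff.rfl

lemma continuous_inl : Continuous (inl f) := ⟨fun _ h => h.1⟩
lemma continuous_inr : Continuous (inr f) := ⟨fun _ h => h.2.1⟩

/-- the projection to `Y` -/
def proj : Cyl f → Y := fun z => Sum.elim f id z

omit [TopologicalSpace X] [TopologicalSpace Y] in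
@[simp] lemma proj_inl (x : X) : proj f (inl f x) = f x := rfl
omit [TopologicalSpace X] [TopologicalSpace Y] in
@[simp] lemma proj_inr (y : Y) : proj f (inr f y) = y := rfl

lemma continuous_proj (hf : Continuous f) : Continuous (proj f) :=
  ⟨fun _ h => ⟨h.preimage hf, h, fun _ hx => hx⟩⟩

lemma specializes (x : X) : inl f x ⤳ inr f (f x) := by
  rw [specializes_iff_forall_open]
  intro s hs h
  exact hs.2.2 x h

omit [TopologicalSpace X] [TopologicalSpace Y] in
lemma cases (z : Cyl f) : (∃ x, z = inl f x) ∨ ∃ y, z = inr f y := by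
  rcases z with x | y
  · exact Or.inl ⟨x, rfl⟩
  · exact Or.inr ⟨y, rfl⟩

omit [TopologicalSpace X] [TopologicalSpace Y] in
lemma inl_injective : Function.Injective (inl f) := fun _ _ h => Sum.inl.inj h

omit [TopologicalSpace X] [TopologicalSpace Y] in
lemma inl_ne_inr (x : X) (y : Y) : inl f x ≠ inr f y := fun h => by cases h

lemma mem_llp_RS (hf : Continuous f) : RS.{u}.llp (mk (proj f) (continuous_proj f hf)) := by
  rw [llp_iff]
  intro E F p hp u v hu hv huv
  refine ⟨fun y => u (inr f y), hu.comp (continuous_inr f), ?_, fun y => huv (inr f y)⟩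
  intro z
  rcases cases f z with ⟨x, rfl⟩ | ⟨y, rfl⟩
  · exact (hp (u (inl f x)) (u (inr f (f x))) ((specializes f x).map hu) (by rw [huv, huv]; rfl)).symm
  · rfl

end Cyl

/-- The blow-up of `Y` used to see that `{y₀}` is open. -/
def Blow {Y : Type u} (_ : Y) : Type u := Y × Option ℕ

namespace Blow

variable {Y : Type u} [TopologicalSpace Y] (y₀ : Y)

/-- points -/
def pt (y : Y) (j : Option ℕ) : Blow y₀ := (y, j)

/-- projection -/
def proj : Blow y₀ → Y := fun z => z.1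

omit [TopologicalSpace Y] in
@[simp] lemma proj_pt (y : Y) (j : Option ℕ) : proj y₀ (pt y₀ y j) = y := rfl

omit [TopologicalSpace Y] in
lemma exists_eq (z : Blow y₀) : ∃ y j, z = pt y₀ y j := ⟨z.1, z.2, rfl⟩

omit [TopologicalSpace Y] in
lemma pt_inj {y y' : Y} {j j' : Option ℕ} (h : pt y₀ y j = pt y₀ y' j') : y = y' ∧ j = j' :=
  ⟨congrArg Prod.fst h, congrArg Prod.snd h⟩

/-- openness -/
def IsO (O : Set (Blow y₀)) : Prop :=
  (∀ y, y ≠ y₀ → pt y₀ y none ∈ O → ∃ V, IsOpen V ∧ y ∈ V ∧ ∀ z, proj y₀ z ∈ V → z ∈ O) ∧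
  (∀ j, pt y₀ y₀ j ∈ O → (∀ j', pt y₀ y₀ j' ∈ O) ∧ ∃ V, IsOpen V ∧ y₀ ∈ V ∧
    ∀ y ∈ V, y ≠ y₀ → {j | pt y₀ y j ∉ O}.Finite)

instance : TopologicalSpace (Blow y₀) where
  IsOpen O := IsO y₀ O
  isOpen_univ := ⟨fun y _ _ => ⟨Set.univ, isOpen_univ, trivial, fun _ _ => trivial⟩,
    fun _ _ => ⟨fun _ => trivial, Set.univ, isOpen_univ, trivial, fun y _ _ => by simp⟩⟩
  isOpen_inter s t hs ht := by
    refine ⟨?_, ?_⟩
    · rintro y hy ⟨h1, h2⟩
      obtain ⟨V, hV, hyV, hVs⟩ := hs.1 y hy h1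
      obtain ⟨W, hW, hyW, hWs⟩ := ht.1 y hy h2
      exact ⟨V ∩ W, hV.inter hW, ⟨hyV, hyW⟩, fun z hz => ⟨hVs z hz.1, hWs z hz.2⟩⟩
    · rintro j ⟨h1, h2⟩
      obtain ⟨h3, V, hV, hyV, hVs⟩ := hs.2 j h1
      obtain ⟨h4, W, hW, hyW, hWs⟩ := ht.2 j h2
      refine ⟨fun j' => ⟨h3 j', h4 j'⟩, V ∩ W, hV.inter hW, ⟨hyV, hyW⟩, ?_⟩
      rintro y ⟨hy1, hy2⟩ hy
      refine ((hVs y hy1 hy).union (hWs y hy2 hy)).subset ?_
      intro j hj
      by_contra hcon
      apply hj
      simp only [Set.mem_union, Set.mem_ofPred_eq, not_or, not_not] at hcon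
      exact hcon
  isOpen_sUnion S hS := by
    refine ⟨?_, ?_⟩
    · rintro y hy ⟨t, ht, h1⟩
      obtain ⟨V, hV, hyV, hVs⟩ := (hS t ht).1 y hy h1
      exact ⟨V, hV, hyV, fun z hz => ⟨t, ht, hVs z hz⟩⟩
    · rintro j ⟨t, ht, h1⟩
      obtain ⟨h3, V, hV, hyV, hVs⟩ := (hS t ht).2 j h1
      refine ⟨fun j' => ⟨t, ht, h3 j'⟩, V, hV, hyV, ?_⟩
      intro y hy1 hy
      refine (hVs y hy1 hy).subset ?_
      intro j hj hj'
      exact hj ⟨t, ht, hj'⟩

lemma isOpen_iff {O : Set (Blow y₀)} : IsOpen O ↔ IsO y₀ O := Iff.rfl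

lemma continuous_proj : Continuous (proj y₀) := by
  constructor
  intro V hV
  refine ⟨fun y _ hy => ⟨V, hV, hy, fun z hz => hz⟩, fun j hj => ⟨fun j' => hj, V, hV, hj, ?_⟩⟩
  intro y hy _
  have : {j : Option ℕ | pt y₀ y j ∉ proj y₀ ⁻¹' V} = ∅ := by
    ext j; simpa using hy
  rw [this]; exact Set.finite_empty

lemma specializes {y : Y} (hy : y ≠ y₀) (j : Option ℕ) : pt y₀ y j ⤳ pt y₀ y none := by
  rw [specializes_iff_forall_open]
  intro s hs h
  obtain ⟨V, hV, hyV, hVs⟩ := hs.1 y hy h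
  exact hVs _ hyV

lemma specializes₀ (j j' : Option ℕ) : pt y₀ y₀ j ⤳ pt y₀ y₀ j' := by
  rw [specializes_iff_forall_open]
  intro s hs h
  exact (hs.2 j' h).1 j

lemma mem_llp_RS : RS.{u}.llp (mk (proj y₀) (continuous_proj y₀)) := by
  rw [llp_iff]
  intro E F p hp u v hu hv huv
  have key : ∀ y j, u (pt y₀ y j) = u (pt y₀ y none) := by
    intro y j
    apply hp
    · by_cases hy : y = y₀
      · subst hy
        exact (specializes₀ y j none).map hu
      · exact (specializes y₀ hy j).map hu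
    · rw [huv, huv]; rfl
  refine ⟨fun y => u (pt y₀ y none), ?_, ?_, fun y => huv (pt y₀ y none)⟩
  · rw [continuous_def]
    intro O hO
    have hO' : IsO y₀ (u ⁻¹' O) := hO.preimage hu
    rw [isOpen_iff_forall_mem_open]
    intro y hy
    by_cases hyy : y = y₀
    · subst hyy
      obtain ⟨-, V, hV, hyV, hVs⟩ := hO'.2 none hy
      refine ⟨V, ?_, hV, hyV⟩
      intro y' hy'
      by_cases h' : y' = y
      · subst h'; exact hy
      · obtain ⟨j, hj⟩ := (hVs y' hy' h').exists_notMem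
        have hj' : u (pt y y' j) ∈ O := by
          by_contra hcon; exact hj hcon
        rw [key] at hj'; exact hj'
    · obtain ⟨V, hV, hyV, hVs⟩ := hO'.1 y hyy hy
      refine ⟨V, fun y' hy' => hVs (pt y₀ y' none) hy', hV, hyV⟩
  · intro z
    obtain ⟨y, j, rfl⟩ := exists_eq y₀ z
    exact (key y j).symm

end Blow

/-- P4, part 1. -/
lemma RS_llp_llp_inj_open {X Y : TopCat.{u}} {f : X ⟶ Y} (hf : RS.{u}.llp.llp f) :
    Function.Injective f ∧ IsOpenMap f := by
  have hfc : Continuous f := f.hom.continuous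
  obtain ⟨k, hk, h1, h2⟩ := (llp_iff f).1 hf _ (Cyl.mem_llp_RS f hfc) (Cyl.inl f) id
    (Cyl.continuous_inl f) continuous_id (fun t => rfl)
  constructor
  · intro x x' hxx'
    apply Cyl.inl_injective f
    rw [← h1, ← h1, hxx']
  · intro U hU
    have : IsOpen (Cyl.inl f '' U) := by
      rw [Cyl.isOpen_iff]
      refine ⟨?_, ?_, ?_⟩
      · rwa [Set.preimage_image_eq _ (Cyl.inl_injective f)]
      · convert isOpen_empty
        ext y
        simp only [Set.mem_preimage, Set.mem_image, Set.mem_empty_iff_false, iff_false]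
        rintro ⟨x, -, hx⟩
        exact Cyl.inl_ne_inr f _ _ hx
      · rintro x ⟨x', -, hx⟩
        exact absurd hx (Cyl.inl_ne_inr f _ _)
    have h3 := this.preimage hk
    convert h3 using 1
    ext y
    constructor
    · rintro ⟨x, hx, rfl⟩
      exact ⟨x, hx, (h1 x).symm⟩
    · rintro ⟨x, hx, hxy⟩
      refine ⟨x, hx, ?_⟩
      have h4 := h2 y
      rw [← hxy] at h4
      exact h4

/-- P4, part 2. -/
lemma RS_llp_llp_pt {X Y : TopCat.{u}} {f : X ⟶ Y} (hf : RS.{u}.llp.llp f) (y₀ : Y)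
    (hy₀ : ∀ x, f x ≠ y₀) : IsOpen {y₀} := by
  have hfc : Continuous f := f.hom.continuous
  have hu : Continuous (fun x => Blow.pt y₀ (f x) none) := by
    rw [continuous_def]
    intro O hO
    rw [isOpen_iff_forall_mem_open]
    intro x hx
    obtain ⟨V, hV, hyV, hVs⟩ := ((Blow.isOpen_iff y₀).1 hO).1 (f x) (hy₀ x) hx
    exact ⟨f ⁻¹' V, fun x' hx' => hVs _ hx', hV.preimage hfc, hyV⟩
  obtain ⟨k, hk, h1, h2⟩ := (llp_iff f).1 hf _ (Blow.mem_llp_RS y₀)
    (fun x => Blow.pt y₀ (f x) none) id hu continuous_id (fun t => rfl)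
  let O : Set (Blow y₀) := {z | Blow.proj y₀ z = y₀ ∨ (z ≠ k (Blow.proj y₀ z) ∧
    z ≠ Blow.pt y₀ (Blow.proj y₀ z) none)}
  have hO : IsOpen O := by
    rw [Blow.isOpen_iff]
    constructor
    · intro y hy hy'
      rcases hy' with h | ⟨-, h⟩
      · exact absurd h hy
      · exact absurd rfl h
    · intro j _
      refine ⟨fun j' => Or.inl rfl, Set.univ, isOpen_univ, trivial, ?_⟩
      intro y _ hy
      obtain ⟨y', j', hj'⟩ := Blow.exists_eq y₀ (k y)
      refine (Set.toFinite {j', none}).subset ?_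
      intro j hj
      by_contra hcon
      apply hj
      simp only [Set.mem_insert_iff, Set.mem_singleton_iff, not_or] at hcon
      refine Or.inr ⟨fun h => hcon.1 ?_, fun h => hcon.2 ?_⟩
      · rw [Blow.proj_pt, hj'] at h
        exact (Blow.pt_inj y₀ h).2
      · exact (Blow.pt_inj y₀ h).2
  have h3 := hO.preimage hk
  convert h3 using 1
  ext y
  have h4 : Blow.proj y₀ (k y) = y := h2 y
  constructor
  · intro hy
    left
    rw [h4]; exact hy
  · rintro (hy | ⟨hy, -⟩)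
    · rw [h4] at hy; exact hy
    · rw [h4] at hy; exact absurd rfl hy

/-- P4 -/
lemma RS_llp_llp_le : RS.{u}.llp.llp ≤ Fin ⊓ Inj := by
  intro X Y f hf
  obtain ⟨h1, h2⟩ := RS_llp_llp_inj_open hf
  refine ⟨?_, h1⟩
  intro V hV
  have h3 : V = f '' (f ⁻¹' V) ∪ ⋃ y ∈ {y | y ∈ V ∧ ∀ x, f x ≠ y}, {y} := by
    ext y
    simp only [Set.mem_union, Set.mem_image, Set.mem_preimage, Set.mem_iUnion, Set.mem_ofPred_eq,
      Set.mem_singleton_iff, exists_prop]
    constructor
    · intro hy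
      by_cases hx : ∃ x, f x = y
      · obtain ⟨x, rfl⟩ := hx
        exact Or.inl ⟨x, hy, rfl⟩
      · push Not at hx
        exact Or.inr ⟨y, ⟨hy, hx⟩, rfl⟩
    · rintro (⟨x, hx, rfl⟩ | ⟨y', hy', rfl⟩)
      · exact hx
      · exact hy'.1
  rw [h3]
  refine (h2 _ hV).union (isOpen_biUnion fun y hy => ?_)
  exact RS_llp_llp_pt hf y hy.2

lemma llp_llp_le_dis {K : MP.{u}} (h : K ≤ RS) : K.llp.llp ≤ Fin ⊓ Inj :=
  le_trans (MorphismProperty.antitone_llp (MorphismProperty.antitone_llp h)) RS_llp_llp_le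

lemma true_specializes_false : (True : Prop) ⤳ False := by
  rw [Specializes, nhds_false]; exact le_top

/-- The map `Y × Sierpinski → Y × Indiscrete` belongs to `RSI.llp`. -/
lemma mem_llp_RSI (Y : Type u) [TopologicalSpace Y] :
    RSI.{u}.llp (mk (fun z : Y × Prop => ((z.1, ⟨z.2⟩) : Y × Triv Prop))
      (continuous_fst.prodMk (continuous_triv _))) := by
  rw [llp_iff]
  intro E F p hp u v hu hv huv
  have key : ∀ y, Inseparable (u (y, True)) (u (y, False)) := by
    intro y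
    apply hp
    · refine Specializes.map ?_ hu
      exact specializes_rfl.prod true_specializes_false
    · rw [huv, huv]
      refine Inseparable.map ?_ hv
      exact Inseparable.prod rfl (inseparable_triv _ _)
  have key' : ∀ y q, Inseparable (u (y, q)) (u (y, False)) := by
    intro y q
    by_cases hq : q
    · rw [eq_true hq]; exact key y
    · rw [eq_false hq]
  refine ⟨fun z => u (z.1, z.2.val), ?_, fun _ => rfl, fun z => huv (z.1, z.2.val)⟩
  rw [continuous_def]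
  intro O hO
  have h1 : IsOpen {y : Y | u (y, False) ∈ O} :=
    hO.preimage (hu.comp (continuous_id.prodMk continuous_const))
  convert h1.preimage (continuous_fst : Continuous (Prod.fst : Y × Triv Prop → Y)) using 1
  ext z
  exact (key' z.1 z.2.val).mem_open_iff hO

/-- P5 -/
lemma RSI_llp_llp_le : RSI.{u}.llp.llp ≤ Fin := by
  intro X Y f hf V hV
  have hfc : Continuous f := f.hom.continuous
  obtain ⟨k, hk, h1, h2⟩ := (llp_iff f).1 hf _ (mem_llp_RSI Y)
    (fun x => (f x, f x ∈ V)) (fun y => (y, ⟨y ∈ V⟩))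
    (hfc.prodMk (continuous_Prop.2 hV)) (continuous_id.prodMk (continuous_triv _)) (fun t => rfl)
  have h3 : ∀ y, (k y).2 = (y ∈ V) := by
    intro y
    have h4 := congrArg (fun z : Y × Triv Prop => z.2.val) (h2 y)
    exact h4
  have h5 : Continuous (fun y => (k y).2) := continuous_snd.comp hk
  rw [continuous_Prop] at h5
  simpa [h3] using h5

lemma llp_llp_le_fin {K : MP.{u}} (h : K ≤ RSI) : K.llp.llp ≤ Fin :=
  le_trans (MorphismProperty.antitone_llp (MorphismProperty.antitone_llp h)) RSI_llp_llp_le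

end Helper98.QN
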