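import Pool.Agent.Helper98.QNClosed

/-!
Pigeonhole constructions: `M ≤ Dom → M.rlp.rlp ≤ GS` and the `Emb.rlp` lemma.
-/

universe u

open CategoryTheory Topology

namespace Helper98.QN

lemma exists_big (T : Type u) : ∃ Z : Type u, ∀ F : Z → T, ∃ t, (F ⁻¹' {t}).Infinite := by
  refine ⟨Set (T × ULift.{u} ℕ), fun F => ?_⟩
  have : Nonempty T := ⟨F ∅⟩
  obtain ⟨⟨t, n⟩, ht⟩ := Cardinal.exists_infinite_fiber'
    (fun z : Set (T × ULift.{u} ℕ) => (F z, (⟨0⟩ : ULift.{u} ℕ))) (by
      rw [Cardinal.mk_set]; exact Cardinal.cantor _)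
  refine ⟨t, ?_⟩
  rw [Set.infinite_coe_iff] at ht
  refine ht.mono ?_
  intro z hz
  exact congrArg Prod.fst hz

/-- The space `X ⊔ Y × Z` in which, near `x`, almost all copies of a neighbourhood of `f x` are
glued. -/
def Fan {X Y : Type u} (_ : X → Y) (Z : Type u) : Type u := X ⊕ (Y × Z)

namespace Fan

variable {X Y : Type u} [TopologicalSpace X] [TopologicalSpace Y] (f : X → Y) (Z : Type u)

/-- left inclusion -/
def inl (x : X) : Fan f Z := Sum.inl x
/-- right inclusion -/
def inr (y : Y) (z : Z) : Fan f Z := Sum.inr (y, z)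

/-- openness -/
def IsO (O : Set (Fan f Z)) : Prop :=
  IsOpen {x | inl f Z x ∈ O} ∧ (∀ z, IsOpen {y | inr f Z y z ∈ O}) ∧
    ∀ x, inl f Z x ∈ O → ∃ V : Set Y, IsOpen V ∧ f x ∈ V ∧ {z | ¬ ∀ y ∈ V, inr f Z y z ∈ O}.Finite

instance : TopologicalSpace (Fan f Z) where
  IsOpen O := IsO f Z O
  isOpen_univ := ⟨isOpen_univ, fun _ => isOpen_univ, fun x _ =>
    ⟨Set.univ, isOpen_univ, trivial, by simp⟩⟩
  isOpen_inter s t hs ht := by
    refine ⟨hs.1.inter ht.1, fun z => (hs.2.1 z).inter (ht.2.1 z), ?_⟩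
    rintro x ⟨h1, h2⟩
    obtain ⟨V, hV, hxV, hVs⟩ := hs.2.2 x h1
    obtain ⟨W, hW, hxW, hWt⟩ := ht.2.2 x h2
    refine ⟨V ∩ W, hV.inter hW, ⟨hxV, hxW⟩, (hVs.union hWt).subset ?_⟩
    intro z hz
    by_contra hcon
    simp only [Set.mem_union, Set.mem_ofPred_eq, not_or, not_not] at hcon
    exact hz fun y hy => ⟨hcon.1 y hy.1, hcon.2 y hy.2⟩
  isOpen_sUnion S hS := by
    refine ⟨?_, ?_, ?_⟩
    · have : {x | inl f Z x ∈ ⋃₀ S} = ⋃ t ∈ S, {x | inl f Z x ∈ t} := by ext x; simp
      rw [this]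
      exact isOpen_biUnion fun t ht => (hS t ht).1
    · intro z
      have : {y | inr f Z y z ∈ ⋃₀ S} = ⋃ t ∈ S, {y | inr f Z y z ∈ t} := by ext x; simp
      rw [this]
      exact isOpen_biUnion fun t ht => (hS t ht).2.1 z
    · rintro x ⟨t, ht, h1⟩
      obtain ⟨V, hV, hxV, hVs⟩ := (hS t ht).2.2 x h1
      refine ⟨V, hV, hxV, hVs.subset ?_⟩
      intro z hz h
      exact hz fun y hy => ⟨t, ht, h y hy⟩

lemma isOpen_iff {O : Set (Fan f Z)} : IsOpen O ↔ IsO f Z O := Iff.rfl

/-- projection -/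
def proj : Fan f Z → Y := fun w => Sum.elim f Prod.fst w

omit [TopologicalSpace X] [TopologicalSpace Y] in
@[simp] lemma proj_inl (x : X) : proj f Z (inl f Z x) = f x := rfl
omit [TopologicalSpace X] [TopologicalSpace Y] in
@[simp] lemma proj_inr (y : Y) (z : Z) : proj f Z (inr f Z y z) = y := rfl

lemma continuous_proj (hf : Continuous f) : Continuous (proj f Z) := by
  constructor
  intro V hV
  refine ⟨hV.preimage hf, fun z => hV, fun x hx => ⟨V, hV, hx, ?_⟩⟩
  convert Set.finite_empty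
  ext z
  simp

lemma continuous_inl : Continuous (inl f Z) := ⟨fun _ h => h.1⟩

lemma continuous_inr (z : Z) : Continuous (fun y => inr f Z y z) := ⟨fun _ h => h.2.1 z⟩

omit [TopologicalSpace X] [TopologicalSpace Y] in
lemma inl_injective : Function.Injective (inl f Z) := fun _ _ h => Sum.inl.inj h

omit [TopologicalSpace X] [TopologicalSpace Y] in
lemma inl_ne_inr (x : X) (y : Y) (z : Z) : inl f Z x ≠ inr f Z y z := fun h => by cases h

omit [TopologicalSpace X] [TopologicalSpace Y] in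
lemma cases (w : Fan f Z) : (∃ x, w = inl f Z x) ∨ ∃ y z, w = inr f Z y z := by
  rcases w with x | ⟨y, z⟩
  · exact Or.inl ⟨x, rfl⟩
  · exact Or.inr ⟨y, z, rfl⟩

lemma isClopen_sheet (z : Z) : IsClopen {w : Fan f Z | ∃ y, w = inr f Z y z} := by
  constructor
  · rw [← isOpen_compl_iff, isOpen_iff]
    refine ⟨?_, ?_, ?_⟩
    · convert isOpen_univ
      ext x
      simp only [Set.mem_ofPred_eq, Set.mem_compl_iff, Set.mem_univ, iff_true]
      rintro ⟨y, hy⟩
      exact inl_ne_inr f Z _ _ _ hy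
    · intro z'
      by_cases hz : z' = z
      · convert isOpen_empty
        ext y
        simp only [Set.mem_ofPred_eq, Set.mem_compl_iff, Set.mem_empty_iff_false, iff_false,
          not_not]
        exact ⟨y, by rw [hz]⟩
      · convert isOpen_univ
        ext y
        simp only [Set.mem_ofPred_eq, Set.mem_compl_iff, Set.mem_univ, iff_true]
        rintro ⟨y', hy⟩
        exact hz (congrArg Prod.snd (Sum.inr.inj hy))
    · intro x _
      refine ⟨Set.univ, isOpen_univ, trivial, (Set.finite_singleton z).subset ?_⟩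
      intro z' hz'
      by_contra hne
      apply hz'
      rintro y - ⟨y', hy⟩
      exact hne (congrArg Prod.snd (Sum.inr.inj hy))
  · rw [isOpen_iff]
    refine ⟨?_, ?_, ?_⟩
    · convert isOpen_empty
      ext x
      simp only [Set.mem_ofPred_eq, Set.mem_empty_iff_false, iff_false]
      rintro ⟨y, hy⟩
      exact inl_ne_inr f Z _ _ _ hy
    · intro z'
      by_cases hz : z' = z
      · convert isOpen_univ
        ext y
        simp only [Set.mem_ofPred_eq, Set.mem_univ, iff_true]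
        exact ⟨y, by rw [hz]⟩
      · convert isOpen_empty
        ext y
        simp only [Set.mem_ofPred_eq, Set.mem_empty_iff_false, iff_false]
        rintro ⟨y', hy⟩
        exact hz (congrArg Prod.snd (Sum.inr.inj hy))
    · rintro x ⟨y, hy⟩
      exact absurd hy (inl_ne_inr f Z _ _ _)

lemma mem_rlp {M : MP.{u}} (hM : M ≤ Dom) : M.rlp (mk (inl f Z) (continuous_inl f Z)) := by
  rw [rlp_iff]
  intro C D m hm a b ha hb hab
  have hinl : ∀ d, ∃ x, b d = inl f Z x := by
    intro d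
    rcases cases f Z (b d) with h | ⟨y, z, h⟩
    · exact h
    · exfalso
      have h1 : b ⁻¹' {w : Fan f Z | ∃ y, w = inr f Z y z} = ∅ := by
        apply hM m hm
        · exact (isClopen_sheet f Z z).preimage hb
        · intro c hc
          obtain ⟨y', hy'⟩ := hc
          have := hab c
          rw [hy'] at this
          exact inl_ne_inr f Z _ _ _ this
      have h2 : d ∈ b ⁻¹' {w : Fan f Z | ∃ y, w = inr f Z y z} := ⟨y, h⟩
      rw [h1] at h2
      exact h2
  choose h hh using hinl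
  refine ⟨h, ?_, ?_, fun d => (hh d).symm⟩
  · rw [continuous_def]
    intro U hU
    have hO : IsOpen {w : Fan f Z | ∀ x, w = inl f Z x → x ∈ U} := by
      rw [isOpen_iff]
      refine ⟨?_, ?_, ?_⟩
      · convert hU
        ext x
        simp only [Set.mem_ofPred_eq]
        constructor
        · intro h; exact h x rfl
        · intro hx x' hx'
          rwa [← inl_injective f Z hx']
      · intro z
        convert isOpen_univ
        ext y
        simp only [Set.mem_ofPred_eq, Set.mem_univ, iff_true]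
        intro x hx
        exact absurd hx.symm (inl_ne_inr f Z _ _ _)
      · intro x _
        refine ⟨Set.univ, isOpen_univ, trivial, ?_⟩
        convert Set.finite_empty
        ext z
        simp only [Set.mem_ofPred_eq, Set.mem_empty_iff_false, iff_false, not_not]
        intro y _ x hx
        exact absurd hx.symm (inl_ne_inr f Z _ _ _)
    convert hO.preimage hb using 1
    ext d
    simp only [Set.mem_preimage, Set.mem_ofPred_eq, hh]
    constructor
    · intro hd x hx
      rwa [← inl_injective f Z hx]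
    · intro hd
      exact hd _ rfl
  · intro c
    apply inl_injective f Z
    rw [← hh]
    exact (hab c).symm

end Fan

/-- P7 -/
lemma rlp_rlp_le_GS {M : MP.{u}} (hM : M ≤ Dom) : M.rlp.rlp ≤ GS := by
  intro X Y f hf
  have hfc : Continuous f := f.hom.continuous
  obtain ⟨Z, hZ⟩ := exists_big (Y → X)
  obtain ⟨k, hk, h1, h2⟩ := (rlp_iff f).1 hf _ (Fan.mem_rlp f Z hM) id (Fan.proj f Z)
    continuous_id (Fan.continuous_proj f Z hfc) (fun t => rfl)
  have h1' : ∀ x, k (Fan.inl f Z x) = x := h1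
  obtain ⟨s, hs⟩ := hZ (fun z y => k (Fan.inr f Z y z))
  have hs' : ∀ z ∈ (fun z y => k (Fan.inr f Z y z)) ⁻¹' {s}, ∀ y, k (Fan.inr f Z y z) = s y :=
    fun z hz y => congrFun hz y
  obtain ⟨z₀, hz₀⟩ := hs.nonempty
  refine ⟨s, ?_, fun y => ?_, fun x => ?_⟩
  · have : s = fun y => k (Fan.inr f Z y z₀) := (funext (hs' z₀ hz₀)).symm
    rw [this]
    exact hk.comp (Fan.continuous_inr f Z z₀)
  · rw [← hs' z₀ hz₀]
    exact h2 _
  · rw [specializes_iff_forall_open]
    intro O hO hx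
    obtain ⟨V, hV, hxV, hVf⟩ := ((Fan.isOpen_iff f Z).1 (hO.preimage hk)).2.2 x (by
      show k (Fan.inl f Z x) ∈ O
      rw [h1']; exact hx)
    obtain ⟨z, hz, hz'⟩ := hs.exists_notMem_finite hVf
    simp only [Set.mem_ofPred_eq, not_not] at hz'
    have := hz' (f x) hxV
    rw [← hs' z hz]
    exact this

/-- Maps whose range is contained in no proper open subset. -/
def Den : MP.{u} := fun _ Y f => ∀ V : Set Y, IsOpen V → (∀ x, f x ∈ V) → V = Set.univ

/-- `B × Z` with a cofinite-type topology. -/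
def CoB (B Z : Type u) : Type u := B × Z

namespace CoB

variable {B Z : Type u} [TopologicalSpace B]

/-- points -/
def pt (b : B) (z : Z) : CoB B Z := (b, z)
/-- projection -/
def proj (w : CoB B Z) : B := w.1

instance : TopologicalSpace (CoB B Z) where
  IsOpen O := ∀ w ∈ O, ∃ V : Set B, IsOpen V ∧ proj w ∈ V ∧ {w' | proj w' ∈ V ∧ w' ∉ O}.Finite
  isOpen_univ := fun _ _ => ⟨Set.univ, isOpen_univ, trivial, by simp⟩
  isOpen_inter s t hs ht := by
    rintro w ⟨h1, h2⟩
    obtain ⟨V, hV, hxV, hVs⟩ := hs w h1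
    obtain ⟨W, hW, hxW, hWt⟩ := ht w h2
    refine ⟨V ∩ W, hV.inter hW, ⟨hxV, hxW⟩, (hVs.union hWt).subset ?_⟩
    rintro w' ⟨⟨h3, h4⟩, h5⟩
    by_contra hcon
    simp only [Set.mem_union, Set.mem_ofPred_eq, not_or, not_and, not_not] at hcon
    exact h5 ⟨hcon.1 h3, hcon.2 h4⟩
  isOpen_sUnion S hS := by
    rintro w ⟨t, ht, h1⟩
    obtain ⟨V, hV, hxV, hVs⟩ := hS t ht w h1
    refine ⟨V, hV, hxV, hVs.subset ?_⟩
    rintro w' ⟨h3, h4⟩
    exact ⟨h3, fun h => h4 ⟨t, ht, h⟩⟩

lemma isOpen_iff {O : Set (CoB B Z)} : IsOpen O ↔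
    ∀ w ∈ O, ∃ V : Set B, IsOpen V ∧ proj w ∈ V ∧ {w' | proj w' ∈ V ∧ w' ∉ O}.Finite := Iff.rfl

lemma continuous_proj : Continuous (proj : CoB B Z → B) := by
  constructor
  intro V hV w hw
  refine ⟨V, hV, hw, ?_⟩
  convert Set.finite_empty
  ext w'
  simp

lemma isOpen_compl_singleton (w : CoB B Z) : IsOpen ({w}ᶜ : Set (CoB B Z)) := by
  rw [isOpen_iff]
  intro w' _
  refine ⟨Set.univ, isOpen_univ, trivial, (Set.finite_singleton w).subset ?_⟩
  rintro w'' ⟨-, h⟩
  simpa using h

lemma mem_rlp {N : MP.{u}} (hN : N ≤ Den) (T : Set B) :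
    N.rlp (mk (Subtype.val : {w : CoB B Z // proj w ∈ T} → CoB B Z) continuous_subtype_val) := by
  rw [rlp_iff]
  intro C D m hm a b ha hb hab
  have hT : ∀ d, proj (b d) ∈ T := by
    intro d
    by_contra hcon
    have h1 : b ⁻¹' ({b d}ᶜ) = Set.univ := by
      apply hN m hm _ ((isOpen_compl_singleton (b d)).preimage hb)
      intro c hc
      apply hcon
      have h2 : b (m c) = b d := hc
      rw [← h2, ← hab c]
      exact (a c).2
    have h2 : d ∈ b ⁻¹' ({b d}ᶜ) := by rw [h1]; trivial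
    exact h2 rfl
  refine ⟨fun d => ⟨b d, hT d⟩, hb.subtype_mk _, ?_, fun _ => rfl⟩
  intro c
  apply Subtype.ext
  exact (hab c).symm

end CoB

/-- P8 -/
lemma rlp_rlp_le_emb_rlp {N : MP.{u}} (hN : N ≤ Den) : N.rlp.rlp ≤ Emb.rlp := by
  intro X Y q hq
  rw [rlp_iff]
  intro A B i hi a b ha hb hab
  obtain ⟨Z, hZ⟩ := exists_big X
  have hi' : IsEmbedding i := hi
  let T : Set B := Set.range i
  have hsel : ∀ w : {w : CoB B Z // CoB.proj w ∈ T}, ∃ c, i c = CoB.proj w.1 := fun w => w.2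
  choose sel hsel' using hsel
  have hselc : Continuous sel := by
    rw [hi'.isInducing.continuous_iff]
    have : (i ∘ sel) = fun w => CoB.proj w.1 := funext hsel'
    rw [this]
    exact CoB.continuous_proj.comp continuous_subtype_val
  obtain ⟨k, hk, h1, h2⟩ := (rlp_iff q).1 hq _ (CoB.mem_rlp (Z := Z) hN T)
    (fun w => a (sel w)) (fun w => b (CoB.proj w)) (ha.comp hselc) (hb.comp CoB.continuous_proj)
    (fun w => by
      show q (a (sel w)) = b (CoB.proj w.1)
      rw [hab, hsel'])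
  choose h hh using fun y : B => hZ (fun z => k (CoB.pt y z))
  have key : ∀ y, ∃ z, k (CoB.pt y z) = h y := fun y => (hh y).nonempty
  refine ⟨h, ?_, ?_, ?_⟩
  · rw [continuous_def]
    intro O hO
    rw [isOpen_iff_forall_mem_open]
    intro y hy
    obtain ⟨z, hz⟩ := key y
    obtain ⟨V, hV, hyV, hVf⟩ := (CoB.isOpen_iff.1 (hO.preimage hk)) (CoB.pt y z) (by
      show k (CoB.pt y z) ∈ O
      rw [hz]; exact hy)
    refine ⟨V, fun y' hy' => ?_, hV, hyV⟩
    have hfin : {z' | k (CoB.pt y' z') ∉ O}.Finite := by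
      have : (fun z' => (CoB.pt y' z' : CoB B Z)) '' {z' | k (CoB.pt y' z') ∉ O} ⊆
          {w' | CoB.proj w' ∈ V ∧ w' ∉ k ⁻¹' O} := by
        rintro _ ⟨z', hz', rfl⟩
        exact ⟨hy', hz'⟩
      refine Set.Finite.of_finite_image (hVf.subset this) ?_
      intro z1 _ z2 _ h12
      exact congrArg Prod.snd h12
    obtain ⟨z', hz', hz''⟩ := (hh y').exists_notMem_finite hfin
    simp only [Set.mem_ofPred_eq, not_not] at hz''
    have h3 : k (CoB.pt y' z') = h y' := hz'
    rw [h3] at hz''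
    exact hz''
  · intro c
    obtain ⟨z, hz⟩ := key (i c)
    rw [← hz]
    have h3 := h1 ⟨CoB.pt (i c) z, ⟨c, rfl⟩⟩
    have h4 : sel ⟨CoB.pt (i c) z, ⟨c, rfl⟩⟩ = c := hi'.injective (hsel' _)
    rw [h4] at h3
    exact h3
  · intro y
    obtain ⟨z, hz⟩ := key y
    rw [← hz]
    exact h2 _

end Helper98.QN
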