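import Pool.Agent.Helper98.QNBasic

/-!
Elementary lifting lemmas between the pointwise classes.
-/

universe u

open CategoryTheory Topology

namespace Helper98.QN

/-- Two-point (or more) indiscrete spaces. -/
structure Triv (α : Type u) : Type u where
  /-- the underlying point -/
  val : α

instance (α : Type u) : TopologicalSpace (Triv α) := ⊤

lemma continuous_triv {X : Type*} [TopologicalSpace X] {α : Type u} (f : X → Triv α) :
    Continuous f := continuous_top

lemma inseparable_triv {α : Type u} (x y : Triv α) : Inseparable x y := by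
  rw [inseparable_iff_forall_isOpen]
  intro s hs
  rcases (TopologicalSpace.isOpen_top_iff s).1 hs with rfl | rfl <;> simp

section

variable {A B X Y : Type u} [TopologicalSpace A] [TopologicalSpace B] [TopologicalSpace X]
    [TopologicalSpace Y]

lemma continuous_ite_inseparable {s : Set A} [DecidablePred (· ∈ s)] {x x' : X}
    (h : Inseparable x x') : Continuous (fun a => if a ∈ s then x else x') := by
  rw [continuous_def]
  intro O hO
  by_cases hx : x ∈ O
  · have hx' : x' ∈ O := (h.mem_open_iff hO).1 hx
    convert isOpen_univ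
    ext a; simp only [Set.mem_preimage, Set.mem_univ, iff_true]; split_ifs <;> assumption
  · have hx' : x' ∉ O := fun h' => hx ((h.mem_open_iff hO).2 h')
    convert isOpen_empty
    ext a; simp only [Set.mem_preimage, Set.mem_empty_iff_false, iff_false]; split_ifs <;> assumption

lemma continuous_ite_specializes {s : Set A} [DecidablePred (· ∈ s)] (hs : IsOpen s) {x x' : X}
    (h : x ⤳ x') : Continuous (fun a => if a ∈ s then x else x') := by
  rw [continuous_def]
  intro O hO
  by_cases hx' : x' ∈ O
  · have hx : x ∈ O := h.mem_open hO hx'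
    convert isOpen_univ
    ext a; simp only [Set.mem_preimage, Set.mem_univ, iff_true]; split_ifs <;> assumption
  · by_cases hx : x ∈ O
    · convert hs
      ext a; simp only [Set.mem_preimage]; split_ifs with h1 <;> simp [h1, hx, hx']
    · convert isOpen_empty
      ext a; simp only [Set.mem_preimage, Set.mem_empty_iff_false, iff_false]
      split_ifs <;> assumption

/-- Surjections lift against embeddings. -/
lemma surj_lifts_emb {i : A → B} {p : X → Y} (hi : Function.Surjective i) (hp : IsEmbedding p) :
    Lifts i p := by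
  intro a b ha hb hab
  choose s hs using hi
  have key : ∀ t, p (a (s t)) = b t := fun t => by rw [hab, hs]
  refine ⟨fun t => a (s t), ?_, fun t => ?_, key⟩
  · rw [hp.isInducing.continuous_iff]
    convert hb using 1
    ext t; exact key t
  · apply hp.injective
    rw [key, hab]

/-- Final maps lift against bijections. -/
lemma fin_lifts_bij {i : A → B} {p : X → Y} (hi : ∀ V : Set B, IsOpen (i ⁻¹' V) → IsOpen V)
    (hp : Function.Bijective p) : Lifts i p := by
  intro a b ha hb hab
  obtain ⟨s, hs⟩ := hp.surjective.hasRightInverse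
  have key : ∀ t, s (b (i t)) = a t := fun t => hp.injective (by rw [hs, hab])
  refine ⟨fun t => s (b t), ?_, key, fun t => hs _⟩
  rw [continuous_def]
  intro O hO
  apply hi
  have : i ⁻¹' ((fun t => s (b t)) ⁻¹' O) = a ⁻¹' O := by
    ext t; simp [key]
  rw [this]; exact hO.preimage ha

/-- Quotient maps lift against injections. -/
lemma quot_lifts_inj {i : A → B} {p : X → Y} (hi : ∀ V : Set B, IsOpen (i ⁻¹' V) → IsOpen V)
    (hi' : Function.Surjective i) (hp : Function.Injective p) : Lifts i p := by
  intro a b ha hb hab
  choose s hs using hi'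
  have key0 : ∀ t, p (a (s t)) = b t := fun t => by rw [hab, hs]
  have key : ∀ t, a (s (i t)) = a t := fun t => hp (by rw [key0, hab])
  refine ⟨fun t => a (s t), ?_, key, key0⟩
  rw [continuous_def]
  intro O hO
  apply hi
  have : i ⁻¹' ((fun t => a (s t)) ⁻¹' O) = a ⁻¹' O := by
    ext t; simp [key]
  rw [this]; exact hO.preimage ha

/-- Final injections lift against surjections. -/
lemma dis_lifts_surj {i : A → B} {p : X → Y} (hi : ∀ V : Set B, IsOpen (i ⁻¹' V) → IsOpen V)
    (hi' : Function.Injective i) (hp : Function.Surjective p) : Lifts i p := by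
  classical
  intro a b ha hb hab
  choose s hs using hp
  let h : B → X := fun t => if ht : ∃ c, i c = t then a ht.choose else s (b t)
  have h1 : ∀ c, h (i c) = a c := by
    intro c
    have hc : ∃ c', i c' = i c := ⟨c, rfl⟩
    have : hc.choose = c := hi' hc.choose_spec
    simp only [h, dif_pos hc, this]
  refine ⟨h, ?_, h1, fun t => ?_⟩
  · rw [continuous_def]
    intro O hO
    apply hi
    have : i ⁻¹' (h ⁻¹' O) = a ⁻¹' O := by
      ext t; simp [h1]
    rw [this]; exact hO.preimage ha
  · by_cases ht : ∃ c, i c = t
    · obtain ⟨c, rfl⟩ := ht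
      rw [h1, hab]
    · simp only [h, dif_neg ht, hs]

/-- Injections lift against surjective inducing maps. -/
lemma inj_lifts_surjInd {i : A → B} {p : X → Y} (hi : Function.Injective i)
    (hp : Function.Surjective p) (hp' : IsInducing p) : Lifts i p := by
  classical
  intro a b ha hb hab
  choose s hs using hp
  let h : B → X := fun t => if ht : ∃ c, i c = t then a ht.choose else s (b t)
  have h1 : ∀ c, h (i c) = a c := by
    intro c
    have hc : ∃ c', i c' = i c := ⟨c, rfl⟩
    have : hc.choose = c := hi hc.choose_spec
    simp only [h, dif_pos hc, this]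
  have h2 : ∀ t, p (h t) = b t := by
    intro t
    by_cases ht : ∃ c, i c = t
    · obtain ⟨c, rfl⟩ := ht
      rw [h1, hab]
    · simp only [h, dif_neg ht, hs]
  refine ⟨h, ?_, h1, h2⟩
  rw [hp'.continuous_iff]
  convert hb using 1
  ext t; exact h2 t

/-- Bijections lift against inducing maps. -/
lemma bij_lifts_ind {i : A → B} {p : X → Y} (hi : Function.Bijective i)
    (hp' : IsInducing p) : Lifts i p := by
  intro a b ha hb hab
  obtain ⟨s, hs⟩ := hi.surjective.hasRightInverse
  have hs' : ∀ c, s (i c) = c := fun c => hi.injective (hs _)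
  have h2 : ∀ t, p (a (s t)) = b t := fun t => by rw [hab, hs]
  refine ⟨fun t => a (s t), ?_, fun t => by simp [hs'], h2⟩
  rw [hp'.continuous_iff]
  convert hb using 1
  ext t; exact h2 t

/-- Split epimorphisms lift against injections. -/
lemma split_lifts_inj {i : A → B} {p : X → Y} {s : B → A} (hs : Continuous s)
    (his : ∀ b, i (s b) = b) (hp : Function.Injective p) : Lifts i p := by
  intro a b ha hb hab
  have h2 : ∀ t, p (a (s t)) = b t := fun t => by rw [hab, his]
  exact ⟨fun t => a (s t), ha.comp hs, fun t => hp (by rw [h2, hab]), h2⟩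

/-- Surjective inducing maps lift against maps with fibres that are `T₀` in the strong sense. -/
lemma surjInd_lifts_RI {i : A → B} {p : X → Y} (hi : Function.Surjective i) (hi' : IsInducing i)
    (hp : ∀ x x', Inseparable x x' → p x = p x' → x = x') : Lifts i p := by
  intro a b ha hb hab
  choose s hs using hi
  have key : ∀ t, a (s (i t)) = a t := fun t => by
    apply hp
    · have : Inseparable (s (i t)) t := by
        rw [← hi'.inseparable_iff, hs]
      exact this.map ha
    · rw [hab, hs, hab]
  refine ⟨fun t => a (s t), ?_, key, fun t => by rw [hab, hs]⟩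
  rw [continuous_def]
  intro O hO
  obtain ⟨V, hV, hV'⟩ := hi'.isOpen_iff.1 (hO.preimage ha)
  convert hV using 1
  ext t
  have h3 : s t ∈ a ⁻¹' O ↔ s t ∈ i ⁻¹' V := by rw [hV']
  simpa [hs] using h3

/-- Closed embeddings lift against maps in `GS`. -/
lemma closedEmb_lifts_GS {i : A → B} {p : X → Y} (hi : IsClosedEmbedding i)
    {s : Y → X} (hs : Continuous s) (hps : ∀ y, p (s y) = y) (hsp : ∀ x, s (p x) ⤳ x) :
    Lifts i p := by
  classical
  intro a b ha hb hab
  let h : B → X := fun t => if ht : ∃ c, i c = t then a ht.choose else s (b t)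
  have h1 : ∀ c, h (i c) = a c := by
    intro c
    have hc : ∃ c', i c' = i c := ⟨c, rfl⟩
    have : hc.choose = c := hi.injective hc.choose_spec
    simp only [h, dif_pos hc, this]
  have h0 : ∀ t, (¬ ∃ c, i c = t) → h t = s (b t) := fun t ht => by simp only [h, dif_neg ht]
  have h2 : ∀ t, p (h t) = b t := by
    intro t
    by_cases ht : ∃ c, i c = t
    · obtain ⟨c, rfl⟩ := ht
      rw [h1, hab]
    · simp only [h, dif_neg ht, hps]
  refine ⟨h, ?_, h1, h2⟩
  rw [continuous_def]
  intro O hO
  rw [isOpen_iff_forall_mem_open]
  intro t ht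
  by_cases htr : ∃ c, i c = t
  · obtain ⟨c, rfl⟩ := htr
    obtain ⟨V, hV, hV'⟩ := hi.isInducing.isOpen_iff.1 (hO.preimage ha)
    have hcO : a c ∈ O := by simpa [h1] using ht
    refine ⟨V ∩ (fun t => s (b t)) ⁻¹' O, ?_, hV.inter (hO.preimage (hs.comp hb)), ?_, ?_⟩
    · rintro t' ⟨h3, h4⟩
      by_cases ht' : ∃ c, i c = t'
      · obtain ⟨c', rfl⟩ := ht'
        have : c' ∈ a ⁻¹' O := by rw [← hV']; exact h3
        simpa [h1] using this
      · simpa [h0 t' ht'] using h4
    · have : c ∈ i ⁻¹' V := by rw [hV']; exact hcO
      exact this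
    · show s (b (i c)) ∈ O
      rw [← hab]
      exact (hsp (a c)).mem_open hO hcO
  · refine ⟨(Set.range i)ᶜ ∩ (fun t => s (b t)) ⁻¹' O, ?_,
      hi.isClosed_range.isOpen_compl.inter (hO.preimage (hs.comp hb)), ?_, ?_⟩
    · rintro t' ⟨h3, h4⟩
      have : ¬ ∃ c, i c = t' := h3
      simpa [h0 t' this] using h4
    · exact htr
    · have : h t ∈ O := ht
      rw [h0 t htr] at this; exact this

/-- Composition of left lifting. -/
lemma Lifts.comp {C : Type u} [TopologicalSpace C] {i : A → B} {j : B → C} {p : X → Y}
    (hj' : Continuous j)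
    (hi : Lifts i p) (hj : Lifts j p) : Lifts (fun t => j (i t)) p := by
  intro a b ha hb hab
  obtain ⟨h, hc, h1, h2⟩ := hi a (fun t => b (j t)) ha (hb.comp hj') hab
  obtain ⟨k, kc, k1, k2⟩ := hj h b hc hb h2
  exact ⟨k, kc, fun t => by rw [k1, h1], k2⟩

/-- An inducing map lifts against `p` as soon as `p` satisfies `RI` and the embedding of the range
lifts. -/
lemma ind_lifts_of {i : A → B} {p : X → Y} (hi : IsInducing i)
    (hp : ∀ x x', Inseparable x x' → p x = p x' → x = x')
    (hr : Lifts (Subtype.val : Set.range i → B) p) : Lifts i p := by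
  have h1 : Lifts (Set.rangeFactorization i) p := by
    apply surjInd_lifts_RI _ _ hp
    · exact Set.rangeFactorization_surjective
    · have hc : Continuous (Set.rangeFactorization i) := hi.continuous.subtype_mk _
      exact IsInducing.of_comp hc continuous_subtype_val hi
  have := Lifts.comp continuous_subtype_val h1 hr
  exact this

end

end Helper98.QN
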