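import Pool.Agent.Helper98.QNGS

/-!
Relations between the classes, Lemma S and type A classes.
-/

universe u

open CategoryTheory Topology

namespace Helper98.QN

variable {K : MP.{u}}

/-- Bijections. -/
def Bij : MP.{u} := fun _ _ f => Function.Bijective f

lemma lifts_homeo {A B X Y : Type u} [TopologicalSpace A] [TopologicalSpace B]
    [TopologicalSpace X] [TopologicalSpace Y] {i : A → B} {p : X → Y} (hp : Function.Bijective p)
    (hp' : IsInducing p) : Lifts i p := by
  intro a b ha hb hab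
  obtain ⟨s, hs⟩ := hp.surjective.hasRightInverse
  refine ⟨fun t => s (b t), ?_, fun t => hp.injective (by rw [hs, hab]), fun t => hs _⟩
  rw [hp'.continuous_iff]
  convert hb using 1
  ext t; exact hs _

lemma homeo_lifts {A B X Y : Type u} [TopologicalSpace A] [TopologicalSpace B]
    [TopologicalSpace X] [TopologicalSpace Y] {i : A → B} {p : X → Y} (hp : Function.Bijective i)
    (hp' : IsInducing i) : Lifts i p := by
  intro a b ha hb hab
  obtain ⟨s, hs⟩ := hp.surjective.hasRightInverse
  have hsc : Continuous s := by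
    rw [hp'.continuous_iff]
    convert continuous_id using 1
    ext t; exact hs _
  refine ⟨fun t => a (s t), ha.comp hsc, fun t => ?_, fun t => by rw [hab, hs]⟩
  show a (s (i t)) = a t
  rw [hp.injective (hs (i t))]

lemma iso_le_llp : (Iso' : MP.{u}) ≤ K.llp := by
  intro A B f hf
  rw [llp_iff]
  intro X Y p _
  exact homeo_lifts hf.1 hf.2

lemma iso_le_rlp : (Iso' : MP.{u}) ≤ K.rlp := by
  intro A B f hf
  rw [rlp_iff]
  intro X Y p _
  exact lifts_homeo hf.1 hf.2

lemma bij_llp_le : Bij.{u}.llp ≤ Fin := by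
  intro X Y f hf V hV
  have hfc : Continuous f := f.hom.continuous
  have hb : Bij.{u} (mk (fun z : {z : Y × Prop // z.2 = (z.1 ∈ V)} => z.1.1)
      (continuous_fst.comp continuous_subtype_val)) := by
    constructor
    · rintro ⟨⟨y, q⟩, hq⟩ ⟨⟨y', q'⟩, hq'⟩ h
      have h' : y = y' := h
      subst h'
      have : q = q' := by
        have h1 : q = (y ∈ V) := hq
        have h2 : q' = (y ∈ V) := hq'
        rw [h1, h2]
      subst this
      rfl
    · intro y
      exact ⟨⟨(y, y ∈ V), rfl⟩, rfl⟩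
  obtain ⟨k, hk, h1, h2⟩ := (llp_iff f).1 hf _ hb (fun x => ⟨(f x, f x ∈ V), rfl⟩) id
    ((hfc.prodMk (continuous_Prop.2 hV)).subtype_mk _) continuous_id (fun _ => rfl)
  have h3 : ∀ y, (k y).1.2 = (y ∈ V) := by
    intro y
    rw [(k y).2]
    have : (k y).1.1 = y := h2 y
    rw [this]
  have h5 : Continuous (fun y => (k y).1.2) :=
    continuous_snd.comp (continuous_subtype_val.comp hk)
  rw [continuous_Prop] at h5
  simpa [h3] using h5

lemma fin_le_llp (h : K ≤ Bij) : Fin ≤ K.llp := by
  intro A B f hf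
  rw [llp_iff]
  intro X Y p hp
  exact fin_lifts_bij hf (h p hp)

lemma not_le_RI (h : K.llp ≤ Inj) : ¬ K ≤ RI := by
  intro h'
  have hI : K.llp (mk (fun _ : Triv (ULift.{u} Bool) => PUnit.unit.{u+1}) continuous_const) := by
    rw [llp_iff]
    intro X Y p hp u v hu hv huv
    have hconst : ∀ s t, u s = u t := fun s t =>
      h' p hp _ _ ((inseparable_triv s t).map hu) (by rw [huv, huv])
    refine ⟨fun _ => u ⟨⟨true⟩⟩, continuous_const, fun t => hconst _ _, fun t => ?_⟩
    rw [huv]
  have h2 := h _ hI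
  have h3 : (⟨⟨true⟩⟩ : Triv (ULift.{u} Bool)) = ⟨⟨false⟩⟩ := h2 rfl
  simp at h3

/-- Dom ∩ Fin consists of surjections. -/
lemma surj_of_fin_dom {X Y : TopCat.{u}} {f : X ⟶ Y} (hf : Fin f) (hf' : Dom f) :
    Function.Surjective f := by
  have h1 : IsOpen (Set.range f) := by
    apply hf
    rw [Set.preimage_range]
    exact isOpen_univ
  have h2 : IsOpen (Set.range f)ᶜ := by
    apply hf
    convert isOpen_empty
    ext x
    simp
  have h3 := hf' (Set.range f)ᶜ ⟨isOpen_compl_iff.1 (by rwa [compl_compl]), h2⟩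
    (fun x hx => hx ⟨x, rfl⟩)
  intro y
  by_contra hy
  have : y ∈ (Set.range f)ᶜ := hy
  rw [h3] at this
  exact this

lemma iso_of_fin_inj_dom {X Y : TopCat.{u}} {f : X ⟶ Y} (hf : Fin f) (hf' : Dom f)
    (hf'' : Inj f) : Iso' f := by
  refine ⟨⟨hf'', surj_of_fin_dom hf hf'⟩, ?_⟩
  constructor
  apply le_antisymm
  · exact continuous_iff_le_induced.1 f.hom.continuous
  · intro U hU
    refine ⟨f '' U, ?_, Set.preimage_image_eq _ hf''⟩
    apply hf
    rw [Set.preimage_image_eq _ hf'']
    exact hU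

/-- Lemma S -/
lemma lemmaS (h : K.llp ≤ Surj) : K.llp.llp = Fin ⊓ Inj ∨ K.llp.llp = Fin ∨ K.llp.llp = ⊤ ∨
    K.llp.llp = Inj := by
  by_cases hinj : K.llp ≤ Inj
  · by_cases hind : K.llp ≤ Ind
    · right; right; left
      apply le_antisymm le_top
      intro A B f _
      rw [llp_iff]
      intro X Y p hp
      exact lifts_homeo ⟨hinj p hp, h p hp⟩ (hind p hp)
    · right; left
      rcases le_RS_or_of_not_ind hind with hc | hc
      · exact absurd (le_trans hc RS_le_RI) (not_le_RI hinj)
      · apply le_antisymm (llp_llp_le_fin hc)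
        exact fin_le_llp (fun X Y p hp => ⟨hinj p hp, h p hp⟩)
  · have hRI := le_RI_of_not_inj hinj
    by_cases hind : K.llp ≤ Ind
    · right; right; right
      apply le_antisymm (llp_llp_le_inj hRI)
      intro A B f hf
      rw [llp_iff]
      intro X Y p hp
      exact inj_lifts_surjInd hf (h p hp) (hind p hp)
    · left
      have hRS : K ≤ RS := by
        rcases le_RS_or_of_not_ind hind with hc | hc
        · exact hc
        · exact le_RS_of_RSI_RI hc hRI
      apply le_antisymm (llp_llp_le_dis hRS)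
      intro A B f hf
      rw [llp_iff]
      intro X Y p hp
      exact dis_lifts_surj hf.1 hf.2 (h p hp)

/-- Maps with empty source. -/
def Emp : MP.{u} := fun A _ _ => IsEmpty A

lemma emp_le_of_not_surj (h : ¬ K.rlp ≤ Surj) : Emp ≤ K.rlp := by
  have h' : ∃ (A B : TopCat.{u}) (f : A ⟶ B), K.rlp f ∧ ¬ Function.Surjective f := by
    by_contra hcon
    push Not at hcon
    exact h fun A B f hf => hcon A B f hf
  obtain ⟨A, B, g, hg, hgs⟩ := h'
  obtain ⟨b, hb⟩ : ∃ b, ∀ c, g c ≠ b := by
    simpa [Function.Surjective] using hgs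
  intro E F e he
  have he' : IsEmpty E := he
  rw [rlp_iff]
  intro C D m hm u v hu hv huv
  have hC : IsEmpty C := ⟨fun c => he'.false (u c)⟩
  obtain ⟨k, hk, h1, h2⟩ := (rlp_iff g).1 hg m hm (fun c => hC.elim c) (fun _ => b)
    (continuous_of_const fun c => hC.elim c) continuous_const (fun c => hC.elim c)
  have hD : IsEmpty D := ⟨fun d => hb _ (h2 d)⟩
  exact ⟨fun d => hD.elim d, continuous_of_const fun d => hD.elim d, fun c => hC.elim c,
    fun d => hD.elim d⟩

lemma emp_le_rlp_of_surj (h : K ≤ Surj) : Emp ≤ K.rlp := by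
  intro E F e he
  have he' : IsEmpty E := he
  rw [rlp_iff]
  intro C D m hm u v hu hv huv
  have hC : IsEmpty C := ⟨fun c => he'.false (u c)⟩
  have hD : IsEmpty D := ⟨fun d => by
    obtain ⟨c, -⟩ := h m hm d
    exact hC.false c⟩
  exact ⟨fun d => hD.elim d, continuous_of_const fun d => hD.elim d, fun c => hC.elim c,
    fun d => hD.elim d⟩

lemma emp_le_rlp_of_dom (h : K ≤ Dom) : Emp ≤ K.rlp := by
  intro E F e he
  have he' : IsEmpty E := he
  rw [rlp_iff]
  intro C D m hm u v hu hv huv
  have hC : IsEmpty C := ⟨fun c => he'.false (u c)⟩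
  have hD : IsEmpty D := by
    have := h m hm Set.univ isClopen_univ (fun c => hC.elim c)
    exact Set.univ_eq_empty_iff.1 this
  exact ⟨fun d => hD.elim d, continuous_of_const fun d => hD.elim d, fun c => hC.elim c,
    fun d => hD.elim d⟩

lemma rlp_le_split (h : Emp ≤ K) : K.rlp ≤ Split := by
  intro X Y f hf
  obtain ⟨k, hk, -, h2⟩ := (rlp_iff f).1 hf
    (mk (fun x : PEmpty.{u+1} => (x.elim : Y)) (continuous_of_const fun x => x.elim))
    (h _ (show IsEmpty PEmpty from inferInstance)) (fun x => x.elim) id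
    (continuous_of_const fun x => x.elim) continuous_id (fun x => x.elim)
  exact ⟨k, hk, h2⟩

lemma inj_le_rlp_of_split (h : K ≤ Split) : Inj ≤ K.rlp := by
  intro X Y f hf
  rw [rlp_iff]
  intro A B i hi
  obtain ⟨s, hs, his⟩ := h i hi
  exact split_lifts_inj hs his hf

/-- auxiliary type with the induced topology -/
def Indu {X Y : Type u} (_ : X → Y) : Type u := X

instance {X Y : Type u} [TopologicalSpace Y] (f : X → Y) : TopologicalSpace (Indu f) :=
  TopologicalSpace.induced (fun x : X => f x) inferInstance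

lemma bij_rlp_le_ind : Bij.{u}.rlp ≤ Ind := by
  intro X Y f hf
  have hfc : Continuous f := f.hom.continuous
  let e : X → Indu f := fun x => x
  let e' : Indu f → X := fun x => x
  have he : Continuous e := continuous_induced_rng.2 hfc
  have hf' : Continuous (fun x : Indu f => f (e' x)) := continuous_induced_dom
  obtain ⟨k, hk, h1, h2⟩ := (rlp_iff f).1 hf (mk e he) Function.bijective_id id
    (fun x : Indu f => f (e' x)) continuous_id hf' (fun x => rfl)
  have hk' : k = e' := funext h1
  rw [hk'] at hk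
  constructor
  apply le_antisymm
  · exact continuous_iff_le_induced.1 hfc
  · intro U hU
    have h3 : IsOpen (e' ⁻¹' U) := hU.preimage hk
    exact h3

lemma inj_rlp_le_ind : Inj.{u}.rlp ≤ Ind :=
  le_trans (MorphismProperty.antitone_rlp (fun _ _ _ h => h.1)) bij_rlp_le_ind

lemma emp_le_inj : (Emp : MP.{u}) ≤ Inj := by
  intro A B f hf
  have hf' : IsEmpty A := hf
  exact fun a => hf'.elim a

lemma typeA (h : Emp ≤ K) : K.rlp.rlp.rlp = Iso' ∨ K.rlp.rlp.rlp = Inj.rlp := by
  have h1 : Inj ≤ K.rlp.rlp := inj_le_rlp_of_split (rlp_le_split h)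
  by_cases h2 : K.rlp.rlp ≤ Inj
  · right
    rw [le_antisymm h2 h1]
  · left
    have h' : ∃ (A B : TopCat.{u}) (f : A ⟶ B), K.rlp.rlp f ∧ ¬ Function.Injective f := by
      by_contra hcon
      push Not at hcon
      exact h2 fun A B f hf => hcon A B f hf
    obtain ⟨A, B, g, hg, hgs⟩ := h'
    have h3 : K.rlp.rlp.rlp ≤ RI := le_RI_of_mem hg hgs
    have h4 : K.rlp.rlp.rlp ≤ Inj.rlp := MorphismProperty.antitone_rlp h1
    apply le_antisymm _ iso_le_rlp
    intro X Y t ht
    have h5 : IsInducing t := inj_rlp_le_ind t (h4 t ht)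
    obtain ⟨s, -, hs⟩ := rlp_le_split emp_le_inj t (h4 t ht)
    refine ⟨⟨fun x x' hx => ?_, fun y => ⟨s y, hs y⟩⟩, h5⟩
    apply h3 t ht x x' _ hx
    rw [← h5.inseparable_iff, hx]

lemma range_fact {X Y : TopCat.{u}} (f : X ⟶ Y) :
    Continuous (Set.rangeFactorization f) := by
  have hfc : Continuous f := f.hom.continuous
  exact hfc.subtype_mk _

lemma inj_llp_le_surj : Inj.{u}.llp ≤ Surj := by
  intro X Y f hf
  obtain ⟨k, hk, h1, h2⟩ := (llp_iff f).1 hf
    (mk (Subtype.val : Set.range f → Y) continuous_subtype_val) Subtype.val_injective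
    (Set.rangeFactorization f) id (range_fact f) continuous_id (fun x => rfl)
  intro y
  have h3 : (k y).1 = y := h2 y
  rw [← h3]
  exact (k y).2

lemma inj_llp_eq : Inj.{u}.llp = Fin ⊓ Surj := by
  apply le_antisymm
  · exact le_inf (le_trans (MorphismProperty.antitone_llp (fun _ _ _ h => h.1)) bij_llp_le)
      inj_llp_le_surj
  · intro A B f hf
    rw [llp_iff]
    intro X Y p hp
    exact quot_lifts_inj hf.1 hf.2 hp

lemma surj_rlp_le_emb : Surj.{u}.rlp ≤ Emb := by
  intro X Y f hf
  obtain ⟨k, hk, h1, h2⟩ := (rlp_iff f).1 hf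
    (mk (Set.rangeFactorization f) (range_fact f)) Set.rangeFactorization_surjective
    id (Subtype.val : Set.range f → Y) continuous_id continuous_subtype_val (fun x => rfl)
  have h3 : IsEmbedding (Set.rangeFactorization f) :=
    Function.LeftInverse.isEmbedding (f := k) h1 hk (range_fact f)
  have h4 : IsEmbedding (Subtype.val ∘ Set.rangeFactorization f) :=
    IsEmbedding.subtypeVal.comp h3
  exact h4

lemma inj_le_RS : (Inj : MP.{u}) ≤ RS := fun _ _ _ hp _ _ _ h => hp h

/-- claim A -/
lemma claimA (h : K ≤ Inj) (h' : ¬ K.llp ≤ Surj) : K.llp.llp = Iso' := by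
  apply le_antisymm _ iso_le_llp
  intro X Y f hf
  have h1 := llp_llp_le_dom h' f hf
  have h2 := llp_llp_le_dis (le_trans h inj_le_RS) f hf
  exact iso_of_fin_inj_dom h2.1 h1 h2.2

end Helper98.QN
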