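import Pool.Agent.Helper98.QNLift

/-!
Consequences of membership or non-membership of test maps.
-/

universe u

open CategoryTheory Topology

namespace Helper98.QN

variable {K : MP.{u}}

lemma emb_of (h : K.llp ≤ Inj) (h' : K.llp ≤ Ind) : K.llp ≤ Emb := fun _ _ f hf =>
  ⟨h' f hf, h f hf⟩

/-- P1 -/
lemma le_RI_of_not_inj (h : ¬ K.llp ≤ Inj) : K ≤ RI := by
  classical
  intro X Y p hp x x' hxx' hpx
  by_contra hne
  apply h
  intro A B f hf a a' haa'
  by_contra hne'
  apply hne
  obtain ⟨k, hk, h1, -⟩ := (llp_iff f).1 hf p hp (fun c => if c ∈ ({a} : Set A) then x else x')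
    (fun _ => p x) (continuous_ite_inseparable hxx') continuous_const (by
      intro t; dsimp only; split_ifs
      · rfl
      · exact hpx.symm)
  have e1 := h1 a
  have e2 := h1 a'
  rw [haa'] at e1
  rw [if_pos (Set.mem_singleton a)] at e1
  rw [if_neg (fun h => hne' (Set.mem_singleton_iff.1 h).symm)] at e2
  rw [← e1, e2]

/-- The same for the right class. -/
lemma le_RI_of_mem {q : MP.{u}} {A B : TopCat.{u}} {g : A ⟶ B} (hg : q g)
    (hg' : ¬ Function.Injective g) : q.rlp ≤ RI := by
  classical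
  intro X Y p hp x x' hxx' hpx
  by_contra hne
  apply hg'
  intro a a' haa'
  by_contra hne'
  apply hne
  obtain ⟨k, hk, h1, -⟩ := (rlp_iff p).1 hp g hg (fun c => if c ∈ ({a} : Set A) then x else x')
    (fun _ => p x) (continuous_ite_inseparable hxx') continuous_const (by
      intro t; dsimp only; split_ifs
      · rfl
      · exact hpx.symm)
  have e1 := h1 a
  have e2 := h1 a'
  rw [haa'] at e1
  rw [if_pos (Set.mem_singleton a)] at e1
  rw [if_neg (fun h => hne' (Set.mem_singleton_iff.1 h).symm)] at e2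
  rw [← e1, e2]

/-- P2 -/
lemma le_RS_or_of_not_ind (h : ¬ K.llp ≤ Ind) : K ≤ RS ∨ K ≤ RSI := by
  classical
  -- find a map in `K.llp` which is not inducing
  have h' : ∃ (A B : TopCat.{u}) (f : A ⟶ B), K.llp f ∧ ¬ IsInducing f := by
    by_contra hcon
    push Not at hcon
    exact h fun A B f hf => hcon A B f hf
  obtain ⟨A, B, f, hf, hfi⟩ := h'
  have hU : ∃ U : Set A, IsOpen U ∧ ∀ V : Set B, IsOpen V → f ⁻¹' V ≠ U := by
    by_contra hcon
    push Not at hcon
    apply hfi
    constructor
    apply le_antisymm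
    · exact continuous_iff_le_induced.1 f.hom.continuous
    · intro U hU
      obtain ⟨V, hV, hVU⟩ := hcon U hU
      exact ⟨V, hV, hVU⟩
  obtain ⟨U, hU, hUV⟩ := hU
  by_cases hsat : ∀ c c', c ∈ U → f c = f c' → c' ∈ U
  · right
    intro X Y p hp x x' hxx' hpx
    have key : ∀ c, f c ∈ f '' U ↔ c ∈ U := by
      intro c
      constructor
      · rintro ⟨c', hc', he⟩
        exact hsat c' c hc' he
      · exact fun hc => ⟨c, hc, rfl⟩
    obtain ⟨k, hk, h1, -⟩ := (llp_iff f).1 hf p hp (fun c => if c ∈ U then x else x')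
      (fun d => if d ∈ f '' U then p x else p x') (continuous_ite_specializes hU hxx')
      (continuous_ite_inseparable hpx) (by
        intro t; dsimp only
        by_cases ht : t ∈ U
        · rw [if_pos ht, if_pos ((key t).2 ht)]
        · rw [if_neg ht, if_neg (fun h => ht ((key t).1 h))])
    rw [inseparable_iff_forall_isOpen]
    intro O hO
    refine ⟨fun hx => ?_, fun hx' => hxx'.mem_open hO hx'⟩
    by_contra hx'
    apply hUV _ (hO.preimage hk)
    ext c
    show k (f c) ∈ O ↔ c ∈ U
    rw [h1]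
    by_cases ht : c ∈ U
    · simp [ht, hx]
    · simp [ht, hx']
  · left
    push Not at hsat
    obtain ⟨c, c', hc, hcc', hc'⟩ := hsat
    intro X Y p hp x x' hxx' hpx
    obtain ⟨k, hk, h1, -⟩ := (llp_iff f).1 hf p hp (fun c => if c ∈ U then x else x')
      (fun _ => p x) (continuous_ite_specializes hU hxx') continuous_const (by
        intro t; dsimp only; split_ifs
        · rfl
        · exact hpx.symm)
    have e1 := h1 c
    have e2 := h1 c'
    rw [if_pos hc, hcc'] at e1
    rw [if_neg hc'] at e2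
    rw [← e1, e2]

lemma le_RS_of_RSI_RI (h : K ≤ RSI) (h' : K ≤ RI) : K ≤ RS := fun _ _ p hp x x' hx hpx =>
  h' p hp x x' (h p hp x x' hx (by rw [hpx])) hpx

lemma RS_le_RI : (RS : MP.{u}) ≤ RI := fun _ _ _ hp x x' hx hpx => hp x x' hx.specializes hpx

/-- If `I → pt` belongs to `K.llp` then `K.llp.llp` consists of injections. -/
lemma llp_llp_le_inj (h : K ≤ RI) : K.llp.llp ≤ Inj := by
  classical
  intro A B f hf a a' haa'
  by_contra hne
  have hI : K.llp (mk (fun _ : Triv (ULift.{u} Bool) => PUnit.unit.{u+1}) continuous_const) := by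
    rw [llp_iff]
    intro X Y p hp u v hu hv huv
    have hconst : ∀ s t, u s = u t := fun s t =>
      h p hp _ _ ((inseparable_triv s t).map hu) (by rw [huv, huv])
    refine ⟨fun _ => u ⟨⟨true⟩⟩, continuous_const, fun t => hconst _ _, fun t => ?_⟩
    rw [huv]
  obtain ⟨k, hk, h1, -⟩ := (llp_iff f).1 hf _ hI
    (fun c => if c ∈ ({a} : Set A) then (⟨⟨true⟩⟩ : Triv (ULift.{u} Bool)) else ⟨⟨false⟩⟩)
    (fun _ => PUnit.unit) (continuous_triv _) continuous_const (fun _ => rfl)
  have e1 := h1 a
  have e2 := h1 a'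
  rw [haa'] at e1
  rw [if_pos (Set.mem_singleton a)] at e1
  rw [if_neg (fun h => hne (Set.mem_singleton_iff.1 h).symm)] at e2
  rw [e1] at e2
  simp at e2

/-- P3 -/
lemma llp_llp_le_dom (h : ¬ K.llp ≤ Surj) : K.llp.llp ≤ Dom := by
  classical
  have h' : ∃ (A B : TopCat.{u}) (f : A ⟶ B), K.llp f ∧ ¬ Function.Surjective f := by
    by_contra hcon
    push Not at hcon
    exact h fun A B f hf => hcon A B f hf
  obtain ⟨C, D, g, hg, hgs⟩ := h'
  obtain ⟨d, hd⟩ : ∃ d, ∀ c, g c ≠ d := by
    simpa [Function.Surjective] using hgs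
  intro X Y f hf V hV hfV
  have hgc : Continuous g := g.hom.continuous
  have hfc : Continuous f := f.hom.continuous
  have hmem : K.llp (mk (Sum.map (id : Y → Y) g) (continuous_id.sumMap hgc)) := by
    rw [llp_iff]
    intro E F p hp u v hu hv huv
    obtain ⟨k, hk, h1, h2⟩ := (llp_iff g).1 hg p hp (fun c => u (Sum.inr c))
      (fun d => v (Sum.inr d)) (hu.comp continuous_inr) (hv.comp continuous_inr)
      (fun t => huv (Sum.inr t))
    refine ⟨Sum.elim (fun y => u (Sum.inl y)) k, ?_, ?_, ?_⟩
    · exact Continuous.sumElim (hu.comp continuous_inl) hk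
    · rintro (t | t)
      · rfl
      · exact h1 t
    · rintro (t | t)
      · exact huv (Sum.inl t)
      · exact h2 t
  have hvc : Continuous (fun y : Y => if y ∈ V then (Sum.inr d : Y ⊕ D) else Sum.inl y) := by
    apply continuous_if
    · intro a ha
      have : frontier {y : Y | y ∈ V} = ∅ := hV.frontier_eq
      rw [this] at ha
      exact ha.elim
    · exact continuous_const.continuousOn
    · exact continuous_inl.continuousOn
  obtain ⟨k, hk, h1, h2⟩ := (llp_iff f).1 hf _ hmem (fun x => (Sum.inl (f x) : Y ⊕ C))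
    (fun y => if y ∈ V then (Sum.inr d : Y ⊕ D) else Sum.inl y)
    (continuous_inl.comp hfc) hvc (by
      intro t
      rw [if_neg (hfV t)]
      rfl)
  rw [Set.eq_empty_iff_forall_notMem]
  intro y hy
  have h3 := h2 y
  rw [if_pos hy] at h3
  rcases hky : k y with t | t
  · rw [hky] at h3
    exact absurd h3 (by simp [mk])
  · rw [hky] at h3
    exact hd t (Sum.inr.inj h3)

end Helper98.QN
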