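import Pool.Agent.Helper98.QNRel

/-!
The six words of finite range.
-/

universe u

open CategoryTheory Topology

namespace Helper98.QN

/-- The four classes of Lemma S. -/
def S0 : Set MP.{u} := {Fin ⊓ Inj, Fin, ⊤, Inj}

lemma S0_finite : (S0 : Set MP.{u}).Finite := by
  unfold S0; exact Set.toFinite _

lemma mem_S0 {K : MP.{u}} (h : K.llp ≤ Surj) : K.llp.llp ∈ S0 := by
  unfold S0
  rcases lemmaS h with h | h | h | h <;> rw [h] <;> simp

lemma le_llp_rlp' (T : MP.{u}) : T ≤ T.llp.rlp :=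
  (MorphismProperty.le_llp_iff_le_rlp T.llp T).1 le_rfl

lemma w_rrrrr (P : MP.{u}) : P.rlp.rlp.rlp.rlp.rlp ∈
    ({Iso', Inj.rlp, MorphismProperty.rlp Iso', Inj.rlp.rlp} : Set MP.{u}) := by
  by_cases h : P.rlp ≤ Surj
  · rcases typeA (emp_le_rlp_of_surj h) with h1 | h1
    · rw [h1]; simp
    · rw [h1]; simp
  · rcases typeA (emp_le_of_not_surj h) with h1 | h1
    · rw [h1]; simp
    · rw [h1]; simp

lemma w_llll (P : MP.{u}) : P.llp.llp.llp.llp ∈
    (S0 ∪ {Iso', MorphismProperty.llp Iso'} ∪ MorphismProperty.llp '' S0 ∪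
      (fun T => T.llp.llp) '' S0 : Set MP.{u}) := by
  by_cases h : P.llp ≤ Surj
  · exact Or.inr ⟨_, mem_S0 h, rfl⟩
  by_cases h1 : P.llp.llp ≤ Surj
  · exact Or.inl (Or.inr ⟨_, mem_S0 h1, rfl⟩)
  left; left
  by_cases h2 : P.llp ≤ Inj
  · right
    rw [claimA h2 h1]; simp
  · have h3 : P.llp.llp ≤ Inj := llp_llp_le_inj (le_RI_of_not_inj h2)
    by_cases h4 : P.llp.llp.llp ≤ Surj
    · left; exact mem_S0 h4
    · right
      rw [claimA h3 h4]; simp

lemma w_llrrrr (P : MP.{u}) : P.llp.llp.rlp.rlp.rlp.rlp ∈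
    ({Iso', Inj.rlp} ∪ (fun T => T.rlp.rlp.rlp.rlp) '' S0 : Set MP.{u}) := by
  by_cases h : P.llp ≤ Surj
  · exact Or.inr ⟨_, mem_S0 h, rfl⟩
  left
  rcases typeA (emp_le_rlp_of_dom (llp_llp_le_dom h)) with h1 | h1
  · rw [h1]; simp
  · rw [h1]; simp

lemma w_llrrrll (P : MP.{u}) : P.llp.llp.rlp.rlp.rlp.llp.llp ∈
    (S0 ∪ (fun T => T.rlp.rlp.rlp.llp.llp) '' S0 : Set MP.{u}) := by
  by_cases h : P.llp ≤ Surj
  · exact Or.inr ⟨_, mem_S0 h, rfl⟩
  left
  apply mem_S0
  have h1 : Inj ≤ P.llp.llp.rlp.rlp.rlp :=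
    inj_le_rlp_of_split (rlp_le_split (emp_le_rlp_of_dom (llp_llp_le_dom h)))
  exact le_trans (MorphismProperty.antitone_llp h1) inj_llp_le_surj

lemma emp_not_le_surj {K : MP.{u}} (h : Emp ≤ K) : ¬ K ≤ Surj := by
  intro h'
  have h1 := h' _ (h (mk (fun x : PEmpty.{u+1} => (x.elim : PUnit.{u+1}))
    (continuous_of_const fun x => x.elim)) (show IsEmpty PEmpty from inferInstance))
  obtain ⟨x, -⟩ := h1 PUnit.unit
  exact x.elim

lemma w_llrrlll (P : MP.{u}) : P.llp.llp.rlp.rlp.llp.llp.llp ∈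
    (S0 ∪ {Iso', Fin ⊓ Surj} ∪ (fun T => T.rlp.rlp.llp.llp.llp) '' S0 : Set MP.{u}) := by
  by_cases h : P.llp ≤ Surj
  · exact Or.inr ⟨_, mem_S0 h, rfl⟩
  left
  have hdom := llp_llp_le_dom h
  generalize P.llp.llp = M at hdom
  have hE : Emp ≤ M.rlp := emp_le_rlp_of_dom hdom
  have hE' : Emp ≤ M.rlp.rlp.llp := le_trans hE (MorphismProperty.le_llp_rlp _)
  have hL' : ¬ M.rlp.rlp.llp ≤ Surj := emp_not_le_surj hE'
  have hN : M.rlp.rlp.llp.llp ≤ Dom := llp_llp_le_dom hL'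
  generalize M.rlp.rlp = R at hL' hN
  by_cases h1 : R.llp.llp ≤ Surj
  · left; exact mem_S0 h1
  right
  by_cases h2 : R.llp ≤ Inj
  · rw [claimA h2 h1]; simp
  have h3 : R ≤ RI := le_RI_of_not_inj h2
  have h4 : R.llp.llp ≤ Inj := llp_llp_le_inj h3
  have h5 : ¬ R ≤ RS := by
    intro h5
    apply h1
    intro X Y f hf
    exact surj_of_fin_dom (llp_llp_le_dis h5 f hf).1 (hN f hf)
  have h6 : R.llp ≤ Ind := by
    by_contra h6
    rcases le_RS_or_of_not_ind h6 with h7 | h7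
    · exact h5 h7
    · exact h5 (le_RS_of_RSI_RI h7 h3)
  have h7 : Bij ≤ R.llp.llp := by
    intro X Y f hf
    rw [llp_iff]
    intro A B p hp
    exact bij_lifts_ind hf (h6 p hp)
  have h8 : R.llp.llp.llp = Fin ⊓ Surj := by
    apply le_antisymm
    · have h9 : R.llp.llp.llp ≤ Fin := le_trans (MorphismProperty.antitone_llp h7) bij_llp_le
      have h10 : R.llp.llp.llp ≤ Dom := llp_llp_le_dom h1
      intro X Y f hf
      exact ⟨h9 f hf, surj_of_fin_dom (h9 f hf) (h10 f hf)⟩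
    · rw [← inj_llp_eq]
      exact MorphismProperty.antitone_llp h4
  rw [h8]; simp

/-- The open point of the Sierpinski space. -/
lemma mem_llp_RC {R : MP.{u}} (h : R ≤ RC) :
    R.llp (mk (fun _ : PUnit.{u+1} => (⟨True⟩ : ULift.{u} Prop)) continuous_const) := by
  classical
  rw [llp_iff]
  intro X Y q hq a b ha hb hab
  have hop : IsOpen {w : ULift.{u} Prop | w.down} := by
    have : Continuous (fun w : ULift.{u} Prop => w.down) := continuous_uliftDown
    exact continuous_Prop.1 this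
  have hsp : (⟨True⟩ : ULift.{u} Prop) ⤳ ⟨False⟩ := true_specializes_false.map continuous_uliftUp
  obtain ⟨x', hx', hqx'⟩ := h q hq (a PUnit.unit) (b ⟨False⟩) (by
    rw [hab]; exact hsp.map hb)
  refine ⟨fun w => if w ∈ {w : ULift.{u} Prop | w.down} then a PUnit.unit else x',
    continuous_ite_specializes hop hx', ?_, ?_⟩
  · intro t
    exact if_pos trivial
  · rintro ⟨w⟩
    show q (if (⟨w⟩ : ULift.{u} Prop) ∈ {w : ULift.{u} Prop | w.down} then a PUnit.unit else x') =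
      b ⟨w⟩
    by_cases hw : w
    · rw [if_pos (show (⟨w⟩ : ULift.{u} Prop) ∈ {w : ULift.{u} Prop | w.down} from hw), hab,
        eq_true hw]
      rfl
    · rw [if_neg (show (⟨w⟩ : ULift.{u} Prop) ∉ {w : ULift.{u} Prop | w.down} from hw), hqx',
        eq_false hw]

lemma llp_llp_le_den {R : MP.{u}} (h : R ≤ RC) : R.llp.llp ≤ Den := by
  intro C D m hm V hV hmV
  obtain ⟨k, hk, h1, h2⟩ := (llp_iff m).1 hm _ (mem_llp_RC h) (fun _ => PUnit.unit)
    (fun d => ⟨d ∈ V⟩) continuous_const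
    (continuous_uliftUp.comp (continuous_Prop.2 hV)) (fun c => by
      have h3 : m c ∈ V := hmV c
      show (⟨True⟩ : ULift.{u} Prop) = ⟨m c ∈ V⟩
      rw [eq_true h3])
  rw [Set.eq_univ_iff_forall]
  intro d
  have h3 := congrArg ULift.down (h2 d)
  have h4 : True = (d ∈ V) := h3
  rw [← h4]; trivial

lemma w_llrrllrr (P : MP.{u}) : P.llp.llp.rlp.rlp.llp.llp.rlp.rlp ∈
    ((fun T => T.rlp.rlp.llp.llp.rlp.rlp) '' S0 ∪
      {MorphismProperty.rlp (MorphismProperty.rlp Iso'), (Fin ⊓ Surj).rlp.rlp, Emb.rlp,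
        Emb.rlp ⊓ RI, GS.llp.llp.rlp.rlp, (GS ⊓ RI).llp.llp.rlp.rlp} : Set MP.{u}) := by
  by_cases h : P.llp ≤ Surj
  · exact Or.inl ⟨_, mem_S0 h, rfl⟩
  right
  have hdom := llp_llp_le_dom h
  generalize P.llp.llp = M at hdom
  have hE : Emp ≤ M.rlp := emp_le_rlp_of_dom hdom
  have hQL : M.rlp ≤ M.rlp.rlp.llp := MorphismProperty.le_llp_rlp _
  have hE' : Emp ≤ M.rlp.rlp.llp := le_trans hE hQL
  have hL' : ¬ M.rlp.rlp.llp ≤ Surj := emp_not_le_surj hE'
  have hN : M.rlp.rlp.llp.llp ≤ Dom := llp_llp_le_dom hL'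
  have hGS : M.rlp.rlp ≤ GS := rlp_rlp_le_GS hdom
  have hRC : (∃ (A B : TopCat.{u}) (g : A ⟶ B), M.rlp g ∧ ¬ IsClosed (Set.range g)) →
      M.rlp.rlp ≤ RC := by
    rintro ⟨A, B, g, hg, hr⟩
    exact rlp_rlp_le_RC hg hr
  have hRI : ¬ M.rlp ≤ Inj → M.rlp.rlp ≤ RI := by
    intro h2
    have h' : ∃ (A B : TopCat.{u}) (f : A ⟶ B), M.rlp f ∧ ¬ Function.Injective f := by
      by_contra hcon
      push Not at hcon
      exact h2 fun A B f hf => hcon A B f hf
    obtain ⟨A, B, g, hg, hgs⟩ := h'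
    exact le_RI_of_mem hg hgs
  by_cases hRS : M.rlp.rlp ≤ RS
  · have h1 : M.rlp.rlp.llp.llp = Iso' := by
      apply le_antisymm _ iso_le_llp
      intro X Y f hf
      exact iso_of_fin_inj_dom (llp_llp_le_dis hRS f hf).1 (hN f hf) (llp_llp_le_dis hRS f hf).2
    rw [h1]; simp
  by_cases hRSI : M.rlp.rlp ≤ RSI
  · have h1 : M.rlp.rlp.llp ≤ Inj := by
      by_contra h1
      exact hRS (le_RS_of_RSI_RI hRSI (le_RI_of_not_inj h1))
    have h2 : M.rlp.rlp.llp.llp = Fin ⊓ Surj := by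
      apply le_antisymm
      · intro X Y f hf
        have h3 := llp_llp_le_fin hRSI f hf
        exact ⟨h3, surj_of_fin_dom h3 (hN f hf)⟩
      · rw [← inj_llp_eq]
        exact MorphismProperty.antitone_llp h1
    rw [h2]; simp
  have hind : M.rlp.rlp.llp ≤ Ind := by
    by_contra h6
    rcases le_RS_or_of_not_ind h6 with h7 | h7
    · exact hRS h7
    · exact hRSI h7
  by_cases hRC' : M.rlp.rlp ≤ RC
  · have hP8 : M.rlp.rlp.llp.llp.rlp.rlp ≤ Emb.rlp := rlp_rlp_le_emb_rlp (llp_llp_le_den hRC')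
    generalize M.rlp.rlp.llp = L' at *
    by_cases hinj : L' ≤ Inj
    · have h1 : Surj ≤ L'.llp := by
        intro X Y f hf
        rw [llp_iff]
        intro A B p hp
        exact surj_lifts_emb hf ⟨hind p hp, hinj p hp⟩
      have h2 : L'.llp.rlp ≤ Emb := le_trans (MorphismProperty.antitone_rlp h1) surj_rlp_le_emb
      have h3 : L'.llp.rlp.rlp = Emb.rlp := le_antisymm hP8 (MorphismProperty.antitone_rlp h2)
      rw [h3]; simp
    · have h' : ∃ (A B : TopCat.{u}) (f : A ⟶ B), L' f ∧ ¬ Function.Injective f := by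
        by_contra hcon
        push Not at hcon
        exact hinj fun A B f hf => hcon A B f hf
      obtain ⟨A, B, g, hg, hgs⟩ := h'
      have h1 : L'.llp.rlp.rlp ≤ RI := le_RI_of_mem (le_llp_rlp' L' g hg) hgs
      have h2 : Bij ≤ L'.llp := by
        intro X Y f hf
        rw [llp_iff]
        intro A B p hp
        exact bij_lifts_ind hf (hind p hp)
      have h3 : L'.llp.rlp ≤ Ind := le_trans (MorphismProperty.antitone_rlp h2) bij_rlp_le_ind
      have h4 : L'.llp.rlp.rlp = Emb.rlp ⊓ RI := by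
        apply le_antisymm (le_inf hP8 h1)
        intro X Y q hq
        rw [rlp_iff]
        intro C D i hi
        refine ind_lifts_of (h3 i hi) hq.2 ?_
        exact (rlp_iff q).1 hq.1 (mk (Subtype.val : Set.range i → D) continuous_subtype_val)
          IsEmbedding.subtypeVal
      rw [h4]; simp
  · have hcl : ∀ (A B : TopCat.{u}) (g : A ⟶ B), M.rlp g → IsClosed (Set.range g) := by
      intro A B g hg
      by_contra hcon
      exact hRC' (hRC ⟨A, B, g, hg, hcon⟩)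
    have hQind : M.rlp ≤ Ind := le_trans hQL hind
    by_cases hinj : M.rlp ≤ Inj
    · have h1 : M.rlp.rlp = GS := by
        apply le_antisymm hGS
        intro X Y q hq
        rw [rlp_iff]
        intro C D i hi
        obtain ⟨s, hs, hs1, hs2⟩ := hq
        exact closedEmb_lifts_GS ⟨⟨hQind i hi, hinj i hi⟩, hcl _ _ i hi⟩ hs hs1 hs2
      rw [h1]; simp
    · have h1 : M.rlp.rlp = GS ⊓ RI := by
        apply le_antisymm (le_inf hGS (hRI hinj))
        intro X Y q hq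
        rw [rlp_iff]
        intro C D i hi
        refine ind_lifts_of (hQind i hi) hq.2 ?_
        obtain ⟨s, hs, hs1, hs2⟩ := hq.1
        exact closedEmb_lifts_GS (hcl _ _ i hi).isClosedEmbedding_subtypeVal hs hs1 hs2
      rw [h1]; simp

end Helper98.QN
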